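import Pool.Agent.H61.AP.Defs

/-! A1: algebra of the relations. -/

set_option autoImplicit false

namespace Pool.Agent.H61.AP

open Finset
open Pool.Agent.H95.Gol (bb PB)
open Pool.Agent.H41.Per (PM nmZ)

variable {g : ℕ → ℤ} {m r ε : ℤ}

/-- Basic identity: with `B = a e + 3 m² b f`, `k = (r a + m b) c - a d`, `c = e - 3 m (r+1) f`,
`d = m f`, the product of the norms is `B² + 3 B k + 3 k²`. -/
theorem key_id (m r a b e f : ℤ) :
    nmZ a (r * a + m * b) * nmZ (e - 3 * m * (r + 1) * f) (m * f) =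
      (a * e + 3 * m ^ 2 * b * f) ^ 2 +
      3 * (a * e + 3 * m ^ 2 * b * f) *
        ((r * a + m * b) * (e - 3 * m * (r + 1) * f) - a * (m * f)) +
      3 * ((r * a + m * b) * (e - 3 * m * (r + 1) * f) - a * (m * f)) ^ 2 := by
  simp only [nmZ]; ring

/-- The value at a vector times the value at a row. -/
theorem row_val (hg : PM g) (H : Hyp g m r ε) {v : ℤ × ℤ} {e f : ℤ}
    (h : v.1 * e + 3 * m ^ 2 * v.2 * f = 1) :
    (nmZ (e - 3 * m * (r + 1) * f) (m * f)).natAbs ≠ 0 ∧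
      gA g m r v * g (nmZ (e - 3 * m * (r + 1) * f) (m * f)).natAbs = ε := by
  set k := (r * v.1 + m * v.2) * (e - 3 * m * (r + 1) * f) - v.1 * (m * f) with hk
  have h1 := key_id m r v.1 v.2 e f
  rw [h, ← hk] at h1
  have h2 : G m r v * nmZ (e - 3 * m * (r + 1) * f) (m * f) = 3 * k ^ 2 + 3 * k + 1 := by
    unfold G
    rw [h1]; ring
  have h3 : (3 * k ^ 2 + 3 * k + 1 : ℤ) ≠ 0 := by
    intro h4
    omega
  have h4 : G m r v ≠ 0 := by
    intro h5
    rw [h5, zero_mul] at h2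
    exact h3 h2.symm
  have h5 : nmZ (e - 3 * m * (r + 1) * f) (m * f) ≠ 0 := by
    intro h5
    rw [h5, mul_zero] at h2
    exact h3 h2.symm
  have h6 : m ∣ k - r := by
    refine ⟨v.2 * (e - 3 * m * (r + 1) * f) - 3 * r * v.1 * (r + 1) * f - v.1 * f -
      3 * m * v.2 * f * r, ?_⟩
    rw [hk]
    linear_combination r * h
  have h7 := H k h6
  rw [← h2, Int.natAbs_mul, hg.mul _ _ (Int.natAbs_ne_zero.2 h4) (Int.natAbs_ne_zero.2 h5)] at h7
  exact ⟨Int.natAbs_ne_zero.2 h5, h7⟩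

/-- Two vectors with a common row have the same value. -/
theorem same_row (hg : PM g) (H : Hyp g m r ε) {v v' : ℤ × ℤ} {e f : ℤ}
    (h : v.1 * e + 3 * m ^ 2 * v.2 * f = 1) (h' : v'.1 * e + 3 * m ^ 2 * v'.2 * f = 1) :
    gA g m r v = gA g m r v' := by
  obtain ⟨h0, h1⟩ := row_val hg H h
  obtain ⟨_, h2⟩ := row_val hg H h'
  have h3 := hg.sq h0
  have h4 := h1.trans h2.symm
  calc gA g m r v = gA g m r v * (g (nmZ (e - 3 * m * (r + 1) * f) (m * f)).natAbs *
        g (nmZ (e - 3 * m * (r + 1) * f) (m * f)).natAbs) := by rw [h3, mul_one]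
    _ = gA g m r v' * (g (nmZ (e - 3 * m * (r + 1) * f) (m * f)).natAbs *
        g (nmZ (e - 3 * m * (r + 1) * f) (m * f)).natAbs) := by
          rw [← mul_assoc, h4, mul_assoc]
    _ = gA g m r v' := by rw [h3, mul_one]

/-- The fan of a vector `y` with `3m² ∣ y.1`, `dt w' y = 1`. -/
theorem fan (hg : PM g) (hm : m ≠ 0) (H : Hyp g m r ε) {w' y : ℤ × ℤ} (h : dt w' y = 1)
    (hy : 3 * m ^ 2 ∣ y.1) (s j : ℤ) :
    UT m (tp w' y s) ∧ gA g m r (sh j (tp w' y s)) = gA g m r (sh j w') := by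
  obtain ⟨f, hf⟩ := hy
  unfold dt at h
  constructor
  · refine ⟨y.2, -(m * f), ?_⟩
    simp only [tp]
    linear_combination h + (w'.2 + s * y.2) * hf
  · apply same_row hg H (e := y.2 + j * y.1) (f := -f)
    · simp only [sh, tp]
      linear_combination h + (w'.2 + s * y.2 + j * (w'.1 + s * y.1)) * hf
    · simp only [sh]
      linear_combination h + (w'.2 + j * w'.1) * hf

/-- Linking two vectors by a prime divisor of the norm in a fixed class, uniformly in the
shift. -/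
theorem link_class (hg : PM g) (hm : m ≠ 0) (H : Hyp g m r ε) {w z : ℤ × ℤ} (hw : UT m w)
    (hz : UT m z) (h3 : (3 : ℤ) ∣ z.1 - w.1) (hd : dt w z ≠ 0) :
    ∃ D : ℤ, IsCoprime D (3 * m ^ 2 * dt w z) ∧ (3 : ℤ) ∣ D - 1 ∧
      ∀ (j : ℤ) (p : ℕ), p.Prime → ¬ (p : ℤ) ∣ 3 * m → 3 * m ^ 2 * dt w z ∣ (p : ℤ) - D →
        (p : ℤ) ∣ G m r (sh j z) → gA g m r (sh j z) = gA g m r (sh j w) := by
  unfold UT at hw hz
  have hw1 : IsCoprime w.1 (3 * m ^ 2 * w.2) := by
    have e1 : IsCoprime w.1 m := by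
      have := hw.of_mul_right_left
      exact this.of_mul_right_right
    have e2 := hw.mul_right e1
    convert e2 using 1
    ring
  have hz1 : IsCoprime z.1 (3 * m ^ 2) := by
    have e0 : IsCoprime z.1 (3 * m) := hz.of_mul_right_left
    have e1 : IsCoprime z.1 m := e0.of_mul_right_right
    have e2 := e0.mul_right e1
    convert e2 using 1
    ring
  have hz2 : IsCoprime z.1 z.2 := hz.of_mul_right_right
  obtain ⟨e0, f0, hef⟩ := hw1
  set h := dt w z with hh
  have hh' : h = w.1 * z.2 - w.2 * z.1 := hh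
  set D := z.1 * e0 + 3 * m ^ 2 * z.2 * f0 with hD
  have i1 : z.1 = w.1 * D - 3 * m ^ 2 * f0 * h := by
    rw [hD, hh']; linear_combination (-z.1) * hef
  have i2 : z.2 = w.2 * D + e0 * h := by
    rw [hD, hh']; linear_combination (-z.2) * hef
  refine ⟨D, ?_, ?_, ?_⟩
  · have c1 : IsCoprime D (3 * m ^ 2) := by
      obtain ⟨a, b, hab⟩ := hz1
      refine ⟨a * w.1, b - a * f0 * h, ?_⟩
      linear_combination hab - a * i1
    have c2 : IsCoprime D h := by
      obtain ⟨a, b, hab⟩ := hz2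
      refine ⟨a * w.1 + b * w.2, b * e0 - a * 3 * m ^ 2 * f0, ?_⟩
      linear_combination hab - a * i1 - b * i2
    exact c1.mul_right c2
  · obtain ⟨q, hq⟩ := h3
    refine ⟨q * e0 + m ^ 2 * z.2 * f0 - m ^ 2 * w.2 * f0, ?_⟩
    rw [hD]
    linear_combination hef + e0 * hq
  · intro j p hp hpm hpD hpG
    obtain ⟨t, ht⟩ := hpD
    set f := f0 + w.1 * t with hf
    set e := e0 - 3 * m ^ 2 * w.2 * t - 3 * m ^ 2 * j * f with he
    have r1 : (sh j w).1 * e + 3 * m ^ 2 * (sh j w).2 * f = 1 := by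
      simp only [sh]
      rw [he, hf]
      linear_combination hef
    have r2 : (sh j z).1 * e + 3 * m ^ 2 * (sh j z).2 * f = p := by
      simp only [sh]
      rw [he, hf]
      have : (p : ℤ) = D + 3 * m ^ 2 * h * t := by linarith
      rw [this, hD, hh']
      ring
    obtain ⟨n0, rv⟩ := row_val hg H r1
    set v := sh j z with hv
    set k := (r * v.1 + m * v.2) * (e - 3 * m * (r + 1) * f) - v.1 * (m * f) with hk
    have h1 := key_id m r v.1 v.2 e f
    rw [r2, ← hk] at h1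
    have h2 : G m r v * nmZ (e - 3 * m * (r + 1) * f) (m * f) =
        (p : ℤ) ^ 2 + 3 * p * k + 3 * k ^ 2 := h1
    have hpp : Prime (p : ℤ) := Nat.prime_iff_prime_int.1 hp
    have hp3 : ¬ (p : ℤ) ∣ 3 := fun h' => hpm (h'.mul_right m)
    have hpm' : ¬ (p : ℤ) ∣ m := fun h' => hpm (h'.mul_left 3)
    have h5 : (p : ℤ) ∣ k := by
      have h6 : (p : ℤ) ∣ 3 * k ^ 2 := by
        have h7 : (3 * k ^ 2 : ℤ) = G m r v * nmZ (e - 3 * m * (r + 1) * f) (m * f) -
            p * (p + 3 * k) := by rw [h2]; ring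
        rw [h7]
        exact dvd_sub (hpG.mul_right _) (dvd_mul_right _ _)
      rcases hpp.dvd_mul.1 h6 with h7 | h7
      · exact absurd h7 hp3
      · exact hpp.dvd_of_dvd_pow h7
    obtain ⟨k1, hk1⟩ := h5
    have h6 : G m r v * nmZ (e - 3 * m * (r + 1) * f) (m * f) =
        (p * p : ℤ) * (3 * k1 ^ 2 + 3 * k1 + 1) := by rw [h2, hk1]; ring
    have h7 : m ∣ k1 - r := by
      have h8 : m ∣ (p : ℤ) * (k1 - r) := by
        refine ⟨v.2 * (e - 3 * m * (r + 1) * f) - 3 * r * v.1 * (r + 1) * f - v.1 * f -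
          3 * m * v.2 * f * r, ?_⟩
        rw [mul_sub, ← hk1, hk]
        linear_combination r * r2
      have h9 : IsCoprime m (p : ℤ) := by
        rw [isCoprime_comm]
        exact (Irreducible.coprime_iff_not_dvd hpp.irreducible).2 hpm'
      exact h9.dvd_of_dvd_mul_left h8
    have h8 := H k1 h7
    have h9 : (3 * k1 ^ 2 + 3 * k1 + 1 : ℤ) ≠ 0 := by
      intro h4
      omega
    have hp0 : (p : ℤ) ≠ 0 := by exact_mod_cast hp.ne_zero
    have h10 : G m r v ≠ 0 := by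
      intro h5
      rw [h5, zero_mul] at h6
      exact mul_ne_zero (mul_ne_zero hp0 hp0) h9 h6.symm
    have h11 := congrArg (fun x : ℤ => g x.natAbs) h6
    simp only [Int.natAbs_mul, Int.natAbs_natCast] at h11
    rw [hg.mul _ _ (Int.natAbs_ne_zero.2 h10) n0, hg.mul _ _ (mul_ne_zero hp.ne_zero hp.ne_zero)
      (Int.natAbs_ne_zero.2 h9), hg.mul _ _ hp.ne_zero hp.ne_zero, hg.sq hp.ne_zero, one_mul,
      h8] at h11
    have h12 := hg.sq n0
    have h13 : gA g m r v * g (nmZ (e - 3 * m * (r + 1) * f) (m * f)).natAbs =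
        gA g m r (sh j w) * g (nmZ (e - 3 * m * (r + 1) * f) (m * f)).natAbs := by
      rw [rv]; exact h11
    calc gA g m r v = gA g m r v * (g (nmZ (e - 3 * m * (r + 1) * f) (m * f)).natAbs *
          g (nmZ (e - 3 * m * (r + 1) * f) (m * f)).natAbs) := by rw [h12, mul_one]
      _ = gA g m r (sh j w) * (g (nmZ (e - 3 * m * (r + 1) * f) (m * f)).natAbs *
          g (nmZ (e - 3 * m * (r + 1) * f) (m * f)).natAbs) := by
            rw [← mul_assoc, h13, mul_assoc]
      _ = gA g m r (sh j w) := by rw [h12, mul_one]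

/-- Sign change. -/
theorem gA_neg (v : ℤ × ℤ) : gA g m r (-v.1, -v.2) = gA g m r v := by
  unfold gA G
  have : nmZ (-v.1, -v.2).1 (r * (-v.1, -v.2).1 + m * (-v.1, -v.2).2) =
      nmZ v.1 (r * v.1 + m * v.2) := by
    simp only [nmZ]; ring
  rw [this]

/-- Bounded Bezout coefficients. -/
theorem bez {a b B : ℤ} (ha : |a| ≤ B) (hb : |b| ≤ B) (hB : 1 ≤ B) (h : IsCoprime a b) :
    ∃ c d : ℤ, |c| ≤ B ∧ |d| ≤ B ∧ a * d - b * c = 1 := by
  obtain ⟨x, y, hxy⟩ := h
  by_cases ha0 : a = 0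
  · subst ha0
    have hb1 : IsUnit b := IsUnit.of_mul_eq_one_right y (by linarith)
    rcases Int.isUnit_iff.1 hb1 with h | h
    · exact ⟨-1, 0, by simpa using hB, by simp; linarith, by rw [h]; ring⟩
    · exact ⟨1, 0, by simpa using hB, by simp; linarith, by rw [h]; ring⟩
  · have hapos : 0 < |a| := abs_pos.2 ha0
    -- c = (-y) mod a
    set c := (-y) % a with hc
    have hc0 : 0 ≤ c := Int.emod_nonneg _ ha0
    have hc1 : c < |a| := Int.emod_lt_abs _ ha0
    have hdm : a * ((-y) / a) + c = -y := Int.mul_ediv_add_emod _ _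
    set d := x - b * ((-y) / a) with hd
    have hid : a * d - b * c = 1 := by
      rw [hd]
      linear_combination hxy - b * hdm
    refine ⟨c, d, ?_, ?_, hid⟩
    · rw [abs_of_nonneg hc0]; linarith
    · have e1 : |a| * |d| = |1 + b * c| := by
        rw [← abs_mul]; congr 1; linarith
      have e2 : |1 + b * c| ≤ 1 + |b| * c := by
        calc |1 + b * c| ≤ |1| + |b * c| := abs_add_le _ _
          _ = 1 + |b| * c := by rw [abs_one, abs_mul, abs_of_nonneg hc0]
      by_cases hb0 : b = 0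
      · rw [hb0, zero_mul, add_zero, abs_one] at e1
        nlinarith [abs_nonneg d]
      · have hb1 : 1 ≤ |b| := Int.one_le_abs hb0
        have e3 : |a| * |d| ≤ |a| * |b| := by
          nlinarith
        exact (le_of_mul_le_mul_left e3 hapos).trans hb

/-- Existence of a vector `y` for `w'` with bounded coordinates in a unimodular basis. -/
theorem exists_y (hm : 0 < m) {L R : ℤ × ℤ} (hLR : dt L R = 1) {a' b' B : ℤ} (ha : |a'| ≤ B)
    (hb : |b'| ≤ B) (hB : 1 ≤ B) (hw : UT m (cmb a' b' L R)) :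
    ∃ c d : ℤ, |c| ≤ B * (3 * m ^ 2 + 1) ∧ |d| ≤ B * (3 * m ^ 2 + 1) ∧
      dt (cmb a' b' L R) (cmb c d L R) = 1 ∧ 3 * m ^ 2 ∣ (cmb c d L R).1 := by
  unfold UT at hw
  set w := cmb a' b' L R with hwd
  have hw1 : w.1 = a' * L.1 + b' * R.1 := rfl
  have hw2 : w.2 = a' * L.2 + b' * R.2 := rfl
  have c1 : IsCoprime a' b' := by
    obtain ⟨x, y, hxy⟩ := hw.of_mul_right_right
    refine ⟨x * L.1 + y * L.2, x * R.1 + y * R.2, ?_⟩
    rw [hw1, hw2] at hxy
    linear_combination hxy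
  have c2 : IsCoprime w.1 (3 * m ^ 2) := by
    have e0 : IsCoprime w.1 (3 * m) := hw.of_mul_right_left
    have e1 : IsCoprime w.1 m := e0.of_mul_right_right
    have e2 := e0.mul_right e1
    convert e2 using 1
    ring
  obtain ⟨c0, d0, hc0, hd0, hcd⟩ := bez ha hb hB c1
  obtain ⟨x, y, hxy⟩ := c2
  set A := c0 * L.1 + d0 * R.1 with hA
  have hM : (0 : ℤ) < 3 * m ^ 2 := by positivity
  set t := (-(A * x)) % (3 * m ^ 2) with ht
  have ht0 : 0 ≤ t := Int.emod_nonneg _ hM.ne'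
  have ht1 : t < 3 * m ^ 2 := Int.emod_lt_of_pos _ hM
  have hdm : 3 * m ^ 2 * ((-(A * x)) / (3 * m ^ 2)) + t = -(A * x) := Int.mul_ediv_add_emod _ _
  have bnd : ∀ u v : ℤ, |u| ≤ B → |v| ≤ B → |u + t * v| ≤ B * (3 * m ^ 2 + 1) := by
    intro u v hu hv
    calc |u + t * v| ≤ |u| + |t * v| := abs_add_le _ _
      _ = |u| + t * |v| := by rw [abs_mul, abs_of_nonneg ht0]
      _ ≤ B + 3 * m ^ 2 * B := by nlinarith [abs_nonneg v]
      _ = B * (3 * m ^ 2 + 1) := by ring
  refine ⟨c0 + t * a', d0 + t * b', bnd _ _ hc0 ha, bnd _ _ hd0 hb, ?_, ?_⟩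
  · unfold dt at hLR ⊢
    simp only [hw1, hw2, cmb]
    linear_combination (a' * d0 - b' * c0) * hLR + hcd
  · refine ⟨A * y - ((-(A * x)) / (3 * m ^ 2)) * w.1, ?_⟩
    simp only [cmb]
    generalize (-(A * x)) / (3 * m ^ 2) = q at hdm ⊢
    rw [hw1] at hxy ⊢
    rw [hA] at hdm ⊢
    linear_combination (a' * L.1 + b' * R.1) * hdm - (c0 * L.1 + d0 * R.1) * hxy

end Pool.Agent.H61.AP
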