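import Pool.Agent.H61.AP.A2_Blk
import Pool.Agent.H95.Gol.SieveAux
import Pool.Agent.H95.Gol.Sieve
import Pool.Agent.H41.Per.Norm

/-! A3s: the pure sieve statement behind the pair lemma. -/

set_option autoImplicit false

namespace Pool.Agent.H61.AP

open Finset
open Pool.Agent.H95.Gol (bb PB)
open Pool.Agent.H41.Per (PM nmZ)

open Classical in
/-- counting in `[0,p²)` a condition modulo `p` -/
lemma a3_card_sq {p : ℕ} [NeZero p] (Q : ZMod p → Prop) :
    ((range (p ^ 2)).filter (fun i : ℕ => Q (i : ZMod p))).card =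
      p * ((univ : Finset (ZMod p)).filter Q).card := by
  have hp : 0 < p := NeZero.pos p
  have hper : Function.Periodic (fun i : ℕ => Q (i : ZMod p)) p := by
    intro i
    simp
  have key : ∀ n : ℕ, ((range (n * p)).filter (fun i : ℕ => Q (i : ZMod p))).card =
      n * p.count (fun i : ℕ => Q (i : ZMod p)) := by
    intro n
    induction n with
    | zero => simp
    | succ n ih =>
      have h1 := Nat.filter_Ico_card_eq_of_periodic (n * p) p (fun i : ℕ => Q (i : ZMod p)) hper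
      have h2 : range ((n + 1) * p) = range (n * p) ∪ Ico (n * p) (n * p + p) := by
        ext x
        simp only [mem_range, mem_union, mem_Ico]
        have : (n + 1) * p = n * p + p := by ring
        omega
      rw [h2, filter_union, card_union_of_disjoint, ih, h1]
      · ring
      · refine disjoint_filter_filter ?_
        rw [disjoint_left]
        intro x hx hx'
        simp only [mem_range, mem_Ico] at hx hx'
        omega
  rw [pow_two, key p]
  congr 1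
  rw [Nat.count_eq_card_filter_range]
  refine card_nbij (fun i : ℕ => (i : ZMod p)) ?_ ?_ ?_
  · intro i hi
    simpa using (mem_filter.1 hi).2
  · intro i hi j hj hij
    have h1 : i < p := mem_range.1 (mem_filter.1 hi).1
    have h2 : j < p := mem_range.1 (mem_filter.1 hj).1
    have h3 : (i : ZMod p) = (j : ZMod p) := hij
    rw [ZMod.natCast_eq_natCast_iff'] at h3
    rwa [Nat.mod_eq_of_lt h1, Nat.mod_eq_of_lt h2] at h3
  · intro j hj
    refine ⟨j.val, ?_, ?_⟩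
    · have := (mem_filter.1 hj).2
      simp [ZMod.val_lt, this]
    · simp

open Classical in
/-- the local count -/
lemma a3_local {p : ℕ} (hp : p.Prime) (h3 : p % 3 = 1) (m r X : ℤ) (hm : ¬ (p : ℤ) ∣ m)
    (S : Finset ℤ) (a b : ℤ → ℤ) (ha : ∀ s ∈ S, ¬ (p : ℤ) ∣ a s)
    (hdt : ∀ s ∈ S, ∀ s' ∈ S, a s * b s' - a s' * b s = s' - s)
    (h1 : ∀ s ∈ S, ∀ s' ∈ S, s ≠ s' → ¬ (p : ℤ) ∣ s - s')
    (h2 : ∀ s ∈ S, ∀ s' ∈ S, s ≠ s' →
      ¬ (p : ℤ) ∣ 3 * m ^ 2 * (s - s') ^ 2 + (a s) ^ 2 * (a s') ^ 2) :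
    ((range (p ^ 2)).filter (fun i : ℕ => ∃ s ∈ S,
      (p : ℤ) ∣ G m r (sh (X + i) (a s, b s)))).card = p * (2 * S.card) := by
  have : Fact p.Prime := ⟨hp⟩
  obtain ⟨ζ, hζ⟩ := Pool.Agent.H41.Per.exists_zeta hp h3
  have h30 : (3 : ZMod p) ≠ 0 := by
    intro h
    have h' : ((3 : ℕ) : ZMod p) = 0 := by exact_mod_cast h
    rw [ZMod.natCast_eq_zero_iff] at h'
    have := (Nat.prime_dvd_prime_iff_eq hp Nat.prime_three).1 h'
    omega
  have hm0 : (m : ZMod p) ≠ 0 := by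
    intro h
    exact hm ((ZMod.intCast_zmod_eq_zero_iff_dvd m p).1 h)
  have ha0 : ∀ s ∈ S, (a s : ZMod p) ≠ 0 := by
    intro s hs h
    exact ha s hs ((ZMod.intCast_zmod_eq_zero_iff_dvd (a s) p).1 h)
  set x : Bool → ZMod p := fun e => if e then (ζ - 1) / 3 else -1 - (ζ - 1) / 3 with hx
  have hx1 : 3 * ((ζ - 1) / 3) ^ 2 + 3 * ((ζ - 1) / 3) + 1 = 0 := by
    field_simp
    linear_combination hζ
  have hfac : ∀ α y : ZMod p, α ^ 2 + 3 * α * y + 3 * y ^ 2 =
      3 * (y - x true * α) * (y - x false * α) := by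
    intro α y
    simp only [hx, if_true, Bool.false_eq_true, if_false]
    linear_combination (α ^ 2) * hx1
  have hxx : ∀ e e' : Bool, e ≠ e' → 3 * (x e - x e') ^ 2 = -1 := by
    intro e e' h
    cases e <;> cases e' <;> simp only [hx, if_true, Bool.false_eq_true, if_false] <;>
      first
      | exact absurd rfl h
      | linear_combination 4 * hx1
  set ρ : ℤ × Bool → ZMod p := fun q => (x q.2 - r) / m - (b q.1 : ZMod p) / (a q.1 : ZMod p) - X
    with hρ
  have hiff : ∀ s ∈ S, ∀ i : ℕ, ((p : ℤ) ∣ G m r (sh (X + i) (a s, b s)) ↔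
      ∃ e : Bool, ρ (s, e) = (i : ZMod p)) := by
    intro s hs i
    have hs0 := ha0 s hs
    rw [← ZMod.intCast_zmod_eq_zero_iff_dvd]
    unfold G sh nmZ
    push_cast
    rw [hfac]
    have e1 : ∀ e : Bool, ((r : ZMod p) * (a s : ZMod p) + m * ((b s : ZMod p) +
        (X + i) * (a s : ZMod p)) - x e * (a s : ZMod p)) =
        (m * (a s : ZMod p)) * ((i : ZMod p) - ρ (s, e)) := by
      intro e
      simp only [hρ]
      field_simp
      ring
    rw [e1 true, e1 false]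
    have hma : (m : ZMod p) * (a s : ZMod p) ≠ 0 := mul_ne_zero hm0 hs0
    constructor
    · intro h
      rcases mul_eq_zero.1 h with h | h
      · rcases mul_eq_zero.1 h with h | h
        · exact absurd h h30
        · exact ⟨true, (sub_eq_zero.1 ((mul_eq_zero.1 h).resolve_left hma)).symm⟩
      · exact ⟨false, (sub_eq_zero.1 ((mul_eq_zero.1 h).resolve_left hma)).symm⟩
    · rintro ⟨e, he⟩
      cases e <;> rw [he] <;> ring
  have hset : ((range (p ^ 2)).filter (fun i : ℕ => ∃ s ∈ S,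
      (p : ℤ) ∣ G m r (sh (X + i) (a s, b s)))) =
      (range (p ^ 2)).filter (fun i : ℕ => (i : ZMod p) ∈ (S ×ˢ (univ : Finset Bool)).image ρ) := by
    refine filter_congr fun i _ => ?_
    constructor
    · rintro ⟨s, hs, h⟩
      obtain ⟨e, he⟩ := (hiff s hs i).1 h
      exact mem_image.2 ⟨(s, e), mem_product.2 ⟨hs, mem_univ _⟩, he⟩
    · intro h
      obtain ⟨⟨s, e⟩, hse, he⟩ := mem_image.1 h
      have hs := (mem_product.1 hse).1
      exact ⟨s, hs, (hiff s hs i).2 ⟨e, he⟩⟩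
  have hcs := a3_card_sq (fun j : ZMod p => j ∈ (S ×ˢ (univ : Finset Bool)).image ρ)
  have e2 : (univ : Finset (ZMod p)).filter (fun j => j ∈ (S ×ˢ (univ : Finset Bool)).image ρ) =
      (S ×ˢ (univ : Finset Bool)).image ρ := by
    ext j; simp only [mem_filter, mem_univ, true_and]
  rw [hset]
  trans p * ((S ×ˢ (univ : Finset Bool)).image ρ).card
  · rw [← e2]
    convert hcs
  congr 1
  rw [card_image_of_injOn, card_product]
  · simp [mul_comm]
  · rintro ⟨s, e⟩ hse ⟨s', e'⟩ hse' heq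
    have hs : s ∈ S := (mem_product.1 (mem_coe.1 hse)).1
    have hs' : s' ∈ S := (mem_product.1 (mem_coe.1 hse')).1
    have hs0 := ha0 s hs
    have hs0' := ha0 s' hs'
    have hD : (a s : ZMod p) * b s' - a s' * b s = s' - s := by
      have := congrArg (fun z : ℤ => (z : ZMod p)) (hdt s hs s' hs')
      push_cast at this
      exact this
    have h5 : (x e - x e') * (a s : ZMod p) * a s' = m * (s - s') := by
      have h6 : (x e - r) / m - (b s : ZMod p) / (a s : ZMod p) - X =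
          (x e' - r) / m - (b s' : ZMod p) / (a s' : ZMod p) - X := heq
      have h7 : (x e - x e') / m = (b s : ZMod p) / (a s : ZMod p) -
          (b s' : ZMod p) / (a s' : ZMod p) := by
        have : (x e - x e') / m = (x e - r) / m - (x e' - r) / m := by ring
        rw [this]
        linear_combination h6
      have h8 : (b s : ZMod p) / (a s : ZMod p) - (b s' : ZMod p) / (a s' : ZMod p) =
          (s - s') / ((a s : ZMod p) * a s') := by
        field_simp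
        linear_combination -hD
      rw [h8, div_eq_div_iff hm0 (mul_ne_zero hs0 hs0')] at h7
      linear_combination h7
    by_cases hss : s = s'
    · subst hss
      by_cases hee : e = e'
      · rw [hee]
      · exfalso
        have h9 := hxx e e' hee
        have h10 : (x e - x e') = 0 := by
          have h11 : (x e - x e') * ((a s : ZMod p) * a s) = 0 := by
            rw [← mul_assoc, h5]; ring
          exact (mul_eq_zero.1 h11).resolve_right (mul_ne_zero hs0 hs0)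
        rw [h10] at h9
        have : (1 : ZMod p) = 0 := by linear_combination h9
        exact one_ne_zero this
    · exfalso
      by_cases hee : e = e'
      · subst hee
        have h9 : (m : ZMod p) * (s - s') = 0 := by rw [← h5]; ring
        have h10 := (mul_eq_zero.1 h9).resolve_left hm0
        apply h1 s hs s' hs' hss
        rw [← ZMod.intCast_zmod_eq_zero_iff_dvd]
        push_cast
        exact h10
      · have h9 := hxx e e' hee
        apply h2 s hs s' hs' hss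
        rw [← ZMod.intCast_zmod_eq_zero_iff_dvd]
        push_cast
        have h10 : (m : ZMod p) ^ 2 * (s - s') ^ 2 = (x e - x e') ^ 2 * ((a s : ZMod p) * a s') ^ 2 := by
          rw [← mul_pow, ← h5]; ring
        linear_combination 3 * h10 + ((a s : ZMod p) * a s') ^ 2 * h9

/-- uniform Mertens constants -/
lemma a3_unif (Q : ℕ) : ∃ C : ℝ, 0 < C ∧ ∀ q : ℕ, 1 ≤ q → q ≤ Q → ∀ a : ℤ, IsCoprime a (q : ℤ) →
    ∀ k : ℕ, |∑ l ∈ (PB k).filter (fun l : ℕ => (q : ℤ) ∣ (l : ℤ) - a), (1 : ℝ) / l -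
      Real.log 2 / q.totient| ≤ C / 2 ^ k := by
  induction Q with
  | zero => exact ⟨1, one_pos, fun q h1 h2 => by omega⟩
  | succ Q ih =>
    obtain ⟨C, hC, h⟩ := ih
    classical
    have hex : ∀ a : ZMod (Q + 1), ∃ C' : ℝ, 0 < C' ∧ (IsUnit a → ∀ k : ℕ,
        |∑ l ∈ (PB k).filter (fun l : ℕ => (l : ZMod (Q + 1)) = a), (1 : ℝ) / l -
          Real.log 2 / (Q + 1).totient| ≤ C' / 2 ^ k) := by
      intro a
      by_cases ha : IsUnit a
      · obtain ⟨C', hC', h'⟩ := blkAP (Q + 1) a ha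
        exact ⟨C', hC', fun _ => h'⟩
      · exact ⟨1, one_pos, fun h => absurd h ha⟩
    choose C' hC' h' using hex
    have hsum0 : 0 ≤ ∑ a : ZMod (Q + 1), C' a := sum_nonneg fun a _ => (hC' a).le
    refine ⟨C + ∑ a : ZMod (Q + 1), C' a, by linarith, fun q h1 h2 a ha k => ?_⟩
    have h2k : (0 : ℝ) < 2 ^ k := by positivity
    rcases Nat.lt_or_ge Q q with h3 | h3
    · obtain rfl : q = Q + 1 := by omega
      have hu : IsUnit ((a : ℤ) : ZMod (Q + 1)) := by
        obtain ⟨u, v, huv⟩ := ha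
        refine IsUnit.of_mul_eq_one (u : ZMod (Q + 1)) ?_
        have := congrArg (fun z : ℤ => (z : ZMod (Q + 1))) huv
        push_cast at this
        have h0 : ((Q : ZMod (Q + 1)) + 1) = 0 := by
          have := ZMod.natCast_self (Q + 1)
          push_cast at this
          exact this
        rw [h0, mul_zero, add_zero] at this
        rw [mul_comm]; exact this
      have h4 := h' (a : ZMod (Q + 1)) hu k
      have h5 : (PB k).filter (fun l : ℕ => ((Q + 1 : ℕ) : ℤ) ∣ (l : ℤ) - a) =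
          (PB k).filter (fun l : ℕ => (l : ZMod (Q + 1)) = (a : ZMod (Q + 1))) := by
        refine filter_congr fun l _ => ?_
        rw [← ZMod.intCast_zmod_eq_zero_iff_dvd]
        push_cast
        rw [sub_eq_zero]
      rw [h5]
      refine h4.trans ?_
      gcongr
      have := single_le_sum (f := C') (fun a _ => (hC' a).le) (mem_univ (a : ZMod (Q + 1)))
      linarith
    · refine (h q h1 h3 a ha k).trans ?_
      gcongr
      linarith

/-- number of prime divisors -/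
lemma a3_primes (S : Finset ℕ) (N : ℕ) (hN : 0 < N) (hS : ∀ p ∈ S, p.Prime ∧ p ∣ N) :
    2 ^ S.card ≤ N := by
  have h1 : ∏ p ∈ S, p ∣ N :=
    Finset.prod_primes_dvd N (fun p hp => (hS p hp).1.prime) (fun p hp => (hS p hp).2)
  calc 2 ^ S.card = ∏ _p ∈ S, 2 := by rw [prod_const]
    _ ≤ ∏ p ∈ S, p := prod_le_prod' fun p hp => (hS p hp).1.two_le
    _ ≤ N := Nat.le_of_dvd hN h1

lemma a3_large (K : ℕ) : ∃ n₀, ∀ n ≥ n₀, K * n ≤ 2 ^ (n / 8) := by
  -- `2^x ≥ x^2 / 4`, so for `n / 8 ≥ 64 (K+1)` ...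
  refine ⟨8 * (64 * (K + 1)), fun n hn => ?_⟩
  set x := n / 8 with hx
  have hx1 : 64 * (K + 1) ≤ x := by omega
  have hn1 : n ≤ 8 * x + 7 := by omega
  have h2 : ∀ y : ℕ, y ^ 2 ≤ 4 * 2 ^ y := by
    intro y
    induction y with
    | zero => simp
    | succ y ih =>
      rcases Nat.lt_or_ge y 3 with h | h
      · interval_cases y <;> norm_num
      · have : (y + 1) ^ 2 ≤ 2 * y ^ 2 := by nlinarith
        rw [pow_succ 2 y]
        linarith
  have h3 := h2 x
  have h4 : K * n ≤ K * (16 * x) := Nat.mul_le_mul_left _ (by omega)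
  have h5 : 4 * (K * (16 * x)) ≤ x ^ 2 := by
    have : 64 * K * x ≤ x * x := Nat.mul_le_mul_right _ (by omega)
    nlinarith
  omega

open Classical in
/-- pure Brun sieve, numerical form -/
lemma a3_brun (I : ℕ) (c : ℝ) : ∃ n₀ : ℕ, ∀ n ≥ n₀, ∀ (P : Finset ℕ) (E : ℕ → ℕ → Prop),
    (∀ p ∈ P, p.Prime ∧ 2 < p ∧ 2 * I ≤ p ∧ p ≤ bb (n - n / 8)) →
    (∀ p ∈ P, ∀ j, E p j ↔ E p (j % p ^ 2)) →
    (∀ p ∈ P, ((range (p ^ 2)).filter (E p)).card ≤ p * (2 * I)) →
    (c + 1) * n ≤ ∑ p ∈ P, (((range (p ^ 2)).filter (E p)).card : ℝ) / (p : ℝ) ^ 2 →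
    (((range (bb n)).filter (fun j => ∀ p ∈ P, ¬ E p j)).card : ℝ) ≤
      bb n * Real.exp (-c * n) := by
  obtain ⟨C0, hC0, hb⟩ := Pool.Agent.H66.Gol.blk
  set Lb : ℝ := Real.log 2 + C0 with hLb
  have hLbk : ∀ k : ℕ, ∑ l ∈ PB k, (1 : ℝ) / l ≤ Lb := fun k => by
    have h0 := (abs_le.mp (hb k)).2
    have h1 : (1 : ℝ) ≤ 2 ^ k := one_le_pow₀ (by norm_num)
    have : C0 / 2 ^ k ≤ C0 := div_le_self hC0.le h1
    linarith
  have hLb0 : 0 < Lb := by have := Real.log_pos one_lt_two; linarith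
  obtain ⟨C2, hC2⟩ := exists_nat_ge (4 * I * Lb)
  obtain ⟨c₀, hc₀⟩ := exists_nat_ge c
  obtain ⟨n₁, hn₁⟩ := a3_large (12 * C2 + 2 * c₀ + 2 * I + 2)
  refine ⟨n₁ + 8, fun n hn P E hP hE hg hsum => ?_⟩
  have hK := hn₁ n (by omega)
  set k2 := n - n / 8 with hk2
  set g : ℕ → ℝ := fun p => (((range (p ^ 2)).filter (E p)).card : ℝ) with hgdef
  set R : ℕ := 2 * (C2 * n) with hR
  set L : ℝ := 2 * I * Lb * n with hL
  have hL0 : 0 ≤ L := by positivity
  have hRL : 4 * L ≤ R := by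
    rw [hL, hR]
    push_cast
    have : (4 * (I : ℝ) * Lb) * n ≤ C2 * n := mul_le_mul_of_nonneg_right hC2 (Nat.cast_nonneg n)
    linarith
  have hprime : ∀ p ∈ P, p.Prime := fun p hp => (hP p hp).1
  have hgI : ∀ p ∈ P, g p ≤ p * (2 * I) := by
    intro p hp
    simp only [hgdef]
    exact_mod_cast hg p hp
  have hp0 : ∀ p ∈ P, (0 : ℝ) < p := fun p hp => by exact_mod_cast (hprime p hp).pos
  have hδ : ∀ p ∈ P, 0 ≤ g p / (p : ℝ) ^ 2 ∧ g p / (p : ℝ) ^ 2 ≤ 2 * I * (1 / p) := by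
    intro p hp
    have h1 := hp0 p hp
    have h2 := hgI p hp
    refine ⟨div_nonneg (Nat.cast_nonneg _) (by positivity), ?_⟩
    rw [div_le_iff₀ (by positivity)]
    calc g p ≤ p * (2 * I) := h2
      _ = 2 * I * (1 / p) * (p : ℝ) ^ 2 := by field_simp
  have hδ1 : ∀ p ∈ P, 0 ≤ g p / (p : ℝ) ^ 2 ∧ g p / (p : ℝ) ^ 2 ≤ 1 := by
    intro p hp
    refine ⟨(hδ p hp).1, (hδ p hp).2.trans ?_⟩
    have h1 := hp0 p hp
    rw [mul_one_div, div_le_one h1]
    exact_mod_cast (hP p hp).2.2.1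
  have hsumP : ∑ p ∈ P, (1 : ℝ) / p ≤ n * Lb := by
    have h1 : P ⊆ (range k2).biUnion PB := by
      intro p hp
      obtain ⟨k, hk, hpk⟩ := Pool.Agent.H95.Gol.exists_block (hprime p hp) (hP p hp).2.1
        (hP p hp).2.2.2
      exact mem_biUnion.mpr ⟨k, mem_range.mpr hk, hpk⟩
    calc ∑ p ∈ P, (1 : ℝ) / p ≤ ∑ p ∈ (range k2).biUnion PB, (1 : ℝ) / p :=
          sum_le_sum_of_subset_of_nonneg h1 fun p _ _ => by positivity
      _ = ∑ k ∈ range k2, ∑ p ∈ PB k, (1 : ℝ) / p :=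
          sum_biUnion fun a _ b _ hab => Pool.Agent.H95.Gol.PB_disjoint hab
      _ ≤ ∑ k ∈ range k2, Lb := sum_le_sum fun k _ => hLbk k
      _ = k2 * Lb := by rw [sum_const, card_range, nsmul_eq_mul]
      _ ≤ n * Lb := by
          have : (k2 : ℝ) ≤ n := by exact_mod_cast (by omega : k2 ≤ n)
          exact mul_le_mul_of_nonneg_right this hLb0.le
  have hδL : ∑ p ∈ P, g p / (p : ℝ) ^ 2 ≤ L := by
    calc ∑ p ∈ P, g p / (p : ℝ) ^ 2 ≤ ∑ p ∈ P, 2 * I * (1 / (p : ℝ)) :=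
          sum_le_sum fun p hp => (hδ p hp).2
      _ = 2 * I * ∑ p ∈ P, 1 / (p : ℝ) := by rw [mul_sum]
      _ ≤ 2 * I * (n * Lb) := mul_le_mul_of_nonneg_left hsumP (by positivity)
      _ = L := by rw [hL]; ring
  clear_value L
  have hup := Pool.Agent.H95.Gol.hooley_upper (bb n) P hprime E hE g (fun p _ => rfl)
    (fun _ => P) (fun _ => R) (fun _ => ⟨C2 * n, by rw [hR]; ring⟩) 1 (fun _ _ => Subset.refl P)
    (fun i hi i' hi' hne => absurd (by omega) hne)
  rw [prod_range_one, prod_range_one] at hup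
  -- main term
  have hmain : Pool.Agent.H12.tsum' P (fun p => g p / (p : ℝ) ^ 2) R ≤
      2 * Real.exp (-(c + 1) * n) := by
    have h1 := Pool.Agent.H95.Gol.block_main P (fun p => g p / (p : ℝ) ^ 2) hδ1 R
      ⟨C2 * n, by rw [hR]; ring⟩ L hδL
    have h2 : Real.exp L * (L ^ (R + 1) / ((R + 1).factorial : ℝ)) ≤ 1 := by
      have h3 := Real.pow_div_factorial_le_exp (Real.exp 1 * L) (by positivity) (R + 1)
      have h4 : L ^ (R + 1) / ((R + 1).factorial : ℝ) =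
          (Real.exp 1 * L) ^ (R + 1) / ((R + 1).factorial : ℝ) * Real.exp (-((R : ℝ) + 1)) := by
        have h5 : Real.exp 1 ^ (R + 1) * Real.exp (-((R : ℝ) + 1)) = 1 := by
          rw [← Real.exp_nat_mul, ← Real.exp_add]
          push_cast
          rw [mul_one, add_neg_cancel, Real.exp_zero]
        rw [mul_pow (Real.exp 1) L]
        calc L ^ (R + 1) / ((R + 1).factorial : ℝ) =
            (Real.exp 1 ^ (R + 1) * Real.exp (-((R : ℝ) + 1))) *
              (L ^ (R + 1) / ((R + 1).factorial : ℝ)) := by rw [h5, one_mul]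
          _ = _ := by ring
      rw [h4]
      calc Real.exp L * ((Real.exp 1 * L) ^ (R + 1) / ((R + 1).factorial : ℝ) *
            Real.exp (-((R : ℝ) + 1))) ≤
          Real.exp L * (Real.exp (Real.exp 1 * L) * Real.exp (-((R : ℝ) + 1))) := by gcongr
        _ = Real.exp (L + (Real.exp 1 * L + -((R : ℝ) + 1))) := by
            rw [Real.exp_add, Real.exp_add]
        _ ≤ Real.exp 0 := by
            apply Real.exp_le_exp.mpr
            have h6 : Real.exp 1 ≤ 3 := by have := Real.exp_one_lt_d9; linarith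
            nlinarith
        _ = 1 := Real.exp_zero
    refine h1.trans ?_
    have h7 : Real.exp (-∑ p ∈ P, g p / (p : ℝ) ^ 2) ≤ Real.exp (-(c + 1) * n) := by
      apply Real.exp_le_exp.mpr
      linarith
    calc Real.exp (-∑ p ∈ P, g p / (p : ℝ) ^ 2) *
        (1 + Real.exp L * (L ^ (R + 1) / ((R + 1).factorial : ℝ))) ≤
        Real.exp (-(c + 1) * n) * (1 + 1) := by
          apply mul_le_mul h7 (by linarith) _ (Real.exp_pos _).le
          positivity
      _ = 2 * Real.exp (-(c + 1) * n) := by ring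
  -- error term
  have hbk2 : (2 * I + 1 : ℕ) ≤ bb k2 := by
    have h1 : 2 ^ (n / 8) ≤ bb k2 := by
      unfold bb
      refine Nat.pow_le_pow_right (by norm_num) ?_
      exact (by omega : n / 8 ≤ k2).trans (Nat.lt_two_pow_self).le
    refine le_trans ?_ (hK.trans h1)
    have : 1 ≤ n := by omega
    calc 2 * I + 1 ≤ (12 * C2 + 2 * c₀ + 2 * I + 2) * 1 := by omega
      _ ≤ _ := Nat.mul_le_mul_left _ this
  have hbkr : (2 * (I : ℝ) + 1) ≤ bb k2 := by exact_mod_cast hbk2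
  have herr : Pool.Agent.H95.Gol.Bd P g R ≤ (bb (n - 1) : ℝ) := by
    have h1 : 1 + ∑ p ∈ P, g p ≤ (bb k2 : ℝ) ^ 3 := by
      have h2 : ∑ p ∈ P, g p ≤ ∑ p ∈ P, (bb k2 : ℝ) * (2 * I) := by
        refine sum_le_sum fun p hp => (hgI p hp).trans ?_
        have : (p : ℝ) ≤ bb k2 := by exact_mod_cast (hP p hp).2.2.2
        gcongr
      rw [sum_const, nsmul_eq_mul] at h2
      have h3 : (P.card : ℝ) ≤ bb k2 := by
        have h4 : P ⊆ Ioc 0 (bb k2) := by
          intro p hp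
          rw [mem_Ioc]
          exact ⟨(hprime p hp).pos, (hP p hp).2.2.2⟩
        have := card_le_card h4
        rw [Nat.card_Ioc] at this
        exact_mod_cast this
      have h5 : (1 : ℝ) ≤ bb k2 := by
        have : (0 : ℝ) ≤ I := Nat.cast_nonneg I
        linarith
      have h6 : (P.card : ℝ) * ((bb k2 : ℝ) * (2 * I)) ≤ bb k2 * (bb k2 * (2 * I)) := by gcongr
      have h7 : (bb k2 : ℝ) ^ 2 * (2 * I + 1) ≤ (bb k2 : ℝ) ^ 2 * bb k2 := by gcongr
      have h8 : (1 : ℝ) ≤ (bb k2 : ℝ) ^ 2 := one_le_pow₀ h5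
      nlinarith
    refine (Pool.Agent.H95.Gol.block_err P g (fun p _ => Nat.cast_nonneg _) R _ h1).trans ?_
    rw [← pow_mul]
    unfold bb
    push_cast
    rw [← pow_mul]
    refine pow_le_pow_right₀ (by norm_num) ?_
    have h9 : 2 ^ n = 2 ^ k2 * 2 ^ (n / 8) := by
      rw [← pow_add]; congr 1; omega
    have h10 : 2 ^ n = 2 * 2 ^ (n - 1) := by
      rw [← pow_succ']; congr 1; omega
    have h11 : 12 * (C2 * n) ≤ 2 ^ (n / 8) := by
      refine le_trans ?_ hK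
      have : 12 * (C2 * n) = (12 * C2) * n := by ring
      rw [this]
      exact Nat.mul_le_mul_right _ (by omega)
    have h12 : 2 ^ k2 * (12 * (C2 * n)) ≤ 2 ^ k2 * 2 ^ (n / 8) := Nat.mul_le_mul_left _ h11
    have h13 : 2 ^ k2 * (3 * R) * 2 = 2 ^ k2 * (12 * (C2 * n)) := by rw [hR]; ring
    omega
  have hexp : 2 * Real.exp (c * n) ≤ bb (n - 1) := by
    have h1 : Real.exp (c * n) ≤ (2 : ℝ) ^ (2 * c₀ * n) := by
      calc Real.exp (c * n) ≤ Real.exp ((c₀ * n : ℕ) * 1) := by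
            apply Real.exp_le_exp.mpr
            push_cast
            rw [mul_one]
            exact mul_le_mul_of_nonneg_right hc₀ (Nat.cast_nonneg n)
        _ = Real.exp 1 ^ (c₀ * n) := by rw [Real.exp_nat_mul]
        _ ≤ 4 ^ (c₀ * n) := by
            gcongr
            have := Real.exp_one_lt_d9; linarith
        _ = (2 : ℝ) ^ (2 * c₀ * n) := by
            rw [show (4 : ℝ) = 2 ^ 2 by norm_num, ← pow_mul]
            congr 1; ring
    calc 2 * Real.exp (c * n) ≤ 2 * (2 : ℝ) ^ (2 * c₀ * n) := by gcongr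
      _ = (2 : ℝ) ^ (2 * c₀ * n + 1) := by rw [pow_succ]; ring
      _ ≤ (2 : ℝ) ^ (2 ^ (n - 1)) := by
          refine pow_le_pow_right₀ (by norm_num) ?_
          have h2 : 2 ^ (n / 8) ≤ 2 ^ (n - 1) := Nat.pow_le_pow_right (by norm_num) (by omega)
          refine le_trans ?_ (hK.trans h2)
          have h3 : 1 ≤ n := by omega
          calc 2 * c₀ * n + 1 ≤ 2 * c₀ * n + n := by omega
            _ = (2 * c₀ + 1) * n := by ring
            _ ≤ _ := Nat.mul_le_mul_right _ (by omega)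
      _ = _ := by unfold bb; push_cast; rfl
  have hbb : (bb n : ℝ) = bb (n - 1) * bb (n - 1) := by
    have := Pool.Agent.H95.Gol.bb_succ (n - 1)
    rw [Nat.sub_add_cancel (by omega : 1 ≤ n)] at this
    rw [this]; push_cast; ring
  have hbn0 : (0 : ℝ) ≤ bb (n - 1) := Nat.cast_nonneg _
  have h1 : (bb (n - 1) : ℝ) ≤ bb n * Real.exp (-c * n) / 2 := by
    have h2 : Real.exp (c * n) * Real.exp (-c * n) = 1 := by
      rw [← Real.exp_add]
      rw [show c * (n : ℝ) + -c * n = 0 by ring, Real.exp_zero]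
    have h3 : 2 * Real.exp (c * n) * Real.exp (-c * n) ≤ bb (n - 1) * Real.exp (-c * n) :=
      mul_le_mul_of_nonneg_right hexp (Real.exp_pos _).le
    have h4 : 2 ≤ bb (n - 1) * Real.exp (-c * n) := by
      rw [mul_assoc, h2] at h3; linarith
    rw [hbb]
    nlinarith
  have h2 : 2 * Real.exp (-(c + 1) * n) ≤ Real.exp (-c * n) / 2 := by
    have h3 : Real.exp (-(c + 1) * n) = Real.exp (-c * n) * Real.exp (-(n : ℝ)) := by
      rw [← Real.exp_add]; congr 1; ring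
    have h4 : Real.exp (-(n : ℝ)) ≤ 1 / 4 := by
      rw [Real.exp_neg]
      have h5 : (4 : ℝ) ≤ Real.exp n := by
        have h6 := Real.add_one_le_exp (n : ℝ)
        have h7 : (8 : ℝ) ≤ n := by exact_mod_cast (by omega : 8 ≤ n)
        linarith
      rw [inv_eq_one_div]
      exact one_div_le_one_div_of_le (by norm_num) h5
    rw [h3]
    have := mul_le_mul_of_nonneg_left h4 (Real.exp_pos (-c * n)).le
    linarith
  have h3 : (bb n : ℝ) * Pool.Agent.H12.tsum' P (fun p => g p / (p : ℝ) ^ 2) R ≤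
      bb n * (Real.exp (-c * n) / 2) :=
    mul_le_mul_of_nonneg_left (hmain.trans h2) (Nat.cast_nonneg _)
  calc (((range (bb n)).filter (fun j => ∀ p ∈ P, ¬ E p j)).card : ℝ) ≤ _ := hup
    _ ≤ bb n * (Real.exp (-c * n) / 2) + bb n * Real.exp (-c * n) / 2 :=
        add_le_add h3 (herr.trans h1)
    _ = bb n * Real.exp (-c * n) := by ring

/-- the density of the classes -/
lemma a3_density (m Hd : ℤ) (hm : 0 < m) (hH : 1 ≤ Hd) (c : ℝ) : ∃ I : ℕ, 1 ≤ I ∧
    ∀ h E : ℤ, |h| ≤ Hd → |E| ≤ Hd → E ≠ 0 →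
      c ≤ ∑ s ∈ (Icc (1 : ℤ) I).filter (fun s => h + s * E ≠ 0),
        Real.log 2 / ((3 * m ^ 2 * (h + s * E)).natAbs.totient : ℝ) := by
  have hlog := Real.log_pos one_lt_two
  set M : ℝ := 3 * (m : ℝ) ^ 2 * Hd with hM
  have hm1 : (1 : ℝ) ≤ m := by exact_mod_cast hm
  have hH1 : (1 : ℝ) ≤ Hd := by exact_mod_cast hH
  have hM1 : 1 ≤ M := by
    have : 1 ≤ (m : ℝ) ^ 2 := one_le_pow₀ hm1
    rw [hM]; nlinarith
  have hM0 : 0 < M := by linarith
  have htend := Real.tendsto_sum_range_one_div_nat_succ_atTop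
  obtain ⟨N, hN⟩ := (htend.eventually_ge_atTop (M * c / Real.log 2 + 2)).exists
  refine ⟨N + 1, by omega, fun h E hh hE hE0 => ?_⟩
  have hmono : M * c / Real.log 2 + 2 ≤ ∑ i ∈ range (N + 2), (1 / ((i : ℝ) + 1)) :=
    hN.trans (sum_le_sum_of_subset_of_nonneg (range_subset_range.2 (by omega))
      fun i _ _ => by positivity)
  rw [sum_range_succ'] at hmono
  set f : ℤ → ℝ := fun s => Real.log 2 / (M * (1 + s)) with hf
  have h1 : ∀ s ∈ (Icc (1 : ℤ) (N + 1 : ℕ)).filter (fun s => h + s * E ≠ 0),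
      f s ≤ Real.log 2 / ((3 * m ^ 2 * (h + s * E)).natAbs.totient : ℝ) := by
    intro s hs
    rw [mem_filter, mem_Icc] at hs
    obtain ⟨⟨hs1, hs2⟩, hs3⟩ := hs
    have hq0 : 3 * m ^ 2 * (h + s * E) ≠ 0 := by
      have : m ≠ 0 := by omega
      positivity
    have hφ : 0 < (3 * m ^ 2 * (h + s * E)).natAbs.totient :=
      Nat.totient_pos.2 (Int.natAbs_pos.2 hq0)
    have hφ1 : (0 : ℝ) < ((3 * m ^ 2 * (h + s * E)).natAbs.totient : ℝ) := by exact_mod_cast hφ
    have hle : ((3 * m ^ 2 * (h + s * E)).natAbs : ℤ) ≤ 3 * m ^ 2 * (Hd * (1 + s)) := by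
      rw [Int.natCast_natAbs, abs_mul, abs_of_pos (by positivity : (0 : ℤ) < 3 * m ^ 2)]
      refine mul_le_mul_of_nonneg_left ?_ (by positivity)
      calc |h + s * E| ≤ |h| + |s * E| := abs_add_le _ _
        _ = |h| + s * |E| := by rw [abs_mul, abs_of_pos (by omega : (0 : ℤ) < s)]
        _ ≤ Hd + s * Hd := by gcongr
        _ = Hd * (1 + s) := by ring
    have hle2 : ((3 * m ^ 2 * (h + s * E)).natAbs.totient : ℝ) ≤ M * (1 + s) := by
      have h2 : ((3 * m ^ 2 * (h + s * E)).natAbs.totient : ℤ) ≤ 3 * m ^ 2 * (Hd * (1 + s)) := by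
        refine le_trans ?_ hle
        exact_mod_cast Nat.totient_le _
      have h3 : (((3 * m ^ 2 * (h + s * E)).natAbs.totient : ℤ) : ℝ) ≤
        ((3 * m ^ 2 * (Hd * (1 + s)) : ℤ) : ℝ) := by exact_mod_cast h2
      push_cast at h3
      rw [hM]
      push_cast
      linarith
    simp only [hf]
    exact div_le_div_of_nonneg_left hlog.le hφ1 hle2
  have hf0 : ∀ s ∈ Icc (1 : ℤ) (N + 1 : ℕ), 0 ≤ f s ∧ f s ≤ Real.log 2 / M := by
    intro s hs
    rw [mem_Icc] at hs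
    have : (1 : ℝ) ≤ s := by exact_mod_cast hs.1
    refine ⟨by simp only [hf]; positivity, ?_⟩
    simp only [hf]
    apply div_le_div_of_nonneg_left hlog.le hM0
    nlinarith
  have h2 : ∑ s ∈ (Icc (1 : ℤ) (N + 1 : ℕ)).filter (fun s => ¬ (h + s * E ≠ 0)), f s ≤
      Real.log 2 / M := by
    have hc : ((Icc (1 : ℤ) (N + 1 : ℕ)).filter (fun s => ¬ (h + s * E ≠ 0))).card ≤ 1 := by
      rw [card_le_one]
      intro a ha b hb
      rw [mem_filter, not_not] at ha hb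
      have : (a - b) * E = 0 := by linear_combination ha.2 - hb.2
      have := (mul_eq_zero.1 this).resolve_right hE0
      omega
    calc ∑ s ∈ (Icc (1 : ℤ) (N + 1 : ℕ)).filter (fun s => ¬ (h + s * E ≠ 0)), f s
        ≤ ((Icc (1 : ℤ) (N + 1 : ℕ)).filter (fun s => ¬ (h + s * E ≠ 0))).card •
          (Real.log 2 / M) := sum_le_card_nsmul _ _ _ fun s hs => (hf0 s (mem_filter.1 hs).1).2
      _ ≤ 1 • (Real.log 2 / M) := nsmul_le_nsmul_left (by positivity) hc
      _ = _ := one_nsmul _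
  have h3 : ∑ s ∈ Icc (1 : ℤ) (N + 1 : ℕ), f s =
      Real.log 2 / M * ∑ i ∈ range (N + 1), (1 / (((i + 1 : ℕ) : ℝ) + 1)) := by
    have himg : Icc (1 : ℤ) (N + 1 : ℕ) = (range (N + 1)).image (fun i : ℕ => (i : ℤ) + 1) := by
      ext s
      simp only [mem_Icc, mem_image, mem_range]
      constructor
      · rintro ⟨h4, h5⟩
        exact ⟨(s - 1).toNat, by omega, by omega⟩
      · rintro ⟨i, hi, rfl⟩
        constructor <;> omega
    rw [himg, sum_image (by intro a _ b _ hab; simpa using hab), mul_sum]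
    refine sum_congr rfl fun i _ => ?_
    simp only [hf]
    push_cast
    have : (1 : ℝ) + ((i : ℝ) + 1) ≠ 0 := by positivity
    field_simp
    ring
  have h4 := sum_filter_add_sum_filter_not (Icc (1 : ℤ) (N + 1 : ℕ)) (fun s => h + s * E ≠ 0) f
  have h5 := sum_le_sum h1
  have h6 : Real.log 2 / M * (M * c / Real.log 2 + 1) ≤
      Real.log 2 / M * ∑ i ∈ range (N + 1), (1 / (((i + 1 : ℕ) : ℝ) + 1)) := by
    refine mul_le_mul_of_nonneg_left ?_ (by positivity)
    simp only [CharP.cast_eq_zero, zero_add, div_one] at hmono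
    linarith
  have h7 : Real.log 2 / M * (M * c / Real.log 2 + 1) = c + Real.log 2 / M := by
    field_simp
  linarith

/-- few bad primes -/
lemma a3_bad (m : ℤ) (I t : ℕ) : ∃ n₀ : ℕ, ∀ n ≥ n₀, ∀ (S : Finset ℤ) (a : ℤ → ℤ) (B : Finset ℕ),
    S ⊆ Icc (1 : ℤ) I → (∀ s ∈ S, a s ≠ 0 ∧ |a s| ≤ (1 + I) * bb (n + t)) →
    (∀ p ∈ B, p.Prime ∧ bb (n / 8) < p ∧ ∃ s ∈ S, ∃ s' ∈ S,
      (p : ℤ) ∣ 3 * m ^ 2 * (s - s') ^ 2 + (a s) ^ 2 * (a s') ^ 2) →
    ∑ p ∈ B, 2 * (I : ℝ) / p ≤ 1 := by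
  set U : ℕ := 3 * m.natAbs ^ 2 * I ^ 2 + (1 + I) ^ 4 with hU
  set V : ℕ := 2 * I * ((U + 4) * I ^ 2 * 2 ^ t) with hV
  obtain ⟨n₁, hn₁⟩ := a3_large (V + 1)
  refine ⟨n₁ + 1, fun n hn S a B hS ha hB => ?_⟩
  have hK := hn₁ n (by omega)
  set N : ℕ := ∏ q ∈ S ×ˢ S, (3 * m ^ 2 * (q.1 - q.2) ^ 2 + (a q.1) ^ 2 * (a q.2) ^ 2).natAbs with hN
  have hpos : ∀ q ∈ S ×ˢ S,
      0 < (3 * m ^ 2 * (q.1 - q.2) ^ 2 + (a q.1) ^ 2 * (a q.2) ^ 2).natAbs := by
    intro q hq
    rw [mem_product] at hq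
    rw [Int.natAbs_pos]
    have h1 := (ha _ hq.1).1
    have h2 := (ha _ hq.2).1
    positivity
  have hN0 : 0 < N := prod_pos hpos
  have hdvd : ∀ p ∈ B, p.Prime ∧ p ∣ N := by
    intro p hp
    obtain ⟨h1, -, s, hs, s', hs', h2⟩ := hB p hp
    refine ⟨h1, ?_⟩
    have h3 : p ∣ (3 * m ^ 2 * (s - s') ^ 2 + (a s) ^ 2 * (a s') ^ 2).natAbs :=
      Int.natCast_dvd.1 h2
    exact h3.trans (dvd_prod_of_mem (fun q : ℤ × ℤ =>
      (3 * m ^ 2 * (q.1 - q.2) ^ 2 + (a q.1) ^ 2 * (a q.2) ^ 2).natAbs)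
        (mem_product.2 ⟨hs, hs'⟩ : (s, s') ∈ S ×ˢ S))
  have hcard := a3_primes B N hN0 hdvd
  have hScard : S.card ≤ I := by
    have := card_le_card hS
    simpa using this
  have hfac : ∀ q ∈ S ×ˢ S, (3 * m ^ 2 * (q.1 - q.2) ^ 2 + (a q.1) ^ 2 * (a q.2) ^ 2).natAbs ≤
      U * bb (n + t) ^ 4 := by
    intro q hq
    rw [mem_product] at hq
    have h1 := (ha _ hq.1).2
    have h2 := (ha _ hq.2).2
    have h3 := mem_Icc.1 (hS hq.1)
    have h4 := mem_Icc.1 (hS hq.2)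
    have hb1 : (1 : ℤ) ≤ bb (n + t) := by exact_mod_cast Pool.Agent.H95.Gol.bb_pos (n + t)
    have h5 : (q.1 - q.2) ^ 2 ≤ (I : ℤ) ^ 2 := by
      rw [sq_le_sq, abs_of_nonneg (by omega : (0 : ℤ) ≤ I), abs_le]
      constructor <;> omega
    have h6 : (a q.1) ^ 2 ≤ ((1 + I : ℤ) * bb (n + t)) ^ 2 := by
      rw [sq_le_sq, abs_of_nonneg (by positivity : (0 : ℤ) ≤ (1 + I : ℤ) * bb (n + t))]
      exact h1
    have h7 : (a q.2) ^ 2 ≤ ((1 + I : ℤ) * bb (n + t)) ^ 2 := by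
      rw [sq_le_sq, abs_of_nonneg (by positivity : (0 : ℤ) ≤ (1 + I : ℤ) * bb (n + t))]
      exact h2
    have h8 : 3 * m ^ 2 * (q.1 - q.2) ^ 2 + (a q.1) ^ 2 * (a q.2) ^ 2 ≤
        3 * m ^ 2 * (I : ℤ) ^ 2 + ((1 + I : ℤ) * bb (n + t)) ^ 2 * ((1 + I : ℤ) * bb (n + t)) ^ 2 := by
      gcongr
    have h9 : (1 : ℤ) ≤ (bb (n + t) : ℤ) ^ 4 := one_le_pow₀ hb1
    have h10 : 3 * m ^ 2 * (I : ℤ) ^ 2 ≤ 3 * m ^ 2 * (I : ℤ) ^ 2 * (bb (n + t) : ℤ) ^ 4 :=
      le_mul_of_one_le_right (by positivity) h9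
    have h11 : (((3 * m ^ 2 * (q.1 - q.2) ^ 2 + (a q.1) ^ 2 * (a q.2) ^ 2).natAbs : ℕ) : ℤ) ≤
        ((U * bb (n + t) ^ 4 : ℕ) : ℤ) := by
      rw [Int.natCast_natAbs, abs_of_nonneg (by positivity), hU]
      push_cast
      rw [sq_abs]
      calc _ ≤ _ := h8
        _ ≤ _ := by nlinarith
    exact_mod_cast h11
  have hNle : N ≤ 2 ^ ((U + 4) * I ^ 2 * 2 ^ t * 2 ^ n) := by
    have h1 : U * bb (n + t) ^ 4 ≤ 2 ^ ((U + 4) * 2 ^ (n + t)) := by
      have h2 : U ≤ 2 ^ (U * 2 ^ (n + t)) := by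
        refine (Nat.lt_two_pow_self (n := U)).le.trans (Nat.pow_le_pow_right (by norm_num) ?_)
        exact Nat.le_mul_of_pos_right _ (by positivity)
      have h3 : bb (n + t) ^ 4 = 2 ^ (4 * 2 ^ (n + t)) := by
        unfold bb; rw [← pow_mul]; congr 1; ring
      rw [h3]
      calc U * 2 ^ (4 * 2 ^ (n + t)) ≤ 2 ^ (U * 2 ^ (n + t)) * 2 ^ (4 * 2 ^ (n + t)) :=
            Nat.mul_le_mul_right _ h2
        _ = 2 ^ ((U + 4) * 2 ^ (n + t)) := by rw [← pow_add, ← add_mul]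
    calc N ≤ ∏ _q ∈ S ×ˢ S, 2 ^ ((U + 4) * 2 ^ (n + t)) :=
          prod_le_prod' fun q hq => (hfac q hq).trans h1
      _ = 2 ^ ((U + 4) * 2 ^ (n + t) * (S.card * S.card)) := by
          rw [prod_const, card_product, ← pow_mul]
      _ ≤ 2 ^ ((U + 4) * I ^ 2 * 2 ^ t * 2 ^ n) := by
          refine Nat.pow_le_pow_right (by norm_num) ?_
          calc (U + 4) * 2 ^ (n + t) * (S.card * S.card) ≤ (U + 4) * 2 ^ (n + t) * (I * I) :=
                Nat.mul_le_mul_left _ (Nat.mul_le_mul hScard hScard)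
            _ = _ := by rw [pow_add]; ring
  have hBcard : B.card ≤ (U + 4) * I ^ 2 * 2 ^ t * 2 ^ n :=
    (Nat.pow_le_pow_iff_right (by norm_num)).1 (hcard.trans hNle)
  have hfin : 2 * I * ((U + 4) * I ^ 2 * 2 ^ t * 2 ^ n) ≤ bb (n / 8) := by
    calc 2 * I * ((U + 4) * I ^ 2 * 2 ^ t * 2 ^ n) = V * 2 ^ n := by rw [hV]; ring
      _ ≤ 2 ^ V * 2 ^ n := Nat.mul_le_mul_right _ (Nat.lt_two_pow_self).le
      _ = 2 ^ (V + n) := by rw [pow_add]
      _ ≤ 2 ^ (2 ^ (n / 8)) := by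
          refine Nat.pow_le_pow_right (by norm_num) (le_trans ?_ hK)
          have : 1 ≤ n := by omega
          nlinarith
      _ = bb (n / 8) := rfl
  have hbb0 : (0 : ℝ) < bb (n / 8) := by exact_mod_cast Pool.Agent.H95.Gol.bb_pos (n / 8)
  calc ∑ p ∈ B, 2 * (I : ℝ) / p ≤ ∑ p ∈ B, 2 * (I : ℝ) / bb (n / 8) := by
        refine sum_le_sum fun p hp => ?_
        have : (bb (n / 8) : ℝ) ≤ p := by exact_mod_cast (hB p hp).2.1.le
        exact div_le_div_of_nonneg_left (by positivity) hbb0 this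
    _ = B.card * (2 * (I : ℝ) / bb (n / 8)) := by rw [sum_const, nsmul_eq_mul]
    _ ≤ 1 := by
        rw [← mul_div_assoc, div_le_one hbb0]
        have h1 : B.card * (2 * I) ≤ bb (n / 8) := by
          refine le_trans ?_ hfin
          calc B.card * (2 * I) = 2 * I * B.card := by ring
            _ ≤ _ := Nat.mul_le_mul_left _ hBcard
        exact_mod_cast h1

open Classical in
/-- Number of shifts `bb n + i` for which no third party `w' + s y` has a prime divisor of its norm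
in the prescribed class. -/
theorem sieve_core (m r : ℤ) (hm : 0 < m) (Hd : ℤ) (c : ℝ) (t : ℕ) :
    ∃ (I n₀ : ℕ), ∀ n ≥ n₀, ∀ w' y : ℤ × ℤ, dt w' y = 1 → 3 * m ^ 2 ∣ y.1 →
      |w'.1| ≤ bb (n + t) → |y.1| ≤ bb (n + t) →
      ∀ h E : ℤ, |h| ≤ Hd → |E| ≤ Hd → E ≠ 0 →
      ∀ D : ℤ → ℤ, (∀ s, h + s * E ≠ 0 → IsCoprime (D s) (3 * m ^ 2 * (h + s * E)) ∧
        (3 : ℤ) ∣ D s - 1) →
      (((range (bb n)).filter (fun i : ℕ => ∀ s : ℤ, 1 ≤ s → s ≤ I → h + s * E ≠ 0 →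
        ∀ p : ℕ, p.Prime → ¬ (p : ℤ) ∣ 3 * m → 3 * m ^ 2 * (h + s * E) ∣ (p : ℤ) - D s →
          ¬ (p : ℤ) ∣ G m r (sh ((bb n : ℤ) + i) (tp w' y s)))).card : ℝ) ≤
        bb n * Real.exp (-c * n) := by
  rcases lt_or_ge Hd 1 with hHd | hHd
  · refine ⟨0, 0, fun n _ w' y _ _ _ _ h E _ hE hE0 => ?_⟩
    exfalso
    have : 0 < |E| := abs_pos.2 hE0
    omega
  obtain ⟨I, hI1, hI⟩ := a3_density m Hd hm hHd (c + 2)
  obtain ⟨C, hC0, hC⟩ := a3_unif (3 * m ^ 2 * (Hd + I * Hd)).natAbs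
  obtain ⟨n₁, hn₁⟩ := a3_brun I c
  obtain ⟨n₂, hn₂⟩ := a3_bad m I t
  obtain ⟨n₃, hn₃⟩ := a3_large (3 * m.natAbs + 2 * I + 2)
  obtain ⟨n₄, hn₄⟩ := exists_nat_ge (4 * I * C + 1)
  refine ⟨I, n₁ + n₂ + n₃ + n₄ + 1, fun n hn w' y hdt hy3 hw'1 hy1 h E hh hE hE0 D hD => ?_⟩
  have hlog := Real.log_pos one_lt_two
  set S : Finset ℤ := (Icc (1 : ℤ) I).filter (fun s => h + s * E ≠ 0) with hS
  set a : ℤ → ℤ := fun s => w'.1 + s * y.1 with ha
  set b : ℤ → ℤ := fun s => w'.2 + s * y.2 with hb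
  have hSI : ∀ s ∈ S, 1 ≤ s ∧ s ≤ I ∧ h + s * E ≠ 0 := by
    intro s hs
    rw [hS, mem_filter, mem_Icc] at hs
    exact ⟨hs.1.1, hs.1.2, hs.2⟩
  have hScard : S.card ≤ I := by
    have := card_filter_le (Icc (1 : ℤ) I) (fun s => h + s * E ≠ 0)
    simpa using this
  have hdt' : w'.1 * y.2 - w'.2 * y.1 = 1 := hdt
  have hdts : ∀ s s' : ℤ, a s * b s' - a s' * b s = s' - s := by
    intro s s'
    simp only [ha, hb]
    linear_combination (s' - s) * hdt'
  have ha0 : ∀ s, a s ≠ 0 := by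
    intro s hs
    simp only [ha] at hs
    obtain ⟨u, hu⟩ := hy3
    have h1 : (3 : ℤ) ∣ 1 := by
      refine ⟨-(s * (m ^ 2 * u) * y.2) - w'.2 * (m ^ 2 * u), ?_⟩
      have h2 : w'.1 = -(s * y.1) := by linarith
      rw [h2, hu] at hdt'
      linear_combination -hdt'
    norm_num at h1
  have haB : ∀ s ∈ S, a s ≠ 0 ∧ |a s| ≤ (1 + I) * bb (n + t) := by
    intro s hs
    obtain ⟨h1, h2, -⟩ := hSI s hs
    refine ⟨ha0 s, ?_⟩
    simp only [ha]
    calc |w'.1 + s * y.1| ≤ |w'.1| + |s * y.1| := abs_add_le _ _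
      _ = |w'.1| + s * |y.1| := by rw [abs_mul, abs_of_pos (by omega : (0 : ℤ) < s)]
      _ ≤ bb (n + t) + I * bb (n + t) := by gcongr
      _ = (1 + I) * bb (n + t) := by ring
  have hk1 : 3 * m.natAbs + 2 * I + 2 ≤ bb (n / 8) := by
    have h1 := hn₃ n (by omega)
    have h2 : 3 * m.natAbs + 2 * I + 2 ≤ (3 * m.natAbs + 2 * I + 2) * n :=
      Nat.le_mul_of_pos_right _ (by omega)
    have h3 : 2 ^ (n / 8) ≤ bb (n / 8) := by
      unfold bb
      exact Nat.pow_le_pow_right (by norm_num) (Nat.lt_two_pow_self).le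
    omega
  -- the primes
  set P0 : Finset ℕ := (Ico (n / 8) (n - n / 8)).biUnion PB with hP0
  have hP0mem : ∀ p ∈ P0, p.Prime ∧ bb (n / 8) < p ∧ p ≤ bb (n - n / 8) := by
    intro p hp
    rw [hP0, mem_biUnion] at hp
    obtain ⟨k, hk, hpk⟩ := hp
    rw [mem_Ico] at hk
    rw [Pool.Agent.H95.Gol.mem_PB] at hpk
    exact ⟨hpk.2, (Pool.Agent.H95.Gol.bb_mono hk.1).trans_lt hpk.1.1,
      hpk.1.2.trans (Pool.Agent.H95.Gol.bb_mono (by omega))⟩
  set bad : ℕ → Prop := fun p => ∃ s ∈ S, ∃ s' ∈ S,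
      (p : ℤ) ∣ 3 * m ^ 2 * (s - s') ^ 2 + (a s) ^ 2 * (a s') ^ 2 with hbad
  set P := P0.filter (fun p => ¬ bad p) with hP
  set Sp : ℕ → Finset ℤ := fun p => S.filter (fun s => 3 * m ^ 2 * (h + s * E) ∣ (p : ℤ) - D s)
    with hSp
  obtain ⟨EE, hEE⟩ : ∃ EE : ℕ → ℕ → Prop, ∀ p i, EE p i ↔
      ∃ s ∈ Sp p, (p : ℤ) ∣ G m r (sh ((bb n : ℤ) + i) (a s, b s)) := ⟨_, fun _ _ => Iff.rfl⟩
  have hSpcard : ∀ p, (Sp p).card ≤ I := fun p => (card_filter_le _ _).trans hScard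
  have hcount : ∀ p ∈ P, ((range (p ^ 2)).filter (EE p)).card = p * (2 * (Sp p).card) := by
    intro p hp
    rw [hP, mem_filter] at hp
    obtain ⟨hpr, hp1, hp2⟩ := hP0mem p hp.1
    have hEEf : (range (p ^ 2)).filter (EE p) = (range (p ^ 2)).filter (fun i : ℕ =>
        ∃ s ∈ Sp p, (p : ℤ) ∣ G m r (sh ((bb n : ℤ) + i) (a s, b s))) :=
      filter_congr fun i _ => hEE p i
    rw [hEEf]
    rcases (Sp p).eq_empty_or_nonempty with h0 | ⟨s₀, hs₀⟩
    · have : (range (p ^ 2)).filter (fun i : ℕ =>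
          ∃ s ∈ Sp p, (p : ℤ) ∣ G m r (sh ((bb n : ℤ) + i) (a s, b s))) = ∅ := by
        refine filter_eq_empty_iff.2 fun i _ => ?_
        rintro ⟨s, hs, -⟩
        rw [h0] at hs
        exact absurd hs (notMem_empty _)
      rw [this, h0, card_empty, card_empty, mul_zero, mul_zero]
    · have hp3 : p % 3 = 1 := by
        rw [hSp, mem_filter] at hs₀
        have h1 := (hD s₀ (hSI s₀ hs₀.1).2.2).2
        have h2 : (3 : ℤ) ∣ (p : ℤ) - D s₀ := (Dvd.intro _ (by ring : 3 * (m ^ 2 * (h + s₀ * E)) =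
          3 * m ^ 2 * (h + s₀ * E))).trans hs₀.2
        omega
      have hpm : ¬ (p : ℤ) ∣ m := by
        intro hd
        have := Int.le_of_dvd hm hd
        omega
      convert a3_local hpr hp3 m r (bb n) hpm (Sp p) a b ?_ (fun s _ s' _ => hdts s s') ?_ ?_
      · intro s hs hd
        have hs' : s ∈ S := (mem_filter.1 hs).1
        refine hp.2 ⟨s, hs', s, hs', ?_⟩
        have : 3 * m ^ 2 * (s - s) ^ 2 + (a s) ^ 2 * (a s) ^ 2 = a s * (a s) ^ 3 := by ring
        rw [this]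
        exact Dvd.dvd.mul_right hd _
      · intro s hs s' hs' hne hd
        have h1 := hSI s (mem_filter.1 hs).1
        have h2 := hSI s' (mem_filter.1 hs').1
        have h3 : s - s' ≠ 0 := sub_ne_zero.2 hne
        have h4 := Int.le_of_dvd (abs_pos.2 h3) ((dvd_abs _ _).2 hd)
        have h5 : |s - s'| ≤ I := by rw [abs_le]; constructor <;> omega
        omega
      · intro s hs s' hs' _ hd
        exact hp.2 ⟨s, (mem_filter.1 hs).1, s', (mem_filter.1 hs').1, hd⟩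
  have hper : ∀ p ∈ P, ∀ j, EE p j ↔ EE p (j % p ^ 2) := by
    intro p hp j
    have h2 : (((j % p ^ 2 : ℕ) : ZMod p)) = (j : ZMod p) := by
      have : (j : ZMod p) = ((j % p ^ 2 + p ^ 2 * (j / p ^ 2) : ℕ) : ZMod p) := by
        rw [Nat.mod_add_div]
      rw [this, Nat.cast_add, Nat.cast_mul, Nat.cast_pow, ZMod.natCast_self]
      simp
    have h1 : ∀ s, ((p : ℤ) ∣ G m r (sh ((bb n : ℤ) + j) (a s, b s)) ↔
        (p : ℤ) ∣ G m r (sh ((bb n : ℤ) + ((j % p ^ 2 : ℕ) : ℤ)) (a s, b s))) := by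
      intro s
      rw [← ZMod.intCast_zmod_eq_zero_iff_dvd, ← ZMod.intCast_zmod_eq_zero_iff_dvd]
      generalize (j % p ^ 2) = j' at h2 ⊢
      unfold G sh nmZ
      push_cast
      rw [h2]
    rw [hEE, hEE]
    constructor
    · rintro ⟨s, hs, h2⟩
      exact ⟨s, hs, (h1 s).1 h2⟩
    · rintro ⟨s, hs, h2⟩
      exact ⟨s, hs, (h1 s).2 h2⟩
  -- lower bound for the sum
  have hterm : ∀ p ∈ P, (((range (p ^ 2)).filter (EE p)).card : ℝ) / (p : ℝ) ^ 2 =
      2 * ((Sp p).card : ℝ) / p := by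
    intro p hp
    rw [hcount p hp]
    have hp0 : (0 : ℝ) < p := by
      exact_mod_cast (hP0mem p (mem_filter.1 hp).1).1.pos
    push_cast
    field_simp
  have hsum0 : ∑ p ∈ P0, 2 * ((Sp p).card : ℝ) / p ≥ (c + 2) * n - 4 * I * C := by
    have h1 : ∑ p ∈ P0, 2 * ((Sp p).card : ℝ) / p =
        2 * ∑ s ∈ S, ∑ k ∈ Ico (n / 8) (n - n / 8),
          ∑ l ∈ (PB k).filter (fun l : ℕ => 3 * m ^ 2 * (h + s * E) ∣ (l : ℤ) - D s), (1 : ℝ) / l := by
      have h2 : ∀ p ∈ P0, 2 * ((Sp p).card : ℝ) / p =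
          2 * ∑ s ∈ S, if 3 * m ^ 2 * (h + s * E) ∣ (p : ℤ) - D s then (1 : ℝ) / p else 0 := by
        intro p _
        rw [← sum_filter, sum_const, nsmul_eq_mul]
        ring
      rw [sum_congr rfl h2, ← mul_sum, sum_comm]
      congr 1
      refine sum_congr rfl fun s _ => ?_
      rw [hP0, sum_biUnion fun a _ b _ hab => Pool.Agent.H95.Gol.PB_disjoint hab]
      exact sum_congr rfl fun k _ => by rw [sum_filter]
    have h3 : ∀ s ∈ S, ((n : ℝ) / 2) * (Real.log 2 /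
        ((3 * m ^ 2 * (h + s * E)).natAbs.totient : ℝ)) - 2 * C ≤
        ∑ k ∈ Ico (n / 8) (n - n / 8),
          ∑ l ∈ (PB k).filter (fun l : ℕ => 3 * m ^ 2 * (h + s * E) ∣ (l : ℤ) - D s), (1 : ℝ) / l := by
      intro s hs
      obtain ⟨hs1, hs2, hs3⟩ := hSI s hs
      set q := (3 * m ^ 2 * (h + s * E)).natAbs with hq
      have hq0 : 3 * m ^ 2 * (h + s * E) ≠ 0 := by
        have : m ≠ 0 := by omega
        positivity
      have hq1 : 1 ≤ q := Int.natAbs_pos.2 hq0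
      have hqQ : q ≤ (3 * m ^ 2 * (Hd + I * Hd)).natAbs := by
        have h4 : |3 * m ^ 2 * (h + s * E)| ≤ |3 * m ^ 2 * (Hd + I * Hd)| := by
          rw [abs_mul, abs_of_pos (by positivity : (0 : ℤ) < 3 * m ^ 2)]
          rw [abs_of_nonneg (by positivity : (0 : ℤ) ≤ 3 * m ^ 2 * (Hd + I * Hd))]
          refine mul_le_mul_of_nonneg_left ?_ (by positivity)
          calc |h + s * E| ≤ |h| + |s * E| := abs_add_le _ _
            _ = |h| + s * |E| := by rw [abs_mul, abs_of_pos (by omega : (0 : ℤ) < s)]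
            _ ≤ Hd + I * Hd := by gcongr
        rw [Int.abs_eq_natAbs, Int.abs_eq_natAbs] at h4
        exact_mod_cast h4
      have hcop : IsCoprime (D s) (q : ℤ) := by
        have h4 := (hD s hs3).1
        rcases Int.natAbs_eq (3 * m ^ 2 * (h + s * E)) with h5 | h5
        · rw [hq, ← h5]; exact h4
        · have h6 : (q : ℤ) = -(3 * m ^ 2 * (h + s * E)) := by omega
          rw [h6]; exact h4.neg_right
      have h7 := hC q hq1 hqQ (D s) hcop
      have h8 : ∀ k, Real.log 2 / (q.totient : ℝ) - C * (1 / 2 ^ k) ≤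
          ∑ l ∈ (PB k).filter (fun l : ℕ => 3 * m ^ 2 * (h + s * E) ∣ (l : ℤ) - D s), (1 : ℝ) / l := by
        intro k
        have h9 := (abs_le.mp (h7 k)).1
        have h10 : (PB k).filter (fun l : ℕ => (q : ℤ) ∣ (l : ℤ) - D s) =
            (PB k).filter (fun l : ℕ => 3 * m ^ 2 * (h + s * E) ∣ (l : ℤ) - D s) := by
          refine filter_congr fun l _ => ?_
          rw [hq, Int.natAbs_dvd]
        rw [h10] at h9
        rw [mul_one_div]
        linarith
      calc ((n : ℝ) / 2) * (Real.log 2 / (q.totient : ℝ)) - 2 * C ≤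
            ∑ k ∈ Ico (n / 8) (n - n / 8), (Real.log 2 / (q.totient : ℝ) - C * (1 / 2 ^ k)) := by
            rw [sum_sub_distrib, sum_const, Nat.card_Ico, nsmul_eq_mul, ← mul_sum]
            have h11 := Pool.Agent.H95.Gol.geom_half' (n / 8) (n - n / 8)
            have h12 : (2 : ℝ) / 2 ^ (n / 8) ≤ 2 :=
              div_le_self (by norm_num) (one_le_pow₀ (by norm_num))
            have h13 : (n : ℝ) / 2 ≤ ((n - n / 8 - n / 8 : ℕ) : ℝ) := by
              have : n ≤ 2 * (n - n / 8 - n / 8) := by omega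
              have : (n : ℝ) ≤ 2 * ((n - n / 8 - n / 8 : ℕ) : ℝ) := by exact_mod_cast this
              linarith
            have h14 : 0 ≤ Real.log 2 / (q.totient : ℝ) := by positivity
            have h15 := mul_le_mul_of_nonneg_right h13 h14
            have h16 : C * ∑ k ∈ Ico (n / 8) (n - n / 8), (1 : ℝ) / 2 ^ k ≤ C * 2 :=
              mul_le_mul_of_nonneg_left (h11.trans h12) hC0.le
            linarith
        _ ≤ _ := sum_le_sum fun k _ => h8 k
    rw [h1]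
    have h4 := sum_le_sum h3
    rw [sum_sub_distrib, ← mul_sum, sum_const, nsmul_eq_mul] at h4
    have h5 := hI h E hh hE hE0
    have h6 : ((n : ℝ) / 2) * (c + 2) ≤ ((n : ℝ) / 2) * ∑ s ∈ S, (Real.log 2 /
        ((3 * m ^ 2 * (h + s * E)).natAbs.totient : ℝ)) :=
      mul_le_mul_of_nonneg_left h5 (by positivity)
    have h7 : (S.card : ℝ) * (2 * C) ≤ I * (2 * C) := by
      have : (S.card : ℝ) ≤ I := by exact_mod_cast hScard
      gcongr
    linarith
  have hbadsum : ∑ p ∈ P0.filter bad, 2 * ((Sp p).card : ℝ) / p ≤ 1 := by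
    have h1 := hn₂ n (by omega) S a (P0.filter bad) (filter_subset _ _) haB (by
      intro p hp
      rw [mem_filter] at hp
      obtain ⟨h2, h3, -⟩ := hP0mem p hp.1
      exact ⟨h2, h3, hp.2⟩)
    refine le_trans (sum_le_sum fun p _ => ?_) h1
    have : ((Sp p).card : ℝ) ≤ I := by exact_mod_cast hSpcard p
    gcongr
  have hsumP : (c + 1) * n ≤ ∑ p ∈ P, (((range (p ^ 2)).filter (EE p)).card : ℝ) / (p : ℝ) ^ 2 := by
    rw [sum_congr rfl hterm]
    have h1 := sum_filter_add_sum_filter_not P0 bad (fun p => 2 * ((Sp p).card : ℝ) / p)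
    have h2 : (n₄ : ℝ) ≤ n := by exact_mod_cast (by omega : n₄ ≤ n)
    have h3 : ∑ p ∈ P, 2 * ((Sp p).card : ℝ) / p = ∑ p ∈ P0.filter (fun p => ¬ bad p),
      2 * ((Sp p).card : ℝ) / p := rfl
    rw [h3]
    linarith
  have hfinal := hn₁ n (by omega) P EE (by
    intro p hp
    obtain ⟨h1, h2, h3⟩ := hP0mem p (mem_filter.1 hp).1
    exact ⟨h1, by omega, by omega, h3⟩) hper (by
      intro p hp
      rw [hcount p hp]
      exact Nat.mul_le_mul_left _ (Nat.mul_le_mul_left _ (hSpcard p))) hsumP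
  refine le_trans ?_ hfinal
  refine Nat.cast_le.mpr (card_le_card fun i hi => ?_)
  rw [mem_filter] at hi ⊢
  refine ⟨hi.1, fun p hp => ?_⟩
  rw [hEE]
  rintro ⟨s, hs, hd⟩
  obtain ⟨h1, h2, h3⟩ := hP0mem p (mem_filter.1 hp).1
  rw [hSp, mem_filter] at hs
  obtain ⟨hs1, hs2, hs3⟩ := hSI s hs.1
  refine hi.2 s hs1 hs2 hs3 p h1 ?_ hs.2 hd
  intro hd3
  have := Int.le_of_dvd (by omega) hd3
  omega

end Pool.Agent.H61.AP
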