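import Pool.Agent.H61.AP.A1_Alg
import Pool.Agent.H61.AP.A3s_Core

/-! A3: the pair lemma. -/

set_option autoImplicit false

namespace Pool.Agent.H61.AP

open Finset
open Pool.Agent.H95.Gol (bb PB)
open Pool.Agent.H41.Per (PM nmZ)

variable {g : ℕ → ℤ} {m r ε : ℤ}

/-- The first coordinate of a vector of type `UT` is prime to `3`. -/
theorem UT.not_three {v : ℤ × ℤ} (h : UT m v) : ¬ (3 : ℤ) ∣ v.1 := by
  intro h3
  have h1 : IsCoprime (3 : ℤ) (3 * m * v.2) := IsCoprime.of_isCoprime_of_dvd_left h h3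
  have h2 : IsCoprime (3 : ℤ) 3 := IsCoprime.of_isCoprime_of_dvd_right h1 ⟨m * v.2, by ring⟩
  rw [isCoprime_self] at h2
  exact absurd (Int.isUnit_iff.mp h2) (by norm_num)

/-- The pair lemma under the normalisation `w.1 = w'.1` modulo `3`. -/
theorem pair_aux (hg : PM g) (hm : 0 < m) (H : Hyp g m r ε) {w w' y : ℤ × ℤ} (hw : UT m w)
    (hdt : dt w' y = 1) (hy : 3 * m ^ 2 ∣ y.1) (h3 : (3 : ℤ) ∣ w'.1 - w.1) :
    dt w y ≠ 0 ∧ ∃ D : ℤ → ℤ,
      (∀ s, dt w w' + s * dt w y ≠ 0 → IsCoprime (D s) (3 * m ^ 2 * (dt w w' + s * dt w y)) ∧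
        (3 : ℤ) ∣ D s - 1) ∧
      ∀ j : ℤ, gA g m r (sh j w) ≠ gA g m r (sh j w') →
        ∀ s : ℤ, dt w w' + s * dt w y ≠ 0 →
        ∀ p : ℕ, p.Prime → ¬ (p : ℤ) ∣ 3 * m → 3 * m ^ 2 * (dt w w' + s * dt w y) ∣ (p : ℤ) - D s →
          ¬ (p : ℤ) ∣ G m r (sh j (tp w' y s)) := by
  have hm0 : m ≠ 0 := hm.ne'
  have h3y : (3 : ℤ) ∣ y.1 := (Dvd.intro _ (by ring : 3 * m ^ 2 = 3 * m ^ 2)).trans hy
  have hE : dt w y ≠ 0 := by
    intro h0
    have h1 : (3 : ℤ) ∣ w.1 * y.2 := by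
      have : w.1 * y.2 = w.2 * y.1 := by
        have := h0; simp only [dt] at this; linarith
      rw [this]
      exact h3y.mul_left _
    rcases Int.prime_three.dvd_or_dvd h1 with h2 | h2
    · exact hw.not_three h2
    · have h4 : (3 : ℤ) ∣ 1 := by
        rw [← hdt, dt]
        exact dvd_sub (h2.mul_left _) (h3y.mul_left _)
      exact absurd h4 (by norm_num)
  refine ⟨hE, ?_⟩
  have hdts : ∀ s : ℤ, dt w (tp w' y s) = dt w w' + s * dt w y := by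
    intro s
    simp only [dt, tp]
    ring
  have hlink : ∀ s : ℤ, dt w w' + s * dt w y ≠ 0 → ∃ D : ℤ,
      IsCoprime D (3 * m ^ 2 * (dt w w' + s * dt w y)) ∧ (3 : ℤ) ∣ D - 1 ∧
      ∀ (j : ℤ) (p : ℕ), p.Prime → ¬ (p : ℤ) ∣ 3 * m →
        3 * m ^ 2 * (dt w w' + s * dt w y) ∣ (p : ℤ) - D →
        (p : ℤ) ∣ G m r (sh j (tp w' y s)) → gA g m r (sh j (tp w' y s)) = gA g m r (sh j w) := by
    intro s hs
    have hz := (fan (r := r) hg hm0 H hdt hy s 0).1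
    have h3z : (3 : ℤ) ∣ (tp w' y s).1 - w.1 := by
      have : (tp w' y s).1 - w.1 = (w'.1 - w.1) + s * y.1 := by simp only [tp]; ring
      rw [this]
      exact dvd_add h3 (h3y.mul_left _)
    have := link_class hg hm0 H hw hz h3z (by rw [hdts]; exact hs)
    rwa [hdts] at this
  classical
  refine ⟨fun s => if hs : dt w w' + s * dt w y ≠ 0 then (hlink s hs).choose else 1, ?_, ?_⟩
  · intro s hs
    simp only [dif_pos hs]
    exact ⟨(hlink s hs).choose_spec.1, (hlink s hs).choose_spec.2.1⟩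
  · intro j hj s hs p hp hpm hpD hpG
    simp only [dif_pos hs] at hpD
    have h1 := (hlink s hs).choose_spec.2.2 j p hp hpm hpD hpG
    have h2 := (fan hg hm0 H hdt hy s j).2
    exact hj (h1.symm.trans h2)

theorem pair (hg : PM g) (hm : 0 < m) (H : Hyp g m r ε) (Hd : ℤ) (c : ℝ) (t : ℕ) :
    ∃ n₀ : ℕ, ∀ n ≥ n₀, ∀ w w' y : ℤ × ℤ, UT m w → UT m w' → dt w' y = 1 → 3 * m ^ 2 ∣ y.1 →
      |w'.1| ≤ bb (n + t) → |y.1| ≤ bb (n + t) →
      |dt w w'| ≤ Hd → |dt w y| ≤ Hd →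
      (((range (bb n)).filter (fun i : ℕ => gA g m r (sh ((bb n : ℤ) + i) w) ≠
        gA g m r (sh ((bb n : ℤ) + i) w'))).card : ℝ) ≤ bb n * Real.exp (-c * n) := by
  classical
  obtain ⟨I, n₀, hI⟩ := sieve_core m r hm Hd c t
  refine ⟨n₀, ?_⟩
  -- the normalised case
  have main : ∀ n ≥ n₀, ∀ w w' y : ℤ × ℤ, UT m w → UT m w' → dt w' y = 1 → 3 * m ^ 2 ∣ y.1 →
      |w'.1| ≤ bb (n + t) → |y.1| ≤ bb (n + t) →
      |dt w w'| ≤ Hd → |dt w y| ≤ Hd → (3 : ℤ) ∣ w'.1 - w.1 →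
      (((range (bb n)).filter (fun i : ℕ => gA g m r (sh ((bb n : ℤ) + i) w) ≠
        gA g m r (sh ((bb n : ℤ) + i) w'))).card : ℝ) ≤ bb n * Real.exp (-c * n) := by
    intro n hn w w' y hw hw' hdt hy hw1 hy1 hh hEb h3
    obtain ⟨hE, D, hD, hrel⟩ := pair_aux hg hm H hw hdt hy h3
    refine le_trans ?_ (hI n hn w' y hdt hy hw1 hy1 (dt w w') (dt w y) hh hEb hE D hD)
    norm_cast
    apply Finset.card_le_card
    intro i hi
    rw [Finset.mem_filter] at hi ⊢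
    refine ⟨hi.1, ?_⟩
    intro s _ _ hs p hp hpm hpD
    exact hrel _ hi.2 s hs p hp hpm hpD
  intro n hn w w' y hw hw' hdt hy hw1 hy1 hh hEb
  by_cases h3 : (3 : ℤ) ∣ w'.1 - w.1
  · exact main n hn w w' y hw hw' hdt hy hw1 hy1 hh hEb h3
  · -- change the sign of `w`
    have h3' : (3 : ℤ) ∣ w'.1 - (-w.1) := by
      have a1 := hw.not_three
      have a2 := hw'.not_three
      have b1 : w.1 % 3 = 1 ∨ w.1 % 3 = 2 := by omega
      have b2 : w'.1 % 3 = 1 ∨ w'.1 % 3 = 2 := by omega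
      rcases b1 with b1 | b1 <;> rcases b2 with b2 | b2 <;> omega
    have hneg : UT m ((-w.1, -w.2) : ℤ × ℤ) := by
      have h1 : IsCoprime w.1 (3 * m * w.2) := hw
      have h2 : IsCoprime (-w.1) (-(3 * m * w.2)) := h1.neg_neg
      have h4 : -(3 * m * w.2) = 3 * m * (-w.2) := by ring
      rw [h4] at h2
      exact h2
    have hsh : ∀ j : ℤ, gA g m r (sh j ((-w.1, -w.2) : ℤ × ℤ)) = gA g m r (sh j w) := by
      intro j
      have := gA_neg (g := g) (m := m) (r := r) (sh j w)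
      rw [← this]
      congr 1
      simp only [sh]
      ext
      · rfl
      · ring
    have hd1 : |dt ((-w.1, -w.2) : ℤ × ℤ) w'| ≤ Hd := by
      have : dt ((-w.1, -w.2) : ℤ × ℤ) w' = -dt w w' := by simp only [dt]; ring
      rw [this, abs_neg]; exact hh
    have hd2 : |dt ((-w.1, -w.2) : ℤ × ℤ) y| ≤ Hd := by
      have : dt ((-w.1, -w.2) : ℤ × ℤ) y = -dt w y := by simp only [dt]; ring
      rw [this, abs_neg]; exact hEb
    have := main n hn ((-w.1, -w.2) : ℤ × ℤ) w' y hneg hw' hdt hy hw1 hy1 hd1 hd2 h3'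
    simpa only [hsh] using this

end Pool.Agent.H61.AP
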