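import Pool.Agent.H61.AP.A1_Alg

/-! A4: descent along the Stern-Brocot path. -/

set_option autoImplicit false

namespace Pool.Agent.H61.AP

open Finset
open Pool.Agent.H95.Gol (bb PB)
open Pool.Agent.H41.Per (PM nmZ)

variable {g : ℕ → ℤ} {m r ε : ℤ}

/-- The norm is a quadratic form. -/
theorem G_smul' (m r t : ℤ) (v : ℤ × ℤ) : G m r (t * v.1, t * v.2) = t ^ 2 * G m r v := by
  simp only [G, nmZ]; ring

/-- The norm is positive. -/
theorem G_ne' {v : ℤ × ℤ} (h : v.1 ≠ 0) : G m r v ≠ 0 := by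
  have h1 : 0 < v.1 ^ 2 := by positivity
  have h2 : 4 * G m r v = v.1 ^ 2 + 3 * (v.1 + 2 * (r * v.1 + m * v.2)) ^ 2 := by
    simp only [G, nmZ]; ring
  have h3 : 0 ≤ (v.1 + 2 * (r * v.1 + m * v.2)) ^ 2 := sq_nonneg _
  intro h4
  rw [h4] at h2
  nlinarith

theorem gA_smul' (hg : PM g) {t : ℤ} (ht : t ≠ 0) {v : ℤ × ℤ} (hv : v.1 ≠ 0) :
    gA g m r (t * v.1, t * v.2) = gA g m r v := by
  have h1 : t.natAbs ≠ 0 := Int.natAbs_ne_zero.2 ht
  have h2 : (G m r v).natAbs ≠ 0 := Int.natAbs_ne_zero.2 (G_ne' hv)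
  simp only [gA]
  rw [G_smul', Int.natAbs_mul, Int.natAbs_pow, pow_two, hg.mul _ _ (mul_ne_zero h1 h1) h2,
    hg.mul _ _ h1 h1, hg.sq h1, one_mul]

/-- A small combination with first coordinate prime to `M`. -/
theorem exists_x (M : ℕ) (hM : 0 < M) {a b : ℤ} (hab : IsCoprime a b) :
    ∃ x : ℤ, 1 ≤ x ∧ x ≤ M ∧ IsCoprime (b + x * a) (M : ℤ) := by
  classical
  set s : Finset ℕ := M.primeFactors.filter (fun l => ¬ (l : ℤ) ∣ b) with hs
  have hpr : ∀ l ∈ s, l.Prime := fun l hl => Nat.prime_of_mem_primeFactors (mem_filter.1 hl).1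
  refine ⟨((∏ l ∈ s, l : ℕ) : ℤ), ?_, ?_, ?_⟩
  · have : 1 ≤ ∏ l ∈ s, l := Finset.prod_pos (fun l hl => (hpr l hl).pos)
    exact_mod_cast this
  · have h1 : ∏ l ∈ s, l ∣ ∏ l ∈ M.primeFactors, l := Finset.prod_dvd_prod_of_subset _ _ _
      (filter_subset _ _)
    have h2 : ∏ l ∈ s, l ≤ M := Nat.le_of_dvd hM (h1.trans (Nat.prod_primeFactors_dvd M))
    exact_mod_cast h2
  · rw [Int.isCoprime_iff_gcd_eq_one]
    by_contra hne
    obtain ⟨l, hl, hd⟩ := Nat.exists_prime_and_dvd hne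
    have hd1 : (l : ℤ) ∣ b + ((∏ l ∈ s, l : ℕ) : ℤ) * a :=
      (Int.natCast_dvd_natCast.2 hd).trans (Int.gcd_dvd_left _ _)
    have hd2 : (l : ℤ) ∣ (M : ℤ) := (Int.natCast_dvd_natCast.2 hd).trans (Int.gcd_dvd_right _ _)
    have hlM : l ∣ M := by exact_mod_cast hd2
    have hpl : _root_.Prime (l : ℤ) := Nat.prime_iff_prime_int.1 hl
    by_cases hb : (l : ℤ) ∣ b
    · have h3 : (l : ℤ) ∣ ((∏ l ∈ s, l : ℕ) : ℤ) * a := (dvd_add_right hb).1 hd1
      rcases hpl.dvd_or_dvd h3 with h4 | h4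
      · have h5 : l ∣ ∏ l ∈ s, l := by exact_mod_cast h4
        obtain ⟨q, hq, hlq⟩ := (Nat.Prime.prime hl).exists_mem_finset_dvd h5
        have h6 : l = q := (Nat.prime_dvd_prime_iff_eq hl (hpr q hq)).1 hlq
        exact (mem_filter.1 hq).2 (h6 ▸ hb)
      · exact hpl.not_isUnit (hab.isUnit_of_dvd' h4 hb)
    · have hm : l ∈ s := mem_filter.2 ⟨Nat.mem_primeFactors.2 ⟨hl, hlM, by omega⟩, hb⟩
      have h3 : (l : ℤ) ∣ ((∏ l ∈ s, l : ℕ) : ℤ) * a :=
        Dvd.dvd.mul_right (by exact_mod_cast dvd_prod_of_mem (fun l => l) hm) _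
      exact hb ((dvd_add_left h3).1 hd1)

theorem dt_coprime {L R : ℤ × ℤ} (hd : dt L R = 1) : IsCoprime L.1 R.1 := by
  refine ⟨R.2, -L.2, ?_⟩
  simp only [dt] at hd
  linarith

/-- `UT` from a vector completing to determinant one. -/
theorem UT_of_dt {L v : ℤ × ℤ} (hd : dt L v = 1) (h : IsCoprime v.1 (3 * m)) : UT m v := by
  refine IsCoprime.mul_right h ?_
  refine ⟨-L.2, L.1, ?_⟩
  simp only [dt] at hd
  linarith

/-- If all nodes on the path of `v = α L + β R` are fine and one small combination at the start has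
value `ε`, then `v` has value `ε`. -/
theorem path (hg : PM g) (hm : 0 < m) (H : Hyp g m r ε) (hε : ε = 1 ∨ ε = -1) (B : ℤ)
    (hB : 3 * m + 1 ≤ B) (j : ℤ) (v : ℤ × ℤ) (hv : IsCoprime v.1 (3 * m))
    (hfine : ∀ (L R : ℤ × ℤ) (α β : ℕ), dt L R = 1 → 0 < L.1 → 0 < R.1 → j * L.1 ≤ L.2 →
      R.2 ≤ (j + 1) * R.1 → 1 ≤ α → 1 ≤ β → cmb α β L R = v → Fine g m r B L R)
    (L R : ℤ × ℤ) (α β : ℕ) (hd : dt L R = 1) (hL : 0 < L.1) (hR : 0 < R.1)
    (hj1 : j * L.1 ≤ L.2) (hj2 : R.2 ≤ (j + 1) * R.1) (hα : 1 ≤ α) (hβ : 1 ≤ β)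
    (hc : cmb α β L R = v)
    (hk : ∃ a b : ℤ, |a| ≤ B ∧ |b| ≤ B ∧ UT m (cmb a b L R) ∧ gA g m r (cmb a b L R) = ε) :
    gA g m r v = ε := by
  obtain ⟨N, hN⟩ : ∃ N, N = α + β := ⟨_, rfl⟩
  induction N using Nat.strong_induction_on generalizing L R α β with
  | _ N ih =>
  have hF := hfine L R α β hd hL hR hj1 hj2 hα hβ hc
  have hcop := dt_coprime hd
  have hB0 : 0 ≤ B := by linarith
  -- all small combinations of type UT at this node have value `ε`
  have hall : ∀ a b : ℤ, |a| ≤ B → |b| ≤ B → UT m (cmb a b L R) →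
      gA g m r (cmb a b L R) = ε := by
    intro a b ha hb hu
    obtain ⟨a', b', ha', hb', hu', he'⟩ := hk
    rw [← he']
    exact hF a b a' b' ha hb ha' hb' hu hu'
  -- determinants and slopes
  have hdd : L.1 * R.2 - L.2 * R.1 = 1 := hd
  have hd1 : dt L (cmb 1 1 L R) = 1 := by simp only [dt, cmb]; linarith
  have hd2 : dt (cmb 1 1 L R) R = 1 := by simp only [dt, cmb]; linarith
  have hLR : 0 < (cmb 1 1 L R).1 := by simp only [cmb]; linarith
  have hsL : L.2 < (j + 1) * L.1 := by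
    by_contra h
    push Not at h
    have h1 : (j + 1) * L.1 * R.1 ≤ L.2 * R.1 := mul_le_mul_of_nonneg_right h hR.le
    have h2 : L.1 * R.2 ≤ L.1 * ((j + 1) * R.1) := mul_le_mul_of_nonneg_left hj2 hL.le
    nlinarith
  have hsR : j * R.1 < R.2 := by
    by_contra h
    push Not at h
    have h1 : L.1 * R.2 ≤ L.1 * (j * R.1) := mul_le_mul_of_nonneg_left h hL.le
    have h2 : j * L.1 * R.1 ≤ L.2 * R.1 := mul_le_mul_of_nonneg_right hj1 hR.le
    nlinarith
  have h11 : (cmb 1 1 L R).2 ≤ (j + 1) * (cmb 1 1 L R).1 := by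
    simp only [cmb]; nlinarith
  have h12 : j * (cmb 1 1 L R).1 ≤ (cmb 1 1 L R).2 := by
    simp only [cmb]; nlinarith
  -- the shared combination
  obtain ⟨x, hx1, hx2, hxc⟩ := exists_x (3 * m).toNat (by omega) hcop
  have hm3 : ((3 * m).toNat : ℤ) = 3 * m := Int.toNat_of_nonneg (by omega)
  rw [hm3] at hx2 hxc
  have hzu : UT m (cmb x 1 L R) := by
    apply UT_of_dt (L := L)
    · simp only [dt, cmb]; linarith
    · have : (cmb x 1 L R).1 = R.1 + x * L.1 := by simp only [cmb]; ring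
      rw [this]; exact hxc
  have hze : gA g m r (cmb x 1 L R) = ε :=
    hall x 1 (abs_le.2 ⟨by linarith, by linarith⟩) (abs_le.2 ⟨by linarith, by linarith⟩) hzu
  rcases lt_trichotomy α β with hlt | heq | hgt
  · -- child (L + R, R)
    refine ih (α + (β - α)) (by omega) (cmb 1 1 L R) R α (β - α) hd2 hLR hR h12 hj2 hα
      (by omega) ?_ ?_ rfl
    · rw [← hc]
      push_cast [Nat.cast_sub hlt.le]
      ext <;> simp only [cmb] <;> ring
    · have he : cmb x (1 - x) (cmb 1 1 L R) R = cmb x 1 L R := by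
        ext <;> simp only [cmb] <;> ring
      exact ⟨x, 1 - x, abs_le.2 ⟨by linarith, by linarith⟩, abs_le.2 ⟨by linarith, by linarith⟩,
        he ▸ hzu, he ▸ hze⟩
  · -- end of the path
    subst heq
    have hα0 : (α : ℤ) ≠ 0 := by positivity
    have hv1 : v = ((α : ℤ) * (cmb 1 1 L R).1, (α : ℤ) * (cmb 1 1 L R).2) := by
      rw [← hc]; ext <;> simp only [cmb] <;> ring
    have hu : UT m (cmb 1 1 L R) := by
      apply UT_of_dt hd1
      have h1 : v.1 = (α : ℤ) * (cmb 1 1 L R).1 := by rw [hv1]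
      rw [h1] at hv
      exact hv.of_mul_left_right
    rw [hv1, gA_smul' hg hα0 hLR.ne']
    exact hall 1 1 (abs_le.2 ⟨by linarith, by linarith⟩) (abs_le.2 ⟨by linarith, by linarith⟩) hu
  · -- child (L, L + R)
    refine ih ((α - β) + β) (by omega) L (cmb 1 1 L R) (α - β) β hd1 hL hLR hj1 h11 (by omega)
      hβ ?_ ?_ rfl
    · rw [← hc]
      push_cast [Nat.cast_sub hgt.le]
      ext <;> simp only [cmb] <;> ring
    · have he : cmb (x - 1) 1 L (cmb 1 1 L R) = cmb x 1 L R := by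
        ext <;> simp only [cmb] <;> ring
      exact ⟨x - 1, 1, abs_le.2 ⟨by linarith, by linarith⟩, abs_le.2 ⟨by linarith, by linarith⟩,
        he ▸ hzu, he ▸ hze⟩

/-- Every `v` with `j ≤ v.2/v.1 < j+1` and value different from `ε` lies in the cone of a node which
is not fine. -/
theorem exists_bad (hg : PM g) (hm : 0 < m) (H : Hyp g m r ε) (hε : ε = 1 ∨ ε = -1) (B : ℤ)
    (hB : 3 * m + 1 ≤ B) (j : ℤ) (v : ℤ × ℤ) (hv0 : 0 < v.1) (hv : IsCoprime v.1 (3 * m))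
    (h1 : j * v.1 ≤ v.2) (h2 : v.2 < (j + 1) * v.1) (hne : gA g m r v ≠ ε) :
    ∃ (L R : ℤ × ℤ) (α β : ℕ), dt L R = 1 ∧ 0 < L.1 ∧ 0 < R.1 ∧ j * L.1 ≤ L.2 ∧
      R.2 ≤ (j + 1) * R.1 ∧ 1 ≤ α ∧ 1 ≤ β ∧ cmb α β L R = v ∧ ¬ Fine g m r B L R := by
  have h2' : v.2 < j * v.1 + v.1 := by linarith
  by_contra hcon
  apply hne
  have hfine : ∀ (L R : ℤ × ℤ) (α β : ℕ), dt L R = 1 → 0 < L.1 → 0 < R.1 → j * L.1 ≤ L.2 →
      R.2 ≤ (j + 1) * R.1 → 1 ≤ α → 1 ≤ β → cmb α β L R = v → Fine g m r B L R := by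
    intro L R α β a1 a2 a3 a4 a5 a6 a7 a8
    by_contra hF
    exact hcon ⟨L, R, α, β, a1, a2, a3, a4, a5, a6, a7, a8, hF⟩
  -- the value at `(1, j)`
  have hbase : gA g m r (1, j) = ε := by
    have h := H (r + m * j) (Dvd.intro j (by ring))
    rw [← h]
    simp only [gA, G, nmZ]
    congr 2
    ring
  rcases h1.lt_or_eq with hlt | heq
  · have e1 : (((v.2 - j * v.1).toNat : ℕ) : ℤ) = v.2 - j * v.1 :=
      Int.toNat_of_nonneg (by linarith)
    have e2 : (((v.1 - (v.2 - j * v.1)).toNat : ℕ) : ℤ) = v.1 - (v.2 - j * v.1) :=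
      Int.toNat_of_nonneg (by linarith)
    refine path hg hm H hε B hB j v hv hfine (1, j) (1, j + 1) (v.1 - (v.2 - j * v.1)).toNat
      (v.2 - j * v.1).toNat (by simp only [dt]; ring) one_pos one_pos (by simp) (by simp)
      (by omega) (by omega) ?_ ⟨1, 0, ?_, ?_, ?_, ?_⟩
    · ext
      · simp only [cmb]; rw [e1, e2]; ring
      · simp only [cmb]; rw [e1, e2]; ring
    · exact abs_le.2 ⟨by linarith, by linarith⟩
    · exact abs_le.2 ⟨by linarith, by linarith⟩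
    · simp only [UT, cmb]
      norm_num
      exact isCoprime_one_left
    · have : cmb 1 0 ((1 : ℤ), j) (1, j + 1) = (1, j) := by
        ext <;> simp [cmb]
      rw [this]; exact hbase
  · have hv1 : v = (v.1 * (1, j).1, v.1 * ((1 : ℤ), j).2) := by
      ext
      · simp
      · simp only; rw [← heq]; ring
    rw [hv1, gA_smul' hg hv0.ne' (v := (1, j)) (by simp)]
    exact hbase

end Pool.Agent.H61.AP
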