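import Pool.Agent.H61.AP.A3_Pair
import Pool.Agent.H61.AP.A4_Path

/-! A5: weighted count of the exceptional vectors of the cone. -/

set_option autoImplicit false

namespace Pool.Agent.H61.AP

open Finset
open Pool.Agent.H95.Gol (bb PB)
open Pool.Agent.H41.Per (PM nmZ)

variable {g : ℕ → ℤ} {m r ε : ℤ}

lemma a5_cmb_sh (a b j : ℤ) (L R : ℤ × ℤ) : cmb a b (sh j L) (sh j R) = sh j (cmb a b L R) := by
  simp only [cmb, sh, Prod.mk.injEq, true_and]
  ring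

lemma a5_UT_sh (m j : ℤ) (v : ℤ × ℤ) : UT m (sh j v) ↔ UT m v := by
  unfold UT sh
  have h : 3 * m * (v.2 + j * v.1) = 3 * m * v.2 + v.1 * (3 * m * j) := by ring
  simp only
  rw [h, IsCoprime.add_mul_left_right_iff]

lemma a5_dt_cmb (a b a' b' : ℤ) (L R : ℤ × ℤ) :
    dt (cmb a b L R) (cmb a' b' L R) = (a * b' - b * a') * dt L R := by
  simp only [cmb, dt]
  ring

lemma a5_le_bb (n : ℕ) : n ≤ bb n := Pool.Agent.H95.Gol.bb_strictMono.le_apply

lemma a5_lin {B A a b x y : ℤ} (ha : |a| ≤ B) (hb : |b| ≤ B) (hx : 0 < x) (hy : 0 < y)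
    (hxA : x ≤ A) (hyA : y ≤ A) : |a * x + b * y| ≤ 2 * B * A := by
  have hB : 0 ≤ B := (abs_nonneg _).trans ha
  have h1 : |a * x| ≤ B * A := by
    rw [abs_mul, abs_of_pos hx]
    exact mul_le_mul ha hxA hx.le hB
  have h2 : |b * y| ≤ B * A := by
    rw [abs_mul, abs_of_pos hy]
    exact mul_le_mul hb hyA hy.le hB
  have := abs_add_le (a * x) (b * y)
  linarith

lemma a5_det {B C a b c d : ℤ} (ha : |a| ≤ B) (hb : |b| ≤ B) (hc : |c| ≤ C) (hd : |d| ≤ C) :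
    |a * d - b * c| ≤ 2 * (B * C) := by
  have hB : 0 ≤ B := (abs_nonneg _).trans ha
  have h1 : |a * d| ≤ B * C := by
    rw [abs_mul]; exact mul_le_mul ha hd (abs_nonneg _) hB
  have h2 : |b * c| ≤ B * C := by
    rw [abs_mul]; exact mul_le_mul hb hc (abs_nonneg _) hB
  have := abs_sub (a * d) (b * c)
  linarith

open Classical in
/-- For a node `(L₀,R₀)` (shifted to slopes in `[0,1]`) few shifts are not fine. -/
theorem node_bad (hg : PM g) (hm : 0 < m) (H : Hyp g m r ε) (B : ℤ) (hB : 1 ≤ B) (c : ℝ) (t : ℕ) :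
    ∃ n₀ : ℕ, ∀ n ≥ n₀, ∀ L R : ℤ × ℤ, dt L R = 1 → 0 < L.1 → 0 < R.1 → L.1 ≤ bb (n + t) →
      R.1 ≤ bb (n + t) →
      (((range (bb n)).filter (fun i : ℕ => ¬ Fine g m r B (sh ((bb n : ℤ) + i) L)
        (sh ((bb n : ℤ) + i) R))).card : ℝ) ≤ bb n * Real.exp (-c * n) := by
  obtain ⟨n₁, hn₁⟩ := pair hg hm H (2 * (B * (B * (3 * m ^ 2 + 1)))) (c + 1) (t + 1)
  refine ⟨max n₁ (max ((2 * B + 1) ^ 4).toNat (2 * (B * (3 * m ^ 2 + 1))).toNat),
    fun n hn L R hLR hL hR hLA hRA => ?_⟩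
  have hnn₁ : n₁ ≤ n := (le_max_left _ _).trans hn
  have hnn₂ : ((2 * B + 1) ^ 4).toNat ≤ n := ((le_max_left _ _).trans (le_max_right _ _)).trans hn
  have hnn₃ : (2 * (B * (3 * m ^ 2 + 1))).toNat ≤ n :=
    ((le_max_right _ _).trans (le_max_right _ _)).trans hn
  have hm2 : 0 < m ^ 2 := by positivity
  have hbn : 2 * (B * (3 * m ^ 2 + 1)) ≤ bb (n + t) := by
    have h1 : 2 * (B * (3 * m ^ 2 + 1)) ≤ n := Int.toNat_le.1 hnn₃
    have h2 : (n : ℤ) ≤ bb (n + t) := by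
      have : n ≤ bb (n + t) := (Nat.le_add_right n t).trans (a5_le_bb (n + t))
      exact_mod_cast this
    linarith
  have hbb : ((bb (n + (t + 1)) : ℕ) : ℤ) = (bb (n + t) : ℤ) * bb (n + t) := by
    rw [← add_assoc, Pool.Agent.H95.Gol.bb_succ]
    push_cast
    ring
  have hA0 : (0:ℤ) < bb (n + t) := by exact_mod_cast Pool.Agent.H95.Gol.bb_pos (n + t)
  set I : Finset ℤ := Icc (-B) B with hI
  set Q : Finset ((ℤ × ℤ) × (ℤ × ℤ)) := (I ×ˢ I) ×ˢ (I ×ˢ I) with hQ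
  set T : ((ℤ × ℤ) × (ℤ × ℤ)) → Finset ℕ := fun q =>
    if UT m (cmb q.1.1 q.1.2 L R) ∧ UT m (cmb q.2.1 q.2.2 L R) then
      (range (bb n)).filter (fun i : ℕ =>
        gA g m r (sh ((bb n : ℤ) + i) (cmb q.1.1 q.1.2 L R)) ≠
        gA g m r (sh ((bb n : ℤ) + i) (cmb q.2.1 q.2.2 L R))) else ∅ with hT
  have hsub : (range (bb n)).filter (fun i : ℕ => ¬ Fine g m r B (sh ((bb n : ℤ) + i) L)
        (sh ((bb n : ℤ) + i) R)) ⊆ Q.biUnion T := by
    intro i hi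
    rw [mem_filter] at hi
    obtain ⟨hi1, hi2⟩ := hi
    unfold Fine at hi2
    push Not at hi2
    obtain ⟨a, b, a', b', ha, hb, ha', hb', hU, hU', hne⟩ := hi2
    rw [a5_cmb_sh, a5_UT_sh] at hU hU'
    rw [a5_cmb_sh, a5_cmb_sh] at hne
    rw [mem_biUnion]
    refine ⟨((a, b), (a', b')), ?_, ?_⟩
    · rw [abs_le] at ha hb ha' hb'
      simp only [hQ, hI, mem_product, mem_Icc]
      exact ⟨⟨ha, hb⟩, ⟨ha', hb'⟩⟩
    · simp only [hT]
      rw [if_pos ⟨hU, hU'⟩, mem_filter]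
      exact ⟨hi1, hne⟩
  have hTc : ∀ q ∈ Q, ((T q).card : ℝ) ≤ bb n * Real.exp (-(c + 1) * n) := by
    intro q hq
    simp only [hQ, hI, mem_product, mem_Icc] at hq
    obtain ⟨⟨ha, hb⟩, ⟨ha', hb'⟩⟩ := hq
    rw [← abs_le] at ha hb ha' hb'
    simp only [hT]
    split_ifs with hU
    · obtain ⟨c', d', hc', hd', hdt, hy⟩ := exists_y hm hLR ha' hb' hB hU.2
      refine hn₁ n hnn₁ (cmb q.1.1 q.1.2 L R) (cmb q.2.1 q.2.2 L R) (cmb c' d' L R) hU.1 hU.2 hdt hy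
        ?_ ?_ ?_ ?_
      · refine (a5_lin ha' hb' hL hR hLA hRA).trans ?_
        rw [hbb]
        refine mul_le_mul_of_nonneg_right (le_trans ?_ hbn) hA0.le
        nlinarith
      · refine (a5_lin hc' hd' hL hR hLA hRA).trans ?_
        rw [hbb]
        exact mul_le_mul_of_nonneg_right hbn hA0.le
      · rw [a5_dt_cmb, hLR, mul_one]
        refine (a5_det ha hb ha' hb').trans ?_
        nlinarith [mul_nonneg (by linarith : (0:ℤ) ≤ B) (by linarith : (0:ℤ) ≤ B)]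
      · rw [a5_dt_cmb, hLR, mul_one]
        exact a5_det ha hb hc' hd'
    · simp only [card_empty, Nat.cast_zero]
      positivity
  have hQc : (Q.card : ℝ) ≤ Real.exp n := by
    have h1 : Q.card = ((2 * B + 1).toNat) ^ 4 := by
      have h2 : I.card = (2 * B + 1).toNat := by
        rw [hI, Int.card_Icc]
        congr 1
        ring
      rw [hQ, card_product, card_product, h2]
      ring
    have h3 : ((Q.card : ℕ) : ℤ) = (2 * B + 1) ^ 4 := by
      rw [h1]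
      push_cast
      rw [Int.toNat_of_nonneg (by linarith)]
    have h4 : Q.card ≤ n := by
      rw [← h3] at hnn₂
      simpa using hnn₂
    have h5 : (Q.card : ℝ) ≤ n := by exact_mod_cast h4
    have := Real.add_one_le_exp (n : ℝ)
    linarith
  have hbn0 : (0:ℝ) ≤ bb n := by positivity
  calc (((range (bb n)).filter (fun i : ℕ => ¬ Fine g m r B (sh ((bb n : ℤ) + i) L)
        (sh ((bb n : ℤ) + i) R))).card : ℝ) ≤ ((Q.biUnion T).card : ℝ) := by
        exact_mod_cast card_le_card hsub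
    _ ≤ ∑ q ∈ Q, ((T q).card : ℝ) := by exact_mod_cast card_biUnion_le
    _ ≤ ∑ _q ∈ Q, bb n * Real.exp (-(c + 1) * n) := sum_le_sum hTc
    _ = Q.card * (bb n * Real.exp (-(c + 1) * n)) := by rw [sum_const, nsmul_eq_mul]
    _ ≤ Real.exp n * (bb n * Real.exp (-(c + 1) * n)) :=
        mul_le_mul_of_nonneg_right hQc (by positivity)
    _ = bb n * Real.exp (-c * n) := by
        rw [mul_left_comm, ← Real.exp_add]
        congr 2
        ring

/-- Nodes with slopes in a unit interval are determined by their first coordinates. -/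
lemma a5_unique {J J' : ℤ} {L R L' R' : ℤ × ℤ} (h : dt L R = 1) (h' : dt L' R' = 1)
    (hL : 0 < L.1) (hR : 0 < R.1) (eL : L'.1 = L.1) (eR : R'.1 = R.1)
    (h1 : J * L.1 ≤ L.2) (h2 : R.2 ≤ (J + 1) * R.1)
    (h1' : J' * L'.1 ≤ L'.2) (h2' : R'.2 ≤ (J' + 1) * R'.1) :
    L' = sh (J' - J) L ∧ R' = sh (J' - J) R := by
  obtain ⟨a, x⟩ := L
  obtain ⟨b, y⟩ := R
  obtain ⟨a', x'⟩ := L'
  obtain ⟨b', y'⟩ := R'
  simp only [dt, sh, Prod.mk.injEq] at *
  subst eL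
  subst eR
  have e1 : b' * (x' - J' * a') < b' * a' := by nlinarith
  have e2 : b' * (x - J * a') < b' * a' := by nlinarith
  have f1 : x' - J' * a' < a' := lt_of_mul_lt_mul_left e1 hR.le
  have f2 : x - J * a' < a' := lt_of_mul_lt_mul_left e2 hR.le
  have hco : IsCoprime a' b' := ⟨y, -x, by linarith⟩
  have hdv : a' ∣ b' * ((x' - J' * a') - (x - J * a')) := by
    refine ⟨(y' - J' * b') - (y - J * b'), ?_⟩
    linear_combination h - h'
  have hdv2 : a' ∣ (x' - J' * a') - (x - J * a') := hco.dvd_of_dvd_mul_left hdv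
  have hz : (x' - J' * a') - (x - J * a') = 0 := by
    refine Int.eq_zero_of_abs_lt_dvd hdv2 ?_
    rw [abs_lt]
    constructor <;> linarith
  have hx : x' = x + (J' - J) * a' := by linarith
  refine ⟨⟨rfl, hx⟩, rfl, ?_⟩
  have h3 : a' * (y' - (y + (J' - J) * b')) = 0 := by
    have : a' * y' - x' * b' = a' * y - x * b' := by linarith
    rw [hx] at this
    linear_combination this
  rcases mul_eq_zero.1 h3 with h4 | h4
  · omega
  · linarith

/-- Part A: the exceptional vectors of the cone `X ≤ b/a < 2X`, `X = bb n`, have small weight. -/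
theorem partA (hg : PM g) (hm : 0 < m) (H : Hyp g m r ε) (hε : ε = 1 ∨ ε = -1) (t : ℕ) (η : ℝ)
    (hη : 0 < η) :
    ∃ n₀ : ℕ, ∀ n ≥ n₀, ∀ F : Finset (ℤ × ℤ),
      (∀ v ∈ F, 0 < v.1 ∧ v.1 ≤ bb (n + t) ∧ (bb n : ℤ) * v.1 ≤ v.2 ∧ v.2 < 2 * (bb n : ℤ) * v.1 ∧
        IsCoprime v.1 (3 * m) ∧ gA g m r v ≠ ε) →
      ∑ v ∈ F, 1 / (v.1 : ℝ) ^ 2 ≤ η * bb n := by
  classical
  obtain ⟨n₁, hn₁⟩ := node_bad hg hm H (3 * m + 1) (by linarith) 4 t
  refine ⟨max n₁ ⌈(16:ℝ) ^ (t + 1) / (4 * η)⌉₊, fun n hn F hF => ?_⟩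
  have hnn₁ : n₁ ≤ n := (le_max_left _ _).trans hn
  have hnn₂ : (16:ℝ) ^ (t + 1) / (4 * η) ≤ n := Nat.ceil_le.1 ((le_max_right _ _).trans hn)
  set A : ℕ := bb (n + t) with hA
  set X : ℕ := bb n with hX
  -- nodes
  let Nd : ℕ → ℕ → ℕ → (ℤ × ℤ) → (ℤ × ℤ) → Prop := fun i a b L R =>
    dt L R = 1 ∧ L.1 = a ∧ R.1 = b ∧ ((X : ℤ) + i) * L.1 ≤ L.2 ∧ R.2 ≤ (((X : ℤ) + i) + 1) * R.1 ∧
      ¬ Fine g m r (3 * m + 1) L R
  let Bad : ℕ → ℕ → ℕ → Prop := fun i a b => ∃ L R, Nd i a b L R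
  have hex : ∀ v ∈ F, ∃ u : (ℕ × ℕ) × ((ℕ × ℕ) × ℕ),
      u ∈ (Icc 1 A ×ˢ Icc 1 A) ×ˢ ((Icc 1 A ×ˢ Icc 1 A) ×ˢ range X) ∧
      ∃ L R, Nd u.2.2 u.1.1 u.1.2 L R ∧ cmb u.2.1.1 u.2.1.2 L R = v := by
    intro v hv
    obtain ⟨hv0, hvA, hv1, hv2, hvc, hvne⟩ := hF v hv
    have hj1 : (v.2 / v.1) * v.1 ≤ v.2 := Int.ediv_mul_le _ hv0.ne'
    have hj2 : v.2 < (v.2 / v.1 + 1) * v.1 := by
      have := Int.lt_ediv_add_one_mul_self v.2 hv0
      linarith
    obtain ⟨L, R, α, β, hLR, hL, hR, hLj, hRj, hα, hβ, hcmb, hnf⟩ :=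
      exists_bad hg hm H hε (3 * m + 1) le_rfl (v.2 / v.1) v hv0 hvc hj1 hj2 hvne
    have hjX : (X : ℤ) ≤ v.2 / v.1 := by
      rw [Int.le_ediv_iff_mul_le hv0]
      exact hv1
    have hjX2 : v.2 / v.1 < 2 * X := by
      rw [Int.ediv_lt_iff_lt_mul hv0]
      exact hv2
    obtain ⟨i, hi⟩ := Int.eq_ofNat_of_zero_le (sub_nonneg.2 hjX)
    have hij : v.2 / v.1 = (X : ℤ) + i := by linarith
    obtain ⟨a, ha⟩ := Int.eq_ofNat_of_zero_le hL.le
    obtain ⟨b, hb⟩ := Int.eq_ofNat_of_zero_le hR.le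
    have hsum : (α : ℤ) * L.1 + β * R.1 = v.1 := by rw [← hcmb]; rfl
    have hα' : (1:ℤ) ≤ α := by exact_mod_cast hα
    have hβ' : (1:ℤ) ≤ β := by exact_mod_cast hβ
    have hA' : v.1 ≤ (A : ℤ) := hvA
    refine ⟨((a, b), ((α, β), i)), ?_, L, R, ⟨hLR, ha, hb, ?_, ?_, hnf⟩, hcmb⟩
    · simp only [mem_product, mem_Icc, mem_range]
      have p1 : L.1 ≤ α * L.1 := by nlinarith
      have p2 : R.1 ≤ β * R.1 := by nlinarith
      have p3 : (α : ℤ) ≤ α * L.1 := by nlinarith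
      have p4 : (β : ℤ) ≤ β * R.1 := by nlinarith
      have q1 : (a : ℤ) ≤ A := by linarith
      have q2 : (b : ℤ) ≤ A := by linarith
      have q3 : (α : ℤ) ≤ A := by linarith
      have q4 : (β : ℤ) ≤ A := by linarith
      have q5 : (i : ℤ) < X := by linarith
      refine ⟨⟨⟨by omega, by exact_mod_cast q1⟩, ⟨by omega, by exact_mod_cast q2⟩⟩,
        ⟨⟨hα, by exact_mod_cast q3⟩, ⟨hβ, by exact_mod_cast q4⟩⟩, by exact_mod_cast q5⟩
    · rw [← hij]; exact hLj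
    · rw [← hij]; exact hRj
  choose! φ hφ1 hφ2 using hex
  have hinj : Set.InjOn φ F := by
    intro v hv v' hv' he
    obtain ⟨L, R, ⟨h1, h2, h3, h4, h5, _⟩, h7⟩ := hφ2 v hv
    obtain ⟨L', R', ⟨h1', h2', h3', h4', h5', _⟩, h7'⟩ := hφ2 v' hv'
    have hm1 := hφ1 v hv
    simp only [mem_product, mem_Icc, mem_range] at hm1
    rw [← he] at h2' h3' h4' h5' h7'
    have hL0 : 0 < L.1 := by rw [h2]; exact_mod_cast hm1.1.1.1
    have hR0 : 0 < R.1 := by rw [h3]; exact_mod_cast hm1.1.2.1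
    obtain ⟨e1, e2⟩ := a5_unique h1 h1' hL0 hR0 (h2'.trans h2.symm) (h3'.trans h3.symm) h4 h5 h4' h5'
    have hsh : ∀ w : ℤ × ℤ, sh ((X : ℤ) + (φ v).2.2 - ((X : ℤ) + (φ v).2.2)) w = w := by
      intro w
      simp [sh]
    rw [hsh] at e1 e2
    rw [← h7, ← h7', e1, e2]
  -- number of bad shifts
  have hbad : ∀ a b : ℕ, a ∈ Icc 1 A → b ∈ Icc 1 A →
      (((range X).filter (fun i => Bad i a b)).card : ℝ) ≤ X * Real.exp (-4 * n) := by
    intro a b ha hb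
    rw [mem_Icc] at ha hb
    rcases ((range X).filter (fun i => Bad i a b)).eq_empty_or_nonempty with h0 | h0
    · rw [h0]
      simp only [card_empty, Nat.cast_zero]
      positivity
    · obtain ⟨i₀, hi₀⟩ := h0
      rw [mem_filter] at hi₀
      obtain ⟨-, L, R, h1, h2, h3, h4, h5, h6⟩ := hi₀
      have hL0 : 0 < L.1 := by rw [h2]; exact_mod_cast ha.1
      have hR0 : 0 < R.1 := by rw [h3]; exact_mod_cast hb.1
      have key := hn₁ n hnn₁ (sh (-((X : ℤ) + i₀)) L) (sh (-((X : ℤ) + i₀)) R)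
        (by rw [← h1]; simp only [dt, sh]; ring) hL0 hR0
        (by show L.1 ≤ _; rw [h2]; exact_mod_cast ha.2)
        (by show R.1 ≤ _; rw [h3]; exact_mod_cast hb.2)
      refine le_trans ?_ key
      have hcard : ((range X).filter (fun i => Bad i a b)).card ≤
          ((range (bb n)).filter (fun i : ℕ => ¬ Fine g m r (3 * m + 1)
            (sh ((bb n : ℤ) + i) (sh (-((X : ℤ) + i₀)) L))
            (sh ((bb n : ℤ) + i) (sh (-((X : ℤ) + i₀)) R)))).card := by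
        refine card_le_card fun i hi => ?_
        rw [mem_filter] at hi ⊢
        refine ⟨hi.1, ?_⟩
        obtain ⟨L', R', h1', h2', h3', h4', h5', h6'⟩ := hi.2
        obtain ⟨e1, e2⟩ := a5_unique h1 h1' hL0 hR0 (h2'.trans h2.symm) (h3'.trans h3.symm) h4 h5
          h4' h5'
        have hsh : ∀ w : ℤ × ℤ, sh ((bb n : ℤ) + i) (sh (-((X : ℤ) + i₀)) w) =
            sh (((X : ℤ) + i) - ((X : ℤ) + i₀)) w := by
          intro w
          simp only [sh, Prod.mk.injEq, true_and, hX]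
          ring
        rw [hsh, hsh, ← e1, ← e2]
        exact h6'
      exact_mod_cast hcard
  -- the weights
  let wt : ℕ × ℕ → ℝ := fun p => (1 / (p.1 : ℝ)) * (1 / (p.2 : ℝ))
  have hwt0 : ∀ p, 0 ≤ wt p := fun p => by positivity
  have hv : ∀ v ∈ F, 1 / (v.1 : ℝ) ^ 2 ≤ wt (φ v).1 * wt (φ v).2.1 / 4 := by
    intro v hvF
    obtain ⟨L, R, ⟨h1, h2, h3, h4, h5, _⟩, h7⟩ := hφ2 v hvF
    have hm1 := hφ1 v hvF
    simp only [mem_product, mem_Icc, mem_range] at hm1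
    obtain ⟨⟨⟨ha, _⟩, ⟨hb, _⟩⟩, ⟨⟨hα, _⟩, ⟨hβ, _⟩⟩, _⟩ := hm1
    have hsum : (v.1 : ℝ) = (φ v).2.1.1 * (φ v).1.1 + (φ v).2.1.2 * (φ v).1.2 := by
      have : v.1 = ((φ v).2.1.1 : ℤ) * L.1 + ((φ v).2.1.2 : ℤ) * R.1 := by
        conv_lhs => rw [← h7]
        rfl
      rw [this, h2, h3]
      push_cast
      ring
    have r1 : (0:ℝ) < (φ v).1.1 := by exact_mod_cast ha
    have r2 : (0:ℝ) < (φ v).1.2 := by exact_mod_cast hb
    have r3 : (0:ℝ) < (φ v).2.1.1 := by exact_mod_cast hα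
    have r4 : (0:ℝ) < (φ v).2.1.2 := by exact_mod_cast hβ
    rw [hsum]
    show _ ≤ (1 / ((φ v).1.1 : ℝ)) * (1 / ((φ v).1.2 : ℝ)) *
      ((1 / ((φ v).2.1.1 : ℝ)) * (1 / ((φ v).2.1.2 : ℝ))) / 4
    have e : (1 / ((φ v).1.1 : ℝ)) * (1 / ((φ v).1.2 : ℝ)) *
      ((1 / ((φ v).2.1.1 : ℝ)) * (1 / ((φ v).2.1.2 : ℝ))) / 4 =
      1 / (4 * (((φ v).2.1.1 * (φ v).1.1) * ((φ v).2.1.2 * (φ v).1.2))) := by
      field_simp
    rw [e]
    refine one_div_le_one_div_of_le (by positivity) ?_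
    nlinarith [sq_nonneg (((φ v).2.1.1 : ℝ) * (φ v).1.1 - (φ v).2.1.2 * (φ v).1.2)]
  set P : Finset (ℕ × ℕ) := Icc 1 A ×ˢ Icc 1 A with hP
  have hsumwt : ∑ p ∈ P, wt p = (∑ a ∈ Icc 1 A, 1 / (a : ℝ)) ^ 2 := by
    rw [hP, sq, sum_mul_sum, ← sum_product']
  have hharm : ∑ a ∈ Icc 1 A, 1 / (a : ℝ) ≤ 2 ^ (n + t + 1) := by
    have h := harmonic_le_one_add_log A
    have h2 : ((harmonic A : ℚ) : ℝ) = ∑ a ∈ Icc 1 A, 1 / (a : ℝ) := by
      rw [harmonic_eq_sum_Icc]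
      push_cast
      simp
    rw [← h2]
    refine h.trans ?_
    rw [hA, Pool.Agent.H95.Gol.log_bb, pow_succ]
    have h3 : Real.log 2 ≤ 1 := by
      have := Real.log_two_lt_d9
      linarith
    have h4 : (1:ℝ) ≤ 2 ^ (n + t) := one_le_pow₀ (by norm_num)
    nlinarith
  have hharm0 : 0 ≤ ∑ a ∈ Icc 1 A, 1 / (a : ℝ) := sum_nonneg fun _ _ => by positivity
  have hX0 : (0:ℝ) ≤ X := by positivity
  calc ∑ v ∈ F, 1 / (v.1 : ℝ) ^ 2 ≤ ∑ v ∈ F, wt (φ v).1 * wt (φ v).2.1 / 4 := sum_le_sum hv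
    _ = ∑ u ∈ F.image φ, wt u.1 * wt u.2.1 / 4 := by rw [sum_image hinj]
    _ ≤ ∑ u ∈ (P ×ˢ (P ×ˢ range X)).filter (fun u => Bad u.2.2 u.1.1 u.1.2),
          wt u.1 * wt u.2.1 / 4 := by
        refine sum_le_sum_of_subset_of_nonneg ?_ fun u _ _ => by
          have := mul_nonneg (hwt0 u.1) (hwt0 u.2.1)
          positivity
        intro u hu
        obtain ⟨v, hvF, rfl⟩ := mem_image.1 hu
        rw [mem_filter]
        refine ⟨hφ1 v hvF, ?_⟩
        obtain ⟨L, R, h1, -⟩ := hφ2 v hvF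
        exact ⟨L, R, h1⟩
    _ = ∑ p ∈ P, ∑ q ∈ P, wt p * wt q / 4 * ((range X).filter (fun i => Bad i p.1 p.2)).card := by
        rw [sum_filter, sum_product]
        refine sum_congr rfl fun p _ => ?_
        rw [sum_product]
        refine sum_congr rfl fun q _ => ?_
        rw [← sum_filter]
        show ∑ _i ∈ (range X).filter (fun i => Bad i p.1 p.2), wt p * wt q / 4 = _
        rw [sum_const, nsmul_eq_mul, mul_comm]
    _ ≤ ∑ p ∈ P, ∑ q ∈ P, wt p * wt q / 4 * (X * Real.exp (-4 * n)) := by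
        refine sum_le_sum fun p hp => sum_le_sum fun q _ => ?_
        rw [hP, mem_product] at hp
        refine mul_le_mul_of_nonneg_left (hbad p.1 p.2 hp.1 hp.2) ?_
        have := mul_nonneg (hwt0 p) (hwt0 q)
        positivity
    _ = (∑ a ∈ Icc 1 A, 1 / (a : ℝ)) ^ 4 / 4 * (X * Real.exp (-4 * n)) := by
        have : (∑ a ∈ Icc 1 A, 1 / (a : ℝ)) ^ 4 = (∑ p ∈ P, wt p) * (∑ q ∈ P, wt q) := by
          rw [hsumwt]; ring
        rw [this, sum_mul_sum, sum_div, sum_mul]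
        refine sum_congr rfl fun p _ => ?_
        rw [sum_div, sum_mul]
    _ ≤ ((2:ℝ) ^ (n + t + 1)) ^ 4 / 4 * (X * Real.exp (-4 * n)) := by
        refine mul_le_mul_of_nonneg_right ?_ (by positivity)
        refine div_le_div_of_nonneg_right ?_ (by norm_num)
        exact pow_le_pow_left₀ hharm0 hharm 4
    _ ≤ η * X := by
        have h1 : ((2:ℝ) ^ (n + t + 1)) ^ 4 = 16 ^ (t + 1) * 16 ^ n := by
          rw [← pow_mul, show (n + t + 1) * 4 = 4 * (t + 1) + 4 * n by ring, pow_add, pow_mul, pow_mul]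
          norm_num
        have h2 : (16:ℝ) ^ n ≤ Real.exp (3 * n) := by
          have : (16:ℝ) ≤ Real.exp 3 := by
            have h3 : Real.exp 3 = Real.exp 1 ^ 3 := by rw [← Real.exp_nat_mul]; norm_num
            have h4 := Real.exp_one_gt_d9
            rw [h3]
            have h5 : (2.7:ℝ) ≤ Real.exp 1 := by linarith
            calc (16:ℝ) ≤ 2.7 ^ 3 := by norm_num
              _ ≤ _ := pow_le_pow_left₀ (by norm_num) h5 3
          calc (16:ℝ) ^ n ≤ Real.exp 3 ^ n := pow_le_pow_left₀ (by norm_num) this n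
            _ = _ := by rw [← Real.exp_nat_mul]; ring_nf
        have h3 : (16:ℝ) ^ n * Real.exp (-4 * n) ≤ Real.exp (-(n:ℝ)) := by
          calc (16:ℝ) ^ n * Real.exp (-4 * n) ≤ Real.exp (3 * n) * Real.exp (-4 * n) :=
                mul_le_mul_of_nonneg_right h2 (Real.exp_pos _).le
            _ = _ := by rw [← Real.exp_add]; ring_nf
        have h4 : (16:ℝ) ^ (t + 1) / 4 * Real.exp (-(n:ℝ)) ≤ η := by
          have h5 : (16:ℝ) ^ (t + 1) / 4 ≤ η * Real.exp n := by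
            rw [div_le_iff₀ (by positivity)] at hnn₂
            have h6 := Real.add_one_le_exp (n : ℝ)
            have h7 : η * (n:ℝ) ≤ η * Real.exp n := mul_le_mul_of_nonneg_left (by linarith) hη.le
            linarith
          calc (16:ℝ) ^ (t + 1) / 4 * Real.exp (-(n:ℝ)) ≤ η * Real.exp n * Real.exp (-(n:ℝ)) :=
                mul_le_mul_of_nonneg_right h5 (Real.exp_pos _).le
            _ = η := by rw [mul_assoc, ← Real.exp_add]; simp
        calc ((2:ℝ) ^ (n + t + 1)) ^ 4 / 4 * (X * Real.exp (-4 * n)) =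
              (16:ℝ) ^ (t + 1) / 4 * ((16:ℝ) ^ n * Real.exp (-4 * n)) * X := by rw [h1]; ring
          _ ≤ (16:ℝ) ^ (t + 1) / 4 * Real.exp (-(n:ℝ)) * X := by gcongr
          _ ≤ η * X := mul_le_mul_of_nonneg_right h4 hX0

end Pool.Agent.H61.AP
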