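import Pool.Agent.H61.AP.B8_Spec
import Pool.Agent.H61.AP.B9_Win

/-! B10: selection of a popular set of prime elements. -/

set_option autoImplicit false

namespace Pool.Agent.H61.AP

open Finset
open Pool.Agent.H95.Gol (bb PB)
open Pool.Agent.H41.Per (PM nmZ)

/-- Total mass of a set of elements. -/
noncomputable def V0 (T : Finset (ℤ × ℤ)) : ℝ := ∑ n ∈ T, 1 / (nE n : ℝ)

/-- Fourier coefficients of the normalised measure on the directions. -/
noncomputable def muh (T : Finset (ℤ × ℤ)) (j : ℤ) : ℂ :=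
  ∑ n ∈ T, ((1 / (nE n : ℝ) / V0 T : ℝ) : ℂ) * ch n ^ j

/-- The selected set of prime elements at scale `X = bb n`: `v` blocks of norms above `bb (n+3)`. -/
structure Sel (g : ℕ → ℤ) (m n v J : ℕ) (c₀ c₁ κ₂ : ℝ) (T : Finset (ℤ × ℤ)) (σ : ℤ)
    (u : ZMod m × ZMod m) : Prop where
  sgn : σ = 1 ∨ σ = -1
  prime : ∀ z ∈ T, (nE z).natAbs.Prime
  low : ∀ z ∈ T, (bb (n + 3) : ℤ) < nE z
  up : ∀ z ∈ T, nE z ≤ bb (n + 3 + v)
  mod3 : ∀ z ∈ T, nE z % 3 = 1
  inj : ∀ z ∈ T, ∀ z' ∈ T, nE z = nE z' → z = z'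
  cls : ∀ z ∈ T, red m z = u
  unit : IsUnit (u.1 ^ 2 + u.1 * u.2 + u.2 ^ 2)
  val : ∀ z ∈ T, gE g z = σ
  mass : c₀ * v ≤ V0 T
  mass_le : V0 T ≤ v
  gap : ∀ j : ℤ, j ≠ 0 → |j| ≤ J → ‖muh T j‖ ≤ 1 - c₁
  l2 : ∑ j ∈ Ioo (-(J : ℤ)) J, ‖muh T j‖ ^ 2 ≤ κ₂

/-- The two directions of a pair in the closed sector: slopes against arguments. -/
theorem sel_slope {z w : ℤ × ℤ} (hz : z ≠ 0) (hw : w ≠ 0) (hz1 : 0 ≤ z.2) (hz2 : z.2 ≤ z.1)
    (hw1 : 0 ≤ w.2) (hw2 : w.2 ≤ w.1) :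
    |(w.2 : ℝ) / w.1 - (z.2 : ℝ) / z.1| ≤
      4 * |Complex.arg (toC w) - Complex.arg (toC z)| := by
  have hzp : (0 : ℝ) < z.1 := by
    have : 0 < z.1 := by
      rcases lt_or_eq_of_le (hz1.trans hz2) with h | h
      · exact h
      · exfalso; apply hz
        have h2 : z.2 = 0 := by omega
        exact Prod.ext h.symm h2
    exact_mod_cast this
  have hwp : (0 : ℝ) < w.1 := by
    have : 0 < w.1 := by
      rcases lt_or_eq_of_le (hw1.trans hw2) with h | h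
      · exact h
      · exfalso; apply hw
        have h2 : w.2 = 0 := by omega
        exact Prod.ext h.symm h2
    exact_mod_cast this
  have hz1' : (0 : ℝ) ≤ z.2 := by exact_mod_cast hz1
  have hz2' : (z.2 : ℝ) ≤ z.1 := by exact_mod_cast hz2
  have hw1' : (0 : ℝ) ≤ w.2 := by exact_mod_cast hw1
  have hw2' : (w.2 : ℝ) ≤ w.1 := by exact_mod_cast hw2
  have hN : (0 : ℝ) < nE z := by exact_mod_cast nE_pos hz
  have hN' : (0 : ℝ) < nE w := by exact_mod_cast nE_pos hw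
  have hNz : (nE z : ℝ) ≤ 3 * (z.1 : ℝ) ^ 2 := by
    unfold nE; push_cast; nlinarith
  have hNw : (nE w : ℝ) ≤ 3 * (w.1 : ℝ) ^ 2 := by
    unfold nE; push_cast; nlinarith
  set a := Complex.arg (toC z)
  set b := Complex.arg (toC w)
  have hchd : ‖ch w - ch z‖ ≤ 2 * |b - a| := by
    rw [ch_arg hz, ch_arg hw]
    have e : Complex.exp (((2 * b : ℝ) : ℂ) * Complex.I) - Complex.exp (((2 * a : ℝ) : ℂ) * Complex.I)
        = Complex.exp (((2 * a : ℝ) : ℂ) * Complex.I) *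
          (Complex.exp (Complex.I * ((2 * b - 2 * a : ℝ) : ℂ)) - 1) := by
      rw [mul_sub, mul_one, ← Complex.exp_add]
      congr 2
      push_cast; ring
    rw [e, norm_mul, Complex.norm_exp_ofReal_mul_I, one_mul]
    refine (Real.norm_exp_I_mul_ofReal_sub_one_le).trans ?_
    rw [Real.norm_eq_abs, ← mul_sub, abs_mul, abs_two]
  have hd := dist_ch hw hz
  have h1 : ((w.2 : ℝ) / w.1 - (z.2 : ℝ) / z.1) ^ 2 ≤ 3 * ‖ch w - ch z‖ ^ 2 := by
    rw [hd]
    have e : ((w.2 : ℝ) / w.1 - (z.2 : ℝ) / z.1) ^ 2 =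
        ((w.1 * z.2 - w.2 * z.1 : ℤ) : ℝ) ^ 2 / ((w.1 : ℝ) ^ 2 * (z.1 : ℝ) ^ 2) := by
      push_cast
      field_simp
      ring
    rw [e, mul_div_assoc', div_le_div_iff₀ (by positivity) (by positivity)]
    have h2 : (nE w : ℝ) * nE z ≤ (3 * (w.1 : ℝ) ^ 2) * (3 * (z.1 : ℝ) ^ 2) :=
      mul_le_mul hNw hNz hN.le (by positivity)
    nlinarith [mul_le_mul_of_nonneg_left h2 (sq_nonneg ((w.1 * z.2 - w.2 * z.1 : ℤ) : ℝ))]
  have h3 : ‖ch w - ch z‖ ^ 2 ≤ (2 * |b - a|) ^ 2 := pow_le_pow_left₀ (norm_nonneg _) hchd 2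
  refine abs_le_of_sq_le_sq ?_ (by positivity)
  nlinarith [sq_nonneg (|b - a|)]

open Classical in
/-- Mass of a window in the argument, over finitely many blocks. -/
theorem sel_window : ∃ (κ₁ : ℝ) (k₀ : ℕ), 0 < κ₁ ∧ ∀ (N v : ℕ), k₀ ≤ N → ∀ T : Finset (ℤ × ℤ),
    (∀ z ∈ T, 0 ≤ z.2 ∧ z.2 ≤ z.1 ∧ (nE z).natAbs.Prime ∧
      ∃ k ∈ Ico N (N + v), (bb k : ℤ) < nE z ∧ nE z ≤ bb (k + 1)) →
    ∀ s δ : ℝ, 0 < δ → 4 * δ ≤ 1 → 1 ≤ (4 * δ) ^ 4 * bb N →
    ∑ z ∈ T.filter (fun z => s ≤ Complex.arg (toC z) ∧ Complex.arg (toC z) ≤ s + δ),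
      1 / (nE z : ℝ) ≤ v * (κ₁ * (4 * δ)) := by
  obtain ⟨κ₁, k₀, hκ, hw⟩ := windows
  refine ⟨κ₁, k₀, hκ, fun N v hN T hT s δ hδ hδ1 hδ4 => ?_⟩
  set T' := T.filter (fun z => s ≤ Complex.arg (toC z) ∧ Complex.arg (toC z) ≤ s + δ) with hT'
  rcases T'.eq_empty_or_nonempty with h0 | hne
  · rw [h0, sum_empty]; positivity
  have hnz : ∀ z ∈ T, z ≠ 0 := by
    intro z hz h
    have := (hT z hz).2.2.1
    rw [h] at this
    simp [nE] at this
    exact Nat.not_prime_zero this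
  obtain ⟨z₀, hz₀, hmin⟩ := exists_min_image T' (fun z => (z.2 : ℝ) / z.1) hne
  have hz₀T := (mem_filter.1 hz₀).1
  have hsl : ∀ z ∈ T', (z₀.2 : ℝ) / z₀.1 * z.1 ≤ z.2 ∧
      (z.2 : ℝ) ≤ ((z₀.2 : ℝ) / z₀.1 + 4 * δ) * z.1 := by
    intro z hz
    have hzT := (mem_filter.1 hz).1
    have hzp : (0 : ℝ) < z.1 := by
      have h1 := (hT z hzT).1
      have h2 := (hT z hzT).2.1
      have : 0 < z.1 := by
        rcases lt_or_eq_of_le (h1.trans h2) with h | h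
        · exact h
        · exfalso; apply hnz z hzT
          have h2 : z.2 = 0 := by omega
          exact Prod.ext h.symm h2
      exact_mod_cast this
    have h1 := hmin z hz
    have h2 := sel_slope (hnz z₀ hz₀T) (hnz z hzT) (hT z₀ hz₀T).1 (hT z₀ hz₀T).2.1 (hT z hzT).1
      (hT z hzT).2.1
    have h3 : |Complex.arg (toC z) - Complex.arg (toC z₀)| ≤ δ := by
      have a1 := (mem_filter.1 hz).2
      have a2 := (mem_filter.1 hz₀).2
      rw [abs_le]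
      constructor <;> linarith [a1.1, a1.2, a2.1, a2.2]
    have h4 := (le_abs_self _).trans h2
    constructor
    · rw [← le_div_iff₀ hzp]; exact h1
    · rw [← div_le_iff₀ hzp]; linarith
  have hcov : T' = (Ico N (N + v)).biUnion
      (fun k => T'.filter (fun z => (bb k : ℤ) < nE z ∧ nE z ≤ bb (k + 1))) := by
    ext z
    simp only [mem_biUnion, mem_filter]
    constructor
    · intro hz
      obtain ⟨k, hk, h1, h2⟩ := (hT z (mem_filter.1 hz).1).2.2.2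
      exact ⟨k, hk, hz, h1, h2⟩
    · rintro ⟨k, _, hz, _⟩
      exact hz
  rw [hcov, sum_biUnion]
  · have hc : ((Ico N (N + v)).card : ℝ) = v := by simp
    rw [← hc, ← nsmul_eq_mul, ← sum_const]
    refine sum_le_sum fun k hk => ?_
    have hkN : N ≤ k := (mem_Ico.1 hk).1
    refine hw k (hN.trans hkN) ((z₀.2 : ℝ) / z₀.1) (4 * δ) (by positivity) hδ1 ?_ _ ?_
    · refine hδ4.trans (mul_le_mul_of_nonneg_left ?_ (by positivity))
      exact_mod_cast Pool.Agent.H95.Gol.bb_mono hkN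
    · intro z hz
      have h1 := mem_filter.1 hz
      have h2 := hT z (mem_filter.1 h1.1).1
      exact ⟨h2.1, h2.2.1, h2.2.2.1, h1.2.1, h1.2.2, (hsl z h1.1).1, (hsl z h1.1).2⟩
  · intro k _ k' _ hkk
    rw [Function.onFun, disjoint_left]
    intro z hz hz'
    have h1 := (mem_filter.1 hz).2
    have h2 := (mem_filter.1 hz').2
    rcases lt_or_gt_of_ne hkk with h | h
    · have : bb (k + 1) ≤ bb k' := Pool.Agent.H95.Gol.bb_mono h
      have : (bb (k + 1) : ℤ) ≤ bb k' := by exact_mod_cast this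
      linarith [h1.2, h2.1]
    · have : bb (k' + 1) ≤ bb k := Pool.Agent.H95.Gol.bb_mono h
      have : (bb (k' + 1) : ℤ) ≤ bb k := by exact_mod_cast this
      linarith [h2.2, h1.1]

theorem sel_bb_gt (n : ℕ) : n < bb n := by
  unfold bb
  exact (Nat.lt_two_pow_self).trans (Nat.pow_lt_pow_right (by norm_num) Nat.lt_two_pow_self)

theorem sel_bb3 (n : ℕ) : bb (n + 3) = bb n ^ 8 := by
  rw [Pool.Agent.H95.Gol.bb_succ, Pool.Agent.H95.Gol.bb_succ, Pool.Agent.H95.Gol.bb_succ]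
  ring

theorem exists_sel (m : ℕ) (hm : 0 < m) : ∃ c₀ c₁ κ₂ : ℝ, 0 < c₀ ∧ 0 < c₁ ∧ c₁ ≤ 1 ∧ 0 < κ₂ ∧
    ∀ v H : ℕ, 1 ≤ v → 1 ≤ H → ∃ n₀ : ℕ, ∀ n ≥ n₀, ∀ g : ℕ → ℤ, PM g →
      ∃ (T : Finset (ℤ × ℤ)) (σ : ℤ) (u : ZMod m × ZMod m),
        Sel g m n v (H * bb n) c₀ c₁ κ₂ T σ u := by
  classical
  have : NeZero m := ⟨hm.ne'⟩
  obtain ⟨κ₁, k₀, hκ₁, hwin⟩ := sel_window
  obtain ⟨C, hC, hbl⟩ := blkAP 3 1 isUnit_one
  have ht3 : (Nat.totient 3 : ℝ) = 2 := by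
    have : Nat.totient 3 = 2 := by decide
    rw [this]; norm_num
  rw [ht3] at hbl
  set c₀ : ℝ := 1 / (8 * (m : ℝ) ^ 2) with hc₀
  have hmR : (0 : ℝ) < m := by exact_mod_cast hm
  have hc₀p : 0 < c₀ := by positivity
  set Km : ℝ := 4 + 4 * κ₁ / c₀ with hKm
  have hKm1 : 1 ≤ Km := by
    have : 0 ≤ 4 * κ₁ / c₀ := by positivity
    rw [hKm]; linarith
  obtain ⟨c₁, L, hc₁, hc₁1, hL, hgap⟩ := spec_gap Km hKm1
  obtain ⟨κ₂, hκ₂, hl2⟩ := spec_l2 Km hKm1
  refine ⟨c₀, c₁, κ₂, hc₀p, hc₁, hc₁1, hκ₂, fun v H hv hH => ?_⟩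
  -- representatives
  have hrep : ∀ p : ℕ, ∃ z : ℤ × ℤ, (p.Prime ∧ p % 3 = 1) → 0 ≤ z.2 ∧ z.2 ≤ z.1 ∧ nE z = p := by
    intro p
    by_cases h : p.Prime ∧ p % 3 = 1
    · obtain ⟨z, hz⟩ := exists_rep h.1 h.2
      exact ⟨z, fun _ => hz⟩
    · exact ⟨0, fun h' => absurd h' h⟩
  choose rep hrep using hrep
  refine ⟨max k₀ (max (⌈C * 12⌉₊ + 1) (max m (L * H))), fun n hn g hg => ?_⟩
  have hn1 : k₀ ≤ n := (le_max_left _ _).trans hn
  have hn2 : ⌈C * 12⌉₊ + 1 ≤ n := (le_max_left _ _).trans ((le_max_right _ _).trans hn)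
  have hn3 : m ≤ n := (le_max_left _ _).trans ((le_max_right _ _).trans ((le_max_right _ _).trans hn))
  have hn4 : L * H ≤ n :=
    (le_max_right _ _).trans ((le_max_right _ _).trans ((le_max_right _ _).trans hn))
  -- one block
  have hblk : ∀ k, n ≤ k → 1 / 4 ≤ ∑ l ∈ (PB k).filter (fun l : ℕ => (l : ZMod 3) = 1), (1 : ℝ) / l ∧
      ∑ l ∈ (PB k).filter (fun l : ℕ => (l : ZMod 3) = 1), (1 : ℝ) / l ≤ 1 := by
    intro k hk
    have h1 := hbl k
    have h2 : C / 2 ^ k ≤ 1 / 12 := by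
      have h3 : C * 12 ≤ n := (Nat.le_ceil _).trans (by exact_mod_cast (by omega : ⌈C * 12⌉₊ ≤ n))
      have h4 : (n : ℝ) ≤ 2 ^ k := by
        have : n ≤ 2 ^ k := hk.trans (Nat.lt_two_pow_self).le
        exact_mod_cast this
      rw [div_le_div_iff₀ (by positivity) (by norm_num)]
      linarith
    have h5 := Real.log_two_gt_d9
    have h6 := Real.log_two_lt_d9
    rw [abs_le] at h1
    constructor
    · linarith [h1.1]
    · linarith [h1.2]
  set P : Finset ℕ := (Ico (n + 3) (n + 3 + v)).biUnion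
    (fun k => (PB k).filter (fun l : ℕ => (l : ZMod 3) = 1)) with hP
  have hPmem : ∀ p, p ∈ P ↔ ∃ k ∈ Ico (n + 3) (n + 3 + v), (bb k < p ∧ p ≤ bb (k + 1)) ∧ p.Prime ∧
      p % 3 = 1 := by
    intro p
    simp only [hP, mem_biUnion, mem_filter, Pool.Agent.H95.Gol.mem_PB]
    have e : ((p : ZMod 3) = 1) ↔ p % 3 = 1 := by
      have := ZMod.natCast_eq_natCast_iff' p 1 3
      simpa using this
    constructor
    · rintro ⟨k, hk, ⟨h1, h2⟩, h3⟩
      exact ⟨k, hk, h1, h2, e.1 h3⟩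
    · rintro ⟨k, hk, h1, h2, h3⟩
      exact ⟨k, hk, ⟨h1, h2⟩, e.2 h3⟩
  have hPsum : ∑ p ∈ P, (1 : ℝ) / p = ∑ k ∈ Ico (n + 3) (n + 3 + v),
      ∑ l ∈ (PB k).filter (fun l : ℕ => (l : ZMod 3) = 1), (1 : ℝ) / l := by
    rw [hP, sum_biUnion]
    intro k _ k' _ hkk
    rw [Function.onFun, disjoint_left]
    intro z hz hz'
    have h1 := (Pool.Agent.H95.Gol.mem_PB.1 (mem_filter.1 hz).1).1
    have h2 := (Pool.Agent.H95.Gol.mem_PB.1 (mem_filter.1 hz').1).1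
    rcases lt_or_gt_of_ne hkk with h | h
    · have : bb (k + 1) ≤ bb k' := Pool.Agent.H95.Gol.bb_mono h
      omega
    · have : bb (k' + 1) ≤ bb k := Pool.Agent.H95.Gol.bb_mono h
      omega
  have hPlow : (v : ℝ) / 4 ≤ ∑ p ∈ P, (1 : ℝ) / p := by
    rw [hPsum]
    have h1 : ∑ k ∈ Ico (n + 3) (n + 3 + v), (1 / 4 : ℝ) ≤ ∑ k ∈ Ico (n + 3) (n + 3 + v),
        ∑ l ∈ (PB k).filter (fun l : ℕ => (l : ZMod 3) = 1), (1 : ℝ) / l := by
      refine sum_le_sum fun k hk => (hblk k ?_).1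
      have := (mem_Ico.1 hk).1; omega
    rw [sum_const, Nat.card_Ico, nsmul_eq_mul] at h1
    have e : n + 3 + v - (n + 3) = v := by omega
    rw [e] at h1
    linarith
  have hPup : ∑ p ∈ P, (1 : ℝ) / p ≤ v := by
    rw [hPsum]
    have h1 : ∑ k ∈ Ico (n + 3) (n + 3 + v),
        ∑ l ∈ (PB k).filter (fun l : ℕ => (l : ZMod 3) = 1), (1 : ℝ) / l ≤
        ∑ k ∈ Ico (n + 3) (n + 3 + v), (1 : ℝ) := by
      refine sum_le_sum fun k hk => (hblk k ?_).2
      have := (mem_Ico.1 hk).1; omega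
    rw [sum_const, Nat.card_Ico, nsmul_eq_mul] at h1
    have e : n + 3 + v - (n + 3) = v := by omega
    rw [e] at h1
    linarith
  have hPp : ∀ p ∈ P, 0 ≤ (rep p).2 ∧ (rep p).2 ≤ (rep p).1 ∧ nE (rep p) = p := by
    intro p hp
    obtain ⟨k, _, _, h1⟩ := (hPmem p).1 hp
    exact hrep p h1
  set TT : Finset (ℤ × ℤ) := P.image rep with hTT
  have hinj : ∀ p ∈ P, ∀ q ∈ P, rep p = rep q → p = q := by
    intro p hp q hq h
    have h1 := (hPp p hp).2.2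
    have h2 := (hPp q hq).2.2
    rw [h, h2] at h1
    exact_mod_cast h1.symm
  have hTTsum : ∑ z ∈ TT, 1 / (nE z : ℝ) = ∑ p ∈ P, (1 : ℝ) / p := by
    rw [hTT, sum_image hinj]
    refine sum_congr rfl fun p hp => ?_
    rw [(hPp p hp).2.2]
    push_cast; rfl
  have hTTprop : ∀ z ∈ TT, 0 ≤ z.2 ∧ z.2 ≤ z.1 ∧ (nE z).natAbs.Prime ∧ nE z % 3 = 1 ∧
      ∃ k ∈ Ico (n + 3) (n + 3 + v), (bb k : ℤ) < nE z ∧ nE z ≤ bb (k + 1) := by
    intro z hz
    obtain ⟨p, hp, rfl⟩ := mem_image.1 hz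
    obtain ⟨k, hk, h1, h2, h3⟩ := (hPmem p).1 hp
    obtain ⟨r1, r2, r3⟩ := hPp p hp
    refine ⟨r1, r2, ?_, ?_, k, hk, ?_, ?_⟩
    · rw [r3]; simpa using h2
    · rw [r3]; omega
    · rw [r3]; exact_mod_cast h1.1
    · rw [r3]; exact_mod_cast h1.2
  have hTTinj : ∀ z ∈ TT, ∀ z' ∈ TT, nE z = nE z' → z = z' := by
    intro z hz z' hz' h
    obtain ⟨p, hp, rfl⟩ := mem_image.1 hz
    obtain ⟨q, hq, rfl⟩ := mem_image.1 hz'
    rw [(hPp p hp).2.2, (hPp q hq).2.2] at h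
    have : p = q := by exact_mod_cast h
    rw [this]
  have hne0 : ∀ z ∈ TT, z ≠ 0 := by
    intro z hz h
    have := (hTTprop z hz).2.2.1
    rw [h] at this
    simp [nE] at this
    exact Nat.not_prime_zero this
  -- pigeonhole
  set I : Finset ((ZMod m × ZMod m) × ℤ) := univ ×ˢ ({1, -1} : Finset ℤ) with hI
  have hIcard : I.card = m * m * 2 := by
    rw [hI, card_product, card_univ, Fintype.card_prod, ZMod.card]
    rfl
  have hgv : ∀ z ∈ TT, gE g z = 1 ∨ gE g z = -1 := by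
    intro z hz
    apply hg.val
    exact (hTTprop z hz).2.2.1.ne_zero
  have hmaps : ∀ z ∈ TT, (red m z, gE g z) ∈ I := by
    intro z hz
    rw [hI, mem_product]
    refine ⟨mem_univ _, ?_⟩
    rcases hgv z hz with h | h <;> simp [h]
  have hInon : I.Nonempty := ⟨((0, 0), 1), by simp [hI]⟩
  have hpig : I.card • (c₀ * v) ≤ ∑ z ∈ TT, 1 / (nE z : ℝ) := by
    rw [hTTsum, nsmul_eq_mul, hIcard]
    refine le_trans (le_of_eq ?_) hPlow
    rw [hc₀]; push_cast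
    field_simp
    ring
  obtain ⟨⟨u, σ⟩, hmemI, hbig⟩ := exists_le_sum_fiber_of_maps_to_of_nsmul_le_sum hmaps hInon hpig
  set T := TT.filter (fun z => (red m z, gE g z) = (u, σ)) with hT
  have hTsub : ∀ z ∈ T, z ∈ TT := fun z hz => (mem_filter.1 hz).1
  have hV0 : c₀ * v ≤ V0 T := hbig
  have hvR : (1 : ℝ) ≤ v := by exact_mod_cast hv
  have hV0pos : 0 < V0 T := lt_of_lt_of_le (by positivity) hV0
  have hTne : T.Nonempty := by
    by_contra h
    rw [not_nonempty_iff_eq_empty] at h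
    rw [V0, h, sum_empty] at hV0pos
    exact lt_irrefl _ hV0pos
  have hpos : ∀ z ∈ T, (0 : ℝ) < nE z := fun z hz => by
    exact_mod_cast nE_pos (hne0 z (hTsub z hz))
  -- window condition
  have hwc : ∀ s δ : ℝ, 1 / (L * (H * bb n : ℕ) : ℝ) ≤ δ →
      ∑ z ∈ T.filter (fun z => s ≤ Complex.arg (toC z) ∧ Complex.arg (toC z) ≤ s + δ),
        1 / (nE z : ℝ) / V0 T ≤ Km * δ := by
    intro s δ hδ
    have hLH : (0 : ℝ) < L * (H * bb n : ℕ) := by
      have h1 : 0 < L * (H * bb n) := Nat.mul_pos hL (Nat.mul_pos hH (Pool.Agent.H95.Gol.bb_pos n))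
      exact_mod_cast h1
    have hδ0 : 0 < δ := lt_of_lt_of_le (by positivity) hδ
    rw [← sum_div, div_le_iff₀ hV0pos]
    by_cases hδ1 : 4 * δ ≤ 1
    · have h1 := hwin (n + 3) v (by omega) T (fun z hz => by
        have := hTTprop z (hTsub z hz)
        exact ⟨this.1, this.2.1, this.2.2.1, this.2.2.2.2⟩) s δ hδ0 hδ1 (by
          have h2 : (1 : ℝ) ≤ δ * (L * (H * bb n : ℕ)) := by
            rwa [div_le_iff₀ hLH] at hδ
          have h3 : (L * (H * bb n : ℕ) : ℝ) ≤ (bb n : ℝ) ^ 2 := by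
            have : L * (H * bb n) ≤ bb n ^ 2 := by
              rw [← mul_assoc, pow_two]
              exact Nat.mul_le_mul_right _ (hn4.trans (sel_bb_gt n).le)
            exact_mod_cast this
          have h4 : (1 : ℝ) ≤ δ * (bb n : ℝ) ^ 2 :=
            h2.trans (mul_le_mul_of_nonneg_left h3 hδ0.le)
          have h5 : (1 : ℝ) ≤ (δ * (bb n : ℝ) ^ 2) ^ 4 := one_le_pow₀ h4
          rw [sel_bb3]
          push_cast
          have e : (4 * δ) ^ 4 * (bb n : ℝ) ^ 8 = 256 * (δ * (bb n : ℝ) ^ 2) ^ 4 := by ring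
          rw [e]; linarith)
      refine h1.trans ?_
      have e : Km * δ * V0 T = 4 * δ * V0 T + 4 * κ₁ / c₀ * δ * V0 T := by rw [hKm]; ring
      rw [e]
      have h6 : (v : ℝ) * (κ₁ * (4 * δ)) = 4 * κ₁ / c₀ * δ * (c₀ * v) := by
        field_simp
      rw [h6]
      have h7 : 4 * κ₁ / c₀ * δ * (c₀ * v) ≤ 4 * κ₁ / c₀ * δ * V0 T :=
        mul_le_mul_of_nonneg_left hV0 (by positivity)
      have h8 : 0 ≤ 4 * δ * V0 T := by positivity
      linarith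
    · rw [not_le] at hδ1
      have h1 : ∑ z ∈ T.filter (fun z => s ≤ Complex.arg (toC z) ∧ Complex.arg (toC z) ≤ s + δ),
          1 / (nE z : ℝ) ≤ V0 T := by
        refine sum_le_sum_of_subset_of_nonneg (filter_subset _ _) fun z hz _ => ?_
        have := hpos z hz
        positivity
      refine h1.trans ?_
      have h2 : 1 ≤ Km * δ := by
        have h3 : 4 * δ ≤ Km * δ := by
          refine mul_le_mul_of_nonneg_right ?_ hδ0.le
          have : 0 ≤ 4 * κ₁ / c₀ := by positivity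
          rw [hKm]; linarith
        linarith
      nlinarith [hV0pos]
  have hJ1 : 1 ≤ H * bb n := Nat.mul_pos hH (Pool.Agent.H95.Gol.bb_pos n)
  have hμ0 : ∀ z ∈ T, 0 ≤ 1 / (nE z : ℝ) / V0 T := fun z hz => by
    have := hpos z hz
    positivity
  have hμ1 : ∑ z ∈ T, 1 / (nE z : ℝ) / V0 T = 1 := by
    rw [← sum_div]; exact div_self hV0pos.ne'
  have harg : ∀ z ∈ T, 0 ≤ Complex.arg (toC z) ∧ Complex.arg (toC z) ≤ Real.pi / 6 := fun z hz =>
    arg_sector (hTTprop z (hTsub z hz)).1 (hTTprop z (hTsub z hz)).2.1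
  have hmuh : ∀ j : ℤ, muh T j = ∑ z ∈ T, ((1 / (nE z : ℝ) / V0 T : ℝ) : ℂ) *
      Complex.exp (((2 * Complex.arg (toC z) : ℝ) : ℂ) * Complex.I) ^ j := by
    intro j
    unfold muh
    refine sum_congr rfl fun z hz => ?_
    rw [ch_arg (hne0 z (hTsub z hz))]
  have hnbig : m < bb (n + 3) := by
    have h1 := sel_bb_gt (n + 3)
    omega
  refine ⟨T, σ, u, ?_⟩
  have hσ : σ = 1 ∨ σ = -1 := by
    rw [hI, mem_product] at hmemI
    simpa using hmemI.2
  refine ⟨hσ, fun z hz => (hTTprop z (hTsub z hz)).2.2.1, fun z hz => ?_, fun z hz => ?_,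
    fun z hz => (hTTprop z (hTsub z hz)).2.2.2.1, fun z hz z' hz' h =>
      hTTinj z (hTsub z hz) z' (hTsub z' hz') h, fun z hz => ?_, ?_, fun z hz => ?_, hV0, ?_, ?_, ?_⟩
  · obtain ⟨k, hk, h1, h2⟩ := (hTTprop z (hTsub z hz)).2.2.2.2
    have : bb (n + 3) ≤ bb k := Pool.Agent.H95.Gol.bb_mono (mem_Ico.1 hk).1
    have : (bb (n + 3) : ℤ) ≤ bb k := by exact_mod_cast this
    linarith
  · obtain ⟨k, hk, h1, h2⟩ := (hTTprop z (hTsub z hz)).2.2.2.2
    have : bb (k + 1) ≤ bb (n + 3 + v) := Pool.Agent.H95.Gol.bb_mono (by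
      have := (mem_Ico.1 hk).2; omega)
    have : (bb (k + 1) : ℤ) ≤ bb (n + 3 + v) := by exact_mod_cast this
    linarith
  · have := (mem_filter.1 hz).2
    exact (Prod.ext_iff.1 this).1
  · obtain ⟨z, hz⟩ := hTne
    have h1 : red m z = u := (Prod.ext_iff.1 (mem_filter.1 hz).2).1
    rw [← h1]
    have e : (red m z).1 ^ 2 + (red m z).1 * (red m z).2 + (red m z).2 ^ 2 =
        ((nE z : ℤ) : ZMod m) := by
      unfold red nE; push_cast; rfl
    rw [e]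
    have hp := (hTTprop z (hTsub z hz)).2.2.1
    have hlow : (m : ℤ) < nE z := by
      obtain ⟨k, hk, h2, h3⟩ := (hTTprop z (hTsub z hz)).2.2.2.2
      have : bb (n + 3) ≤ bb k := Pool.Agent.H95.Gol.bb_mono (mem_Ico.1 hk).1
      have : (bb (n + 3) : ℤ) ≤ bb k := by exact_mod_cast this
      have : (m : ℤ) < bb (n + 3) := by exact_mod_cast hnbig
      linarith
    have hnn : nE z = ((nE z).natAbs : ℤ) := by
      have : 0 ≤ nE z := by have : (0 : ℤ) ≤ m := by positivity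
                            linarith
      omega
    rw [hnn]
    have hcop : Nat.Coprime (nE z).natAbs m := by
      rw [hp.coprime_iff_not_dvd]
      intro hd
      have := Nat.le_of_dvd hm hd
      omega
    have := (ZMod.unitOfCoprime _ hcop).isUnit
    rw [ZMod.coe_unitOfCoprime] at this
    rw [Int.cast_natCast]
    exact this
  · have := (mem_filter.1 hz).2
    exact (Prod.ext_iff.1 this).2
  · refine le_trans ?_ (hTTsum.le.trans hPup)
    refine sum_le_sum_of_subset_of_nonneg (filter_subset _ _) fun z hz _ => ?_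
    have : (0 : ℝ) < nE z := by exact_mod_cast nE_pos (hne0 z hz)
    positivity
  · intro j hj0 hj
    rw [hmuh]
    exact hgap (ℤ × ℤ) T (fun z => 1 / (nE z : ℝ) / V0 T) (fun z => Complex.arg (toC z)) (H * bb n)
      hJ1 hμ0 hμ1 harg hwc j hj0 hj
  · have hl := hl2 (ℤ × ℤ) T (fun z => 1 / (nE z : ℝ) / V0 T) (fun z => Complex.arg (toC z))
      (H * bb n) hJ1 hμ0 hμ1 harg (fun s δ hδ => hwc s δ (le_trans ?_ hδ))
    · refine le_trans (le_of_eq ?_) hl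
      refine sum_congr rfl fun j _ => ?_
      rw [hmuh]
    · have h1 : (1 : ℝ) ≤ L := by exact_mod_cast hL
      have h2 : (0 : ℝ) < (H * bb n : ℕ) := by exact_mod_cast hJ1
      apply one_div_le_one_div_of_le h2
      nlinarith

end Pool.Agent.H61.AP
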