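import Pool.Agent.H61.AP.B2_FE

/-! B5: kernels. -/

set_option autoImplicit false

namespace Pool.Agent.H61.AP

open Finset
open Pool.Agent.H95.Gol (bb PB)

/-- Autocorrelation. -/
noncomputable def ac (a : ℕ → ℝ) (K : ℕ) (j : ℤ) : ℝ :=
  ∑ k ∈ range K, ∑ l ∈ range K, if (k : ℤ) - l = j then a k * a l else 0

theorem Ker_nonneg (a : ℕ → ℝ) (K : ℕ) (ζ : ℂ) : 0 ≤ Ker a K ζ := by
  unfold Ker
  positivity

theorem Ker_le (a : ℕ → ℝ) (K : ℕ) {ζ : ℂ} (h : ‖ζ‖ ≤ 1) :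
    Ker a K ζ ≤ (∑ k ∈ range K, |a k|) ^ 2 := by
  unfold Ker
  have h1 : ‖∑ k ∈ range K, (a k : ℂ) * ζ ^ k‖ ≤ ∑ k ∈ range K, |a k| := by
    refine (norm_sum_le _ _).trans (Finset.sum_le_sum fun k _ => ?_)
    rw [norm_mul, norm_pow, Complex.norm_real, Real.norm_eq_abs]
    calc |a k| * ‖ζ‖ ^ k ≤ |a k| * 1 :=
          mul_le_mul_of_nonneg_left (pow_le_one₀ (norm_nonneg _) h) (abs_nonneg _)
      _ = |a k| := mul_one _
  exact pow_le_pow_left₀ (norm_nonneg _) h1 2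

theorem Ker_expand (a : ℕ → ℝ) (K : ℕ) {ζ : ℂ} (h : ‖ζ‖ = 1) :
    (Ker a K ζ : ℂ) = ∑ j ∈ Ioo (-(K : ℤ)) K, (ac a K j : ℂ) * ζ ^ j := by
  have hζ : ζ ≠ 0 := by
    intro h0
    rw [h0, norm_zero] at h
    exact zero_ne_one h
  have hconj : (starRingEnd ℂ) ζ = ζ⁻¹ := by
    rw [Complex.inv_def, Complex.normSq_eq_norm_sq, h]
    simp
  have h1 : (Ker a K ζ : ℂ) = ∑ k ∈ range K, ∑ l ∈ range K,
      ((a k * a l : ℝ) : ℂ) * ζ ^ ((k : ℤ) - l) := by
    unfold Ker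
    rw [← Complex.normSq_eq_norm_sq, Complex.normSq_eq_conj_mul_self, mul_comm, map_sum,
      Finset.sum_mul_sum]
    refine Finset.sum_congr rfl fun k _ => Finset.sum_congr rfl fun l _ => ?_
    rw [map_mul, map_pow, hconj, Complex.conj_ofReal, zpow_sub₀ hζ, zpow_natCast, zpow_natCast]
    push_cast
    rw [inv_pow]
    field_simp
  rw [h1]
  have h2 : ∀ j ∈ Ioo (-(K : ℤ)) K, (ac a K j : ℂ) * ζ ^ j =
      ∑ k ∈ range K, ∑ l ∈ range K, if (k : ℤ) - l = j then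
        ((a k * a l : ℝ) : ℂ) * ζ ^ ((k : ℤ) - l) else 0 := by
    intro j _
    unfold ac
    push_cast
    rw [Finset.sum_mul]
    refine Finset.sum_congr rfl fun k _ => ?_
    rw [Finset.sum_mul]
    refine Finset.sum_congr rfl fun l _ => ?_
    split_ifs with hj
    · rw [hj]
      push_cast
      ring
    · simp
  rw [Finset.sum_congr rfl h2]
  symm
  rw [Finset.sum_comm]
  refine Finset.sum_congr rfl fun k hk => ?_
  rw [Finset.sum_comm]
  refine Finset.sum_congr rfl fun l hl => ?_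
  rw [Finset.sum_ite_eq]
  rw [if_pos]
  rw [Finset.mem_Ioo]
  have := Finset.mem_range.1 hk
  have := Finset.mem_range.1 hl
  constructor <;> omega

theorem ac_zero (a : ℕ → ℝ) (K : ℕ) : ac a K 0 = ∑ k ∈ range K, a k ^ 2 := by
  unfold ac
  refine Finset.sum_congr rfl fun k hk => ?_
  rw [Finset.sum_eq_single_of_mem k hk]
  · rw [if_pos (by ring)]
    ring
  · intro l _ hlk
    rw [if_neg]
    intro h0
    apply hlk
    omega

theorem ac_sum (a : ℕ → ℝ) (K : ℕ) :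
    ∑ j ∈ Ioo (-(K : ℤ)) K, |ac a K j| ≤ (∑ k ∈ range K, |a k|) ^ 2 := by
  have h1 : ∀ j ∈ Ioo (-(K : ℤ)) K, |ac a K j| ≤
      ∑ k ∈ range K, ∑ l ∈ range K, if (k : ℤ) - l = j then |a k| * |a l| else 0 := by
    intro j _
    unfold ac
    refine (Finset.abs_sum_le_sum_abs _ _).trans (Finset.sum_le_sum fun k _ => ?_)
    refine (Finset.abs_sum_le_sum_abs _ _).trans (Finset.sum_le_sum fun l _ => ?_)
    split_ifs
    · rw [abs_mul]
    · simp
  refine (Finset.sum_le_sum h1).trans (le_of_eq ?_)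
  rw [Finset.sum_comm, pow_two, Finset.sum_mul_sum]
  refine Finset.sum_congr rfl fun k hk => ?_
  rw [Finset.sum_comm]
  refine Finset.sum_congr rfl fun l hl => ?_
  rw [Finset.sum_ite_eq]
  rw [if_pos]
  rw [Finset.mem_Ioo]
  have := Finset.mem_range.1 hk
  have := Finset.mem_range.1 hl
  constructor <;> omega

/-- Kernel sums over the lattice. -/
theorem ker_sum {R₀ δ : ℝ} {K q : ℕ} (hL : LSU R₀ K q δ) (h1 : 1 ≤ R₀) (hδ : 0 ≤ δ) (a : ℕ → ℝ)
    {κ : ℤ × ℤ → ℂ} (hκ : Per2 q κ) {R S : ℝ} (hR : R₀ ≤ R) (hS : R ≤ S) {ξ : ℂ} (hξ : ‖ξ‖ = 1) :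
    ‖∑' z : ℤ × ℤ, κ z * (W R S z : ℂ) * (Ker a K (ch z * ξ) : ℂ) -
      (∑ k ∈ range K, (a k : ℂ) ^ 2) * ∑' z : ℤ × ℤ, κ z * (W R S z : ℂ)‖ ≤
      (∑ k ∈ range K, |a k|) ^ 2 * δ := by
  classical
  have hR0 : 0 < R := lt_of_lt_of_le (by linarith) hR
  have hS0 : 0 < S := lt_of_lt_of_le hR0 hS
  have hfin := W_support hR0 hS0
  set s : Finset (ℤ × ℤ) := hfin.toFinset with hs
  have hsW : ∀ z, z ∉ s → W R S z = 0 := by
    intro z hz
    by_contra h0
    exact hz (by rw [hs, Set.Finite.mem_toFinset]; exact h0)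
  have hts : ∀ f : ℤ × ℤ → ℂ, ∑' z : ℤ × ℤ, κ z * (W R S z : ℂ) * f z =
      ∑ z ∈ s, κ z * (W R S z : ℂ) * f z := by
    intro f
    refine tsum_eq_sum fun z hz => ?_
    rw [hsW z hz]
    simp
  have hts0 : ∑' z : ℤ × ℤ, κ z * (W R S z : ℂ) = ∑ z ∈ s, κ z * (W R S z : ℂ) := by
    refine tsum_eq_sum fun z hz => ?_
    rw [hsW z hz]
    simp
  rw [hts (fun z => (Ker a K (ch z * ξ) : ℂ)), hts0]
  have hexp : ∀ z ∈ s, κ z * (W R S z : ℂ) * (Ker a K (ch z * ξ) : ℂ) =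
      ∑ j ∈ Ioo (-(K : ℤ)) K, ((ac a K j : ℂ) * ξ ^ j) * (κ z * (W R S z : ℂ) * ch z ^ j) := by
    intro z hz
    have hz0 : z ≠ 0 := by
      rintro rfl
      have : W R S 0 ≠ 0 := by
        rw [hs, Set.Finite.mem_toFinset] at hz
        exact hz
      exact this (W_zero hS0)
    have hn : ‖ch z * ξ‖ = 1 := by rw [norm_mul, norm_ch hz0, hξ, mul_one]
    rw [Ker_expand a K hn, Finset.mul_sum]
    refine Finset.sum_congr rfl fun j _ => ?_
    rw [mul_zpow]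
    ring
  rw [Finset.sum_congr rfl hexp, Finset.sum_comm]
  simp_rw [← Finset.mul_sum]
  rcases Nat.eq_zero_or_pos K with hK | hK
  · subst hK
    simp
  have h0mem : (0 : ℤ) ∈ Ioo (-(K : ℤ)) K := by
    rw [Finset.mem_Ioo]
    constructor <;> omega
  rw [← Finset.add_sum_erase _ _ h0mem]
  have h00 : ((ac a K 0 : ℂ) * ξ ^ (0 : ℤ)) * ∑ z ∈ s, κ z * (W R S z : ℂ) * ch z ^ (0 : ℤ) =
      (∑ k ∈ range K, (a k : ℂ) ^ 2) * ∑ z ∈ s, κ z * (W R S z : ℂ) := by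
    rw [ac_zero]
    simp
  rw [h00, add_sub_cancel_left]
  refine (norm_sum_le _ _).trans ?_
  have hterm : ∀ j ∈ (Ioo (-(K : ℤ)) K).erase 0,
      ‖((ac a K j : ℂ) * ξ ^ j) * ∑ z ∈ s, κ z * (W R S z : ℂ) * ch z ^ j‖ ≤ |ac a K j| * δ := by
    intro j hj
    rw [Finset.mem_erase, Finset.mem_Ioo] at hj
    rw [norm_mul, norm_mul, norm_zpow, hξ, one_zpow, mul_one, Complex.norm_real,
      Real.norm_eq_abs]
    refine mul_le_mul_of_nonneg_left ?_ (abs_nonneg _)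
    have := hL R S hR hS j hj.1 (abs_lt.2 ⟨hj.2.1, hj.2.2⟩) κ hκ
    rwa [hts (fun z => ch z ^ j)] at this
  refine (Finset.sum_le_sum hterm).trans ?_
  rw [← Finset.sum_mul]
  refine mul_le_mul_of_nonneg_right ?_ hδ
  refine le_trans ?_ (ac_sum a K)
  exact Finset.sum_le_sum_of_subset_of_nonneg (Finset.erase_subset _ _)
    (fun _ _ _ => abs_nonneg _)

/-- Coefficients of the square of `1 + ζ + ... + ζ^(M-1)`. -/
noncomputable def aF (M : ℕ) (k : ℕ) : ℝ :=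
  ((range M ×ˢ range M).filter (fun p => p.1 + p.2 = k)).card

/-- Coefficients of `(1 + ... + ζ^(M-1)) (1 - ζ^M)`. -/
noncomputable def aG (M : ℕ) (k : ℕ) : ℝ := if k < M then 1 else -1

theorem aF_nonneg (M k : ℕ) : 0 ≤ aF M k := by
  unfold aF
  positivity

theorem aF_sum_gen (M : ℕ) (ζ : ℂ) :
    ∑ k ∈ range (2 * M), (aF M k : ℂ) * ζ ^ k = (∑ k ∈ range M, ζ ^ k) ^ 2 := by
  classical
  have h1 : ∀ k ∈ range (2 * M), (aF M k : ℂ) * ζ ^ k =
      ∑ p ∈ (range M ×ˢ range M).filter (fun p => p.1 + p.2 = k), ζ ^ p.1 * ζ ^ p.2 := by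
    intro k _
    rw [Finset.sum_congr rfl (g := fun _ => ζ ^ k)]
    · rw [Finset.sum_const, nsmul_eq_mul]
      unfold aF
      push_cast
      rfl
    · intro p hp
      rw [← pow_add, (Finset.mem_filter.1 hp).2]
  rw [Finset.sum_congr rfl h1, Finset.sum_fiberwise_of_maps_to]
  · rw [pow_two, Finset.sum_mul_sum, Finset.sum_product]
  · intro p hp
    rw [Finset.mem_product, Finset.mem_range, Finset.mem_range] at hp
    rw [Finset.mem_range]
    omega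

theorem aF_sum (M : ℕ) : ∑ k ∈ range (2 * M), aF M k = (M : ℝ) ^ 2 := by
  have h := aF_sum_gen M 1
  simp only [one_pow, mul_one, Finset.sum_const, Finset.card_range, nsmul_eq_mul] at h
  exact_mod_cast h

theorem aF_le (M k : ℕ) : aF M k ≤ M := by
  classical
  unfold aF
  norm_cast
  calc ((range M ×ˢ range M).filter (fun p => p.1 + p.2 = k)).card
      = (((range M ×ˢ range M).filter (fun p => p.1 + p.2 = k)).image Prod.fst).card := by
        symm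
        apply Finset.card_image_of_injOn
        intro p hp q hq hpq
        have hp2 := (Finset.mem_filter.1 hp).2
        have hq2 := (Finset.mem_filter.1 hq).2
        ext
        · exact hpq
        · have h5 : p.1 = q.1 := hpq
          omega
    _ ≤ (range M).card := by
        apply Finset.card_le_card
        intro i hi
        obtain ⟨p, hp, rfl⟩ := Finset.mem_image.1 hi
        exact (Finset.mem_product.1 (Finset.mem_filter.1 hp).1).1
    _ = M := Finset.card_range M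

theorem aF_sq (M : ℕ) (hM : 0 < M) : (M : ℝ) ^ 3 / 2 ≤ ∑ k ∈ range (2 * M), aF M k ^ 2 := by
  have h := Finset.sum_mul_sq_le_sq_mul_sq (range (2 * M)) (fun _ => (1 : ℝ)) (fun k => aF M k)
  simp only [one_mul, one_pow, Finset.sum_const, Finset.card_range, nsmul_eq_mul, mul_one] at h
  rw [aF_sum] at h
  have hM' : (0 : ℝ) < M := by exact_mod_cast hM
  push_cast at h
  have h2 : (M : ℝ) * ((M : ℝ) ^ 3 / 2) ≤ M * ∑ k ∈ range (2 * M), aF M k ^ 2 := by
    nlinarith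
  exact le_of_mul_le_mul_left h2 hM'

theorem aF_sq_le (M : ℕ) : ∑ k ∈ range (2 * M), aF M k ^ 2 ≤ (M : ℝ) ^ 3 := by
  calc ∑ k ∈ range (2 * M), aF M k ^ 2 ≤ ∑ k ∈ range (2 * M), (M : ℝ) * aF M k := by
        refine Finset.sum_le_sum fun k _ => ?_
        rw [pow_two]
        exact mul_le_mul_of_nonneg_right (aF_le M k) (aF_nonneg M k)
    _ = (M : ℝ) ^ 3 := by
        rw [← Finset.mul_sum, aF_sum]
        ring

theorem aG_sum_gen (M : ℕ) (ζ : ℂ) :
    ∑ k ∈ range (2 * M), (aG M k : ℂ) * ζ ^ k = (∑ k ∈ range M, ζ ^ k) * (1 - ζ ^ M) := by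
  rw [two_mul, Finset.sum_range_add]
  have h1 : ∑ k ∈ range M, (aG M k : ℂ) * ζ ^ k = ∑ k ∈ range M, ζ ^ k := by
    refine Finset.sum_congr rfl fun k hk => ?_
    unfold aG
    rw [if_pos (Finset.mem_range.1 hk)]
    simp
  have h2 : ∑ k ∈ range M, (aG M (M + k) : ℂ) * ζ ^ (M + k) = -(ζ ^ M * ∑ k ∈ range M, ζ ^ k) := by
    rw [Finset.mul_sum, ← Finset.sum_neg_distrib]
    refine Finset.sum_congr rfl fun k hk => ?_
    unfold aG
    rw [if_neg (by omega), pow_add]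
    push_cast
    ring
  rw [h1, h2]
  ring

theorem Ker_FG (M : ℕ) (ζ : ℂ) :
    Ker (aF M) (2 * M) ζ * ‖1 - ζ‖ ^ 2 = Ker (aG M) (2 * M) ζ := by
  unfold Ker
  rw [aF_sum_gen, aG_sum_gen, ← mul_pow, ← norm_mul]
  congr 2
  have h := geom_sum_mul_neg ζ M
  rw [← h]
  ring

end Pool.Agent.H61.AP
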