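import Pool.Agent.H61.AP.A5_PartA
import Pool.Agent.H61.AP.B5_Ker

/-! B12: the elements of the base class near the reference direction with the wrong value have
small kernel weight. -/

set_option autoImplicit false

namespace Pool.Agent.H61.AP

open Finset
open Pool.Agent.H95.Gol (bb PB)
open Pool.Agent.H41.Per (PM nmZ)

/-- The reference element `1 + b₀ π` with `b₀ = r + m ⌊3X/2⌋`. -/
def zref (m r : ℤ) (X : ℕ) : ℤ × ℤ := (1 + (r + m * (3 * X / 2 : ℕ)), r + m * (3 * X / 2 : ℕ))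

/-- The element `s (1 + r π)` of the base class. -/
def zbase (r s : ℤ) : ℤ × ℤ := (s * (1 + r), s * r)

theorem b12_real {a t b0 Y : ℝ} (ha : 1 ≤ a) (hb : 23 ≤ b0) (hbX : b0 ≤ 25 / 16 * Y)
    (h : 3 * (a * b0 - t) ^ 2 * (100 * Y) ^ 2 <
      (3 * t ^ 2 + 3 * a * t + a ^ 2) * (3 * b0 ^ 2 + 3 * b0 + 1)) :
    |a * b0 - t| < a * b0 / 20 := by
  by_contra hcon
  push Not at hcon
  set d := |a * b0 - t| with hd
  have hd2 : (a * b0 - t) ^ 2 = d ^ 2 := by rw [hd, sq_abs]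
  have ha0 : 0 < a := by linarith
  have hab : 23 * a ≤ a * b0 := by nlinarith
  have hda : a ≤ 20 / 23 * d := by linarith
  have hd0 : 0 < d := by
    have : 0 < a * b0 / 20 := by positivity
    linarith
  have ht : |t| ≤ 21 * d := by
    have h1 : |t| ≤ |a * b0| + |a * b0 - t| := by
      have := abs_sub_abs_le_abs_sub t (a * b0)
      rw [abs_sub_comm t (a * b0)] at this
      linarith
    rw [abs_of_pos (show 0 < a * b0 by positivity)] at h1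
    linarith
  have h1 : 3 * t ^ 2 + 3 * a * t + a ^ 2 ≤ 1452 * d ^ 2 := by
    have e1 : t ^ 2 ≤ 441 * d ^ 2 := by
      rw [← sq_abs t]
      nlinarith [abs_nonneg t]
    have e2 : a * t ≤ 20 / 23 * d * (21 * d) := by
      calc a * t ≤ a * |t| := mul_le_mul_of_nonneg_left (le_abs_self t) ha0.le
        _ ≤ _ := mul_le_mul hda ht (abs_nonneg t) (by positivity)
    have e3 : a ^ 2 ≤ d ^ 2 := by nlinarith
    nlinarith
  have h2 : 3 * b0 ^ 2 + 3 * b0 + 1 ≤ 16 / 5 * b0 ^ 2 := by nlinarith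
  have h3 : b0 ^ 2 ≤ 625 / 256 * Y ^ 2 := by nlinarith
  have h4 : (3 * t ^ 2 + 3 * a * t + a ^ 2) * (3 * b0 ^ 2 + 3 * b0 + 1) ≤
      1452 * d ^ 2 * (16 / 5 * b0 ^ 2) :=
    mul_le_mul h1 h2 (by positivity) (by positivity)
  have h5 : 3 * (a * b0 - t) ^ 2 * (100 * Y) ^ 2 ≥ 12288 * (d ^ 2 * b0 ^ 2) := by
    rw [hd2]
    have : d ^ 2 * b0 ^ 2 ≤ d ^ 2 * (625 / 256 * Y ^ 2) :=
      mul_le_mul_of_nonneg_left h3 (by positivity)
    nlinarith
  have h6 : 0 < d ^ 2 * b0 ^ 2 := by positivity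
  nlinarith

theorem b12_zref_ne (m r : ℤ) (X : ℕ) : zref m r X ≠ 0 := by
  intro h
  have h1 : (zref m r X).1 = 0 := by rw [h]; rfl
  have h2 : (zref m r X).2 = 0 := by rw [h]; rfl
  unfold zref at h1 h2
  simp only at h1 h2
  omega

theorem b12_bounds {a b r m K X : ℝ} (ha : 1 ≤ a) (hm : 1 ≤ m) (hrm : r ≤ m)
    (hX : 16 ≤ X) (hK1 : 2 * K ≤ 3 * X) (hK2 : 3 * X ≤ 2 * K + 1)
    (h : |a * (r + m * K) - (r * a + m * b)| < a * (r + m * K) / 20) :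
    X * a < b ∧ b < 2 * X * a := by
  have hm0 : 0 < m := by linarith
  have ha0 : 0 < a := by linarith
  have e1 : a * (r + m * K) - (r * a + m * b) = m * (a * K - b) := by ring
  rw [e1, abs_mul, abs_of_pos hm0] at h
  have h1 : a * (r + m * K) / 20 ≤ m * (a * (1 + K) / 20) := by
    have : a * r ≤ a * m := mul_le_mul_of_nonneg_left hrm ha0.le
    nlinarith
  have h2 : |a * K - b| < a * (1 + K) / 20 := lt_of_mul_lt_mul_left (h.trans_le h1) hm0.le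
  rw [abs_lt] at h2
  obtain ⟨h3, h4⟩ := h2
  have h5 : a * (2 * K) ≤ a * (3 * X) := mul_le_mul_of_nonneg_left hK1 ha0.le
  have h6 : a * (3 * X) ≤ a * (2 * K + 1) := mul_le_mul_of_nonneg_left hK2 ha0.le
  have h7 : a * 16 ≤ a * X := mul_le_mul_of_nonneg_left hX ha0.le
  constructor <;> nlinarith

/-- The metric part, in real terms. -/
theorem b12_metric {a b r m K X t : ℝ} (ha : 1 ≤ a) (hm : 1 ≤ m) (hr0 : 0 ≤ r) (hrm : r ≤ m)
    (hX : 16 ≤ X) (hK1 : 2 * K ≤ 3 * X) (hK2 : 3 * X ≤ 2 * K + 1) (ht : t = r * a + m * b)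
    (h : 3 * (a * (r + m * K) - t) ^ 2 * (100 * (m * X)) ^ 2 <
      (3 * t ^ 2 + 3 * a * t + a ^ 2) * (3 * (r + m * K) ^ 2 + 3 * (r + m * K) + 1)) :
    X * a < b ∧ b < 2 * X * a := by
  have hm0 : 0 < m := by linarith
  have hmK : m * (2 * K) ≤ m * (3 * X) := mul_le_mul_of_nonneg_left hK1 hm0.le
  have hmK2 : m * (3 * X) ≤ m * (2 * K + 1) := mul_le_mul_of_nonneg_left hK2 hm0.le
  have hmX16 : m * 16 ≤ m * X := mul_le_mul_of_nonneg_left hX hm0.le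
  have hb23 : 23 ≤ r + m * K := by nlinarith
  have hbX : r + m * K ≤ 25 / 16 * (m * X) := by nlinarith
  have hmain := b12_real ha hb23 hbX h
  rw [ht] at hmain
  exact b12_bounds ha hm hrm hX hK1 hK2 hmain

/-- The coordinates of an element of the class. -/
theorem b12_coord {m : ℕ} {r s : ℤ} {z : ℤ × ℤ}
    (hz : red m z = red m (zbase r s)) (h3 : ¬ (3 : ℤ) ∣ nE z) :
    ∃ (a b e c : ℤ), (e = 1 ∨ e = -1) ∧ z = (e * (a + (r * a + m * b)), e * (r * a + m * b)) ∧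
      0 < a ∧ ¬ (3 : ℤ) ∣ a ∧ a = e * s + m * c := by
  have hnz : nE z = 3 * (z.2 ^ 2 + (z.1 - z.2) * z.2) + (z.1 - z.2) ^ 2 := by
    unfold nE; ring
  have h3a : ¬ (3 : ℤ) ∣ z.1 - z.2 := by
    intro h
    apply h3
    rw [hnz]
    exact dvd_add (Dvd.intro _ rfl) (Dvd.dvd.pow h two_ne_zero)
  have ha0 : z.1 - z.2 ≠ 0 := fun h => h3a (h ▸ dvd_zero 3)
  obtain ⟨e, he, hea⟩ : ∃ e : ℤ, (e = 1 ∨ e = -1) ∧ 0 < e * (z.1 - z.2) := by
    rcases lt_or_gt_of_ne ha0 with h | h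
    · exact ⟨-1, Or.inr rfl, by linarith⟩
    · exact ⟨1, Or.inl rfl, by linarith⟩
  have hee : e * e = 1 := by rcases he with h | h <;> rw [h] <;> norm_num
  have hz1 : ((z.1 : ℤ) : ZMod m) = ((s * (1 + r) : ℤ) : ZMod m) := congrArg Prod.fst hz
  have hz2 : ((z.2 : ℤ) : ZMod m) = ((s * r : ℤ) : ZMod m) := congrArg Prod.snd hz
  have c1 : (m : ℤ) ∣ s * (1 + r) - z.1 := (ZMod.intCast_eq_intCast_iff_dvd_sub _ _ _).1 hz1
  have c2 : (m : ℤ) ∣ s * r - z.2 := (ZMod.intCast_eq_intCast_iff_dvd_sub _ _ _).1 hz2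
  obtain ⟨d1, h1⟩ := c1
  obtain ⟨d2, h2⟩ := c2
  have e3 : z.1 - z.2 = s - m * (d1 - d2) := by linear_combination h1 * (-1) + h2
  have e4 : e * z.2 = r * (e * (z.1 - z.2)) + m * (e * (r * (d1 - d2) - d2)) := by
    linear_combination (-e) * h2 - r * e * e3
  refine ⟨e * (z.1 - z.2), e * (r * (d1 - d2) - d2), e, -(e * (d1 - d2)), he, ?_, hea, ?_, ?_⟩
  · rw [← e4]
    ext
    · show z.1 = e * (e * (z.1 - z.2) + e * z.2)
      linear_combination (-z.1) * hee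
    · show z.2 = e * (e * z.2)
      linear_combination (-z.2) * hee
  · intro h
    apply h3a
    have := h.mul_left e
    rwa [← mul_assoc, hee, one_mul] at this
  · rw [e3]; ring

theorem b12_cop {m : ℕ} {a s e c : ℤ} (he : e = 1 ∨ e = -1) (h3 : ¬ (3 : ℤ) ∣ a)
    (ha : a = e * s + m * c) (hs : IsCoprime s m) : IsCoprime a (3 * (m : ℤ)) := by
  have hee : e * e = 1 := by rcases he with h | h <;> rw [h] <;> norm_num
  apply IsCoprime.mul_right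
  · exact ((Prime.coprime_iff_not_dvd Int.prime_three).2 h3).symm
  · rw [ha]
    have h1 : IsCoprime (e * s) (m : ℤ) := by
      apply IsCoprime.mul_left
      · exact ⟨e, 0, by rw [hee]; ring⟩
      · exact hs
    exact IsCoprime.add_mul_left_left h1 _

/-- The norm of an element of the class and of the reference element. -/
theorem b12_nz {m : ℕ} {r a b e t : ℤ} (he : e = 1 ∨ e = -1) (ht : t = r * a + m * b) :
    nE (e * (a + (r * a + m * b)), e * (r * a + m * b)) = 3 * t ^ 2 + 3 * a * t + a ^ 2 := by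
  rw [← ht]
  unfold nE
  rcases he with h | h <;> rw [h] <;> ring

theorem b12_nw (m : ℕ) (r : ℤ) (X : ℕ) :
    nE (zref m r X) = 3 * (r + m * (3 * X / 2 : ℕ)) ^ 2 + 3 * (r + m * (3 * X / 2 : ℕ)) + 1 := by
  unfold nE zref
  ring

theorem b12_cross {m : ℕ} {r a b e t : ℤ} (X : ℕ) (he : e = 1 ∨ e = -1)
    (ht : t = r * a + m * b) :
    (e * (a + (r * a + m * b)) * (zref m r X).2 - e * (r * a + m * b) * (zref m r X).1) ^ 2 =
      (a * (r + m * (3 * X / 2 : ℕ)) - t) ^ 2 := by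
  rw [← ht]
  unfold zref
  rcases he with h | h <;> rw [h] <;> ring

/-- Geometry: an element congruent to `s (1 + r π)` whose direction is close to the reference
direction lies in the cone. -/
theorem cone_geom {m : ℕ} {r s : ℤ} (hm : 0 < m) (hr0 : 0 ≤ r) (hrm : r < m)
    (hs : IsCoprime s m) {X : ℕ} (hX : 16 ≤ X) {z : ℤ × ℤ}
    (hz : red m z = red m (zbase r s)) (h3 : ¬ (3 : ℤ) ∣ nE z)
    (hd : ‖ch z - ch (zref m r X)‖ < 1 / (100 * m * X)) :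
    ∃ (a b : ℤ) (e : ℤ), (e = 1 ∨ e = -1) ∧ z = (e * (a + (r * a + m * b)), e * (r * a + m * b)) ∧
      0 < a ∧ (X : ℤ) * a ≤ b ∧ b < 2 * (X : ℤ) * a ∧ IsCoprime a (3 * (m : ℤ)) := by
  obtain ⟨a, b, e, c, he, hzz, ha, h3a, hac⟩ := b12_coord hz h3
  have hz0 : z ≠ 0 := by
    intro h
    apply h3
    rw [h]
    exact ⟨0, by unfold nE; simp⟩
  have hw0 := b12_zref_ne m r X
  have hdist := dist_ch hz0 hw0
  have pz : (0 : ℝ) < nE z := by exact_mod_cast nE_pos hz0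
  have pw : (0 : ℝ) < nE (zref m r X) := by exact_mod_cast nE_pos hw0
  have hmR : (1 : ℝ) ≤ m := by exact_mod_cast hm
  have hXR : (16 : ℝ) ≤ X := by exact_mod_cast hX
  have hmX : (0 : ℝ) < 100 * m * X := by positivity
  have hlt : ‖ch z - ch (zref m r X)‖ ^ 2 < (1 / (100 * m * X)) ^ 2 :=
    pow_lt_pow_left₀ hd (norm_nonneg _) (by norm_num)
  rw [hdist, div_pow, one_pow, div_lt_div_iff₀ (mul_pos pz pw) (by positivity), one_mul] at hlt
  have hcross : ((z.1 * (zref m r X).2 - z.2 * (zref m r X).1 : ℤ) : ℝ) ^ 2 =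
      ((a : ℝ) * (r + m * ((3 * X / 2 : ℕ) : ℝ)) - ((r * a + m * b : ℤ) : ℝ)) ^ 2 := by
    have e1 := b12_cross (m := m) (r := r) (a := a) (b := b) X he rfl
    have e2 : (z.1 * (zref m r X).2 - z.2 * (zref m r X).1) ^ 2 =
        (a * (r + m * (3 * X / 2 : ℕ)) - (r * a + m * b)) ^ 2 := by
      rw [← e1, hzz]
    have e3 := congrArg (Int.cast : ℤ → ℝ) e2
    push_cast at e3 ⊢
    exact e3
  have hnz : (nE z : ℝ) = 3 * ((r * a + m * b : ℤ) : ℝ) ^ 2 +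
      3 * (a : ℝ) * ((r * a + m * b : ℤ) : ℝ) + (a : ℝ) ^ 2 := by
    have e1 := b12_nz (m := m) (r := r) (a := a) (b := b) he rfl
    rw [← hzz] at e1
    have e3 := congrArg (Int.cast : ℤ → ℝ) e1
    push_cast at e3 ⊢
    exact e3
  have hnw : (nE (zref m r X) : ℝ) = 3 * ((r : ℝ) + m * ((3 * X / 2 : ℕ) : ℝ)) ^ 2 +
      3 * ((r : ℝ) + m * ((3 * X / 2 : ℕ) : ℝ)) + 1 := by
    have e3 := congrArg (Int.cast : ℤ → ℝ) (b12_nw m r X)
    push_cast at e3 ⊢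
    exact e3
  rw [hcross, hnz, hnw] at hlt
  have hfin := b12_metric (a := a) (b := b) (r := r) (m := m) (K := ((3 * X / 2 : ℕ) : ℝ))
    (X := X) (t := ((r * a + m * b : ℤ) : ℝ)) (by exact_mod_cast ha) hmR
    (by exact_mod_cast hr0) (by exact_mod_cast hrm.le) hXR
    (by exact_mod_cast (by omega : 2 * (3 * X / 2) ≤ 3 * X))
    (by exact_mod_cast (by omega : 3 * X ≤ 2 * (3 * X / 2) + 1)) (by push_cast; ring)
    (by rw [← mul_assoc 100 (m : ℝ) (X : ℝ)]; exact hlt)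
  obtain ⟨h5, h6⟩ := hfin
  refine ⟨a, b, e, he, hzz, ha, ?_, ?_, b12_cop he h3a hac hs⟩
  · have : ((X : ℤ) * a : ℤ) < b := by exact_mod_cast h5
    exact this.le
  · exact_mod_cast h6

theorem b12_kap_nonneg (m : ℕ) (c : ZMod m × ZMod m) (z : ℤ × ℤ) : 0 ≤ kap m c z := by
  unfold kap
  split_ifs <;> norm_num

theorem b12_kap_le (m : ℕ) (c : ZMod m × ZMod m) (z : ℤ × ℤ) : kap m c z ≤ 1 := by
  unfold kap
  split_ifs <;> norm_num

theorem b12_kap_ne {m : ℕ} {c : ZMod m × ZMod m} {z : ℤ × ℤ} (h : kap m c z ≠ 0) :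
    red m z = c ∧ ¬ (3 : ℤ) ∣ nE z := by
  unfold kap at h
  by_contra hcon
  rw [if_neg hcon] at h
  exact h rfl

theorem b12_kap_congr {m : ℕ} (c : ZMod m × ZMod m) {z w : ℤ × ℤ} (h1 : red m z = red m w)
    (h2 : (3 : ℤ) ∣ nE z ↔ (3 : ℤ) ∣ nE w) : kap m c z = kap m c w := by
  unfold kap
  simp only [h1, h2]

theorem b12_per (m : ℕ) (c : ZMod m × ZMod m) :
    Per2 (3 * m) (fun z => ((kap m c z : ℝ) : ℂ)) := by
  refine ⟨fun z => ?_, fun z => ?_, fun z => ?_⟩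
  · rw [Complex.norm_real, Real.norm_eq_abs, abs_of_nonneg (b12_kap_nonneg m c z)]
    exact b12_kap_le m c z
  · show ((kap m c (z.1 + ((3 * m : ℕ) : ℤ), z.2) : ℝ) : ℂ) = ((kap m c z : ℝ) : ℂ)
    rw [b12_kap_congr c (w := z)]
    · unfold red
      ext
      · simp
      · rfl
    · have : nE (z.1 + ((3 * m : ℕ) : ℤ), z.2) = nE z + 3 * (m * (2 * z.1 + z.2) + 3 * m ^ 2) := by
        unfold nE; push_cast; ring
      rw [this]
      exact (dvd_add_left (Dvd.intro _ rfl))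
  · show ((kap m c (z.1, z.2 + ((3 * m : ℕ) : ℤ)) : ℝ) : ℂ) = ((kap m c z : ℝ) : ℂ)
    rw [b12_kap_congr c (w := z)]
    · unfold red
      ext
      · rfl
      · simp
    · have : nE (z.1, z.2 + ((3 * m : ℕ) : ℤ)) = nE z + 3 * (m * (z.1 + 2 * z.2) + 3 * m ^ 2) := by
        unfold nE; push_cast; ring
      rw [this]
      exact (dvd_add_left (Dvd.intro _ rfl))

theorem b12_aG_abs (M k : ℕ) : |aG M k| = 1 := by
  unfold aG
  split_ifs <;> norm_num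

theorem b12_aG_sq (M k : ℕ) : (aG M k : ℂ) ^ 2 = 1 := by
  unfold aG
  split_ifs <;> norm_num

/-- the sum of the kernel of `aG` over the class -/
theorem b12_far {m : ℕ} (c : ZMod m × ZMod m) {M : ℕ} {Y₁ Y₂ R₀ δ : ℝ} (hR0 : 1 ≤ R₀)
    (hY : R₀ ≤ Y₁) (hY' : Y₁ ≤ Y₂) (hδ : 0 ≤ δ) (hL : LSU R₀ (2 * M) (3 * m) δ) {ξ : ℂ}
    (hξ : ‖ξ‖ = 1) (Z : Finset (ℤ × ℤ)) (hZ : ∀ z, z ∉ Z → W Y₁ Y₂ z = 0) :
    ∑ z ∈ Z, kap m c z * W Y₁ Y₂ z * Ker (aG M) (2 * M) (ch z * ξ) ≤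
      2 * M * T0 Y₁ Y₂ + 4 * (M : ℝ) ^ 2 * δ := by
  have h := ker_sum hL hR0 hδ (aG M) (b12_per m c) hY hY' hξ
  have e1 : ∑' z : ℤ × ℤ, ((kap m c z : ℝ) : ℂ) * (W Y₁ Y₂ z : ℂ) *
      (Ker (aG M) (2 * M) (ch z * ξ) : ℂ) =
      ((∑ z ∈ Z, kap m c z * W Y₁ Y₂ z * Ker (aG M) (2 * M) (ch z * ξ) : ℝ) : ℂ) := by
    rw [tsum_eq_sum (s := Z)]
    · push_cast; rfl
    · intro z hz
      rw [hZ z hz]; simp
  have e2 : ∑' z : ℤ × ℤ, ((kap m c z : ℝ) : ℂ) * (W Y₁ Y₂ z : ℂ) =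
      ((∑ z ∈ Z, kap m c z * W Y₁ Y₂ z : ℝ) : ℂ) := by
    rw [tsum_eq_sum (s := Z)]
    · push_cast; rfl
    · intro z hz
      rw [hZ z hz]; simp
  have e3 : ∑ k ∈ range (2 * M), (aG M k : ℂ) ^ 2 = ((2 * M : ℝ) : ℂ) := by
    rw [Finset.sum_congr rfl (fun k _ => b12_aG_sq M k)]
    simp
  have e4 : ∑ k ∈ range (2 * M), |aG M k| = 2 * M := by
    rw [Finset.sum_congr rfl (fun k _ => b12_aG_abs M k)]
    simp
  rw [e1, e2, e3, e4, ← Complex.ofReal_mul, ← Complex.ofReal_sub, Complex.norm_real,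
    Real.norm_eq_abs] at h
  have h1 := (abs_le.1 h).2
  have e5 : T0 Y₁ Y₂ = ∑ z ∈ Z, W Y₁ Y₂ z := by
    unfold T0
    rw [tsum_eq_sum (s := Z)]
    intro z hz
    exact hZ z hz
  have h2 : ∑ z ∈ Z, kap m c z * W Y₁ Y₂ z ≤ T0 Y₁ Y₂ := by
    rw [e5]
    refine Finset.sum_le_sum fun z _ => ?_
    have := mul_le_mul_of_nonneg_right (b12_kap_le m c z) (W_nonneg Y₁ Y₂ z)
    linarith
  have h3 : 2 * (M : ℝ) * ∑ z ∈ Z, kap m c z * W Y₁ Y₂ z ≤ 2 * M * T0 Y₁ Y₂ :=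
    mul_le_mul_of_nonneg_left h2 (by positivity)
  nlinarith

/-- the near part -/
theorem b12_near {g : ℕ → ℤ} {m : ℕ} {r s ε : ℤ} (hm : 0 < m) (hr0 : 0 ≤ r)
    (hrm : r < m) (hs : IsCoprime s m) {X M : ℕ} (hX : 16 ≤ X) {A : ℕ} {Y₁ Y₂ η : ℝ}
    (hη : 0 < η) (hY0 : 0 < Y₁)
    (hY' : Y₁ ≤ Y₂) (hA : Y₂ ≤ A)
    (hF : ∀ F : Finset (ℤ × ℤ),
      (∀ v ∈ F, 0 < v.1 ∧ v.1 ≤ A ∧ (X : ℤ) * v.1 ≤ v.2 ∧ v.2 < 2 * (X : ℤ) * v.1 ∧
        IsCoprime v.1 (3 * m) ∧ gA g m r v ≠ ε) → ∑ v ∈ F, 1 / (v.1 : ℝ) ^ 2 ≤ η * X)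
    (N : Finset (ℤ × ℤ)) {ξ : ℂ} (hξ : ‖ξ‖ = 1)
    (hN : ∀ z ∈ N, gE g z ≠ ε ∧ red m z = red m (zbase r s) ∧ ¬ (3 : ℤ) ∣ nE z ∧
      ‖ch z - ch (zref m r X)‖ < 1 / (100 * m * X) ∧ W Y₁ Y₂ z ≠ 0) :
    ∑ z ∈ N, W Y₁ Y₂ z * Ker (aF M) (2 * M) (ch z * ξ) ≤ 2 * (M : ℝ) ^ 4 * η / X := by
  classical
  have hch : ∀ z : ℤ × ℤ, ∃ v : ℤ × ℤ, z ∈ N → (z = (v.1 + (r * v.1 + m * v.2), r * v.1 + m * v.2) ∨
      z = (-(v.1 + (r * v.1 + m * v.2)), -(r * v.1 + m * v.2))) ∧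
      0 < v.1 ∧ (X : ℤ) * v.1 ≤ v.2 ∧ v.2 < 2 * (X : ℤ) * v.1 ∧ IsCoprime v.1 (3 * (m : ℤ)) := by
    intro z
    by_cases hz : z ∈ N
    · obtain ⟨-, h2, h3, h4, -⟩ := hN z hz
      obtain ⟨a, b, e, he, h5, h6, h7, h8, h9⟩ := cone_geom hm hr0 hrm hs hX h2 h3 h4
      refine ⟨(a, b), fun _ => ⟨?_, h6, h7, h8, h9⟩⟩
      rcases he with he | he
      · left; rw [h5, he]; simp
      · right; rw [h5, he]; simp
    · exact ⟨0, fun h => absurd h hz⟩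
  choose v hv using hch
  have hXR : (16 : ℝ) ≤ X := by exact_mod_cast hX
  have hmR : (1 : ℝ) ≤ m := by exact_mod_cast hm
  have hn : ∀ z ∈ N, nE z = nmZ (v z).1 (r * (v z).1 + m * (v z).2) := by
    intro z hz
    rw [← nE_eq_nmZ]
    rcases (hv z hz).1 with h | h
    · exact congrArg nE h
    · exact (congrArg nE h).trans (by unfold nE; ring)
  have hnlow : ∀ z ∈ N, 3 * (X : ℝ) ^ 2 * ((v z).1 : ℝ) ^ 2 ≤ nE z ∧ ((v z).1 : ℝ) ^ 2 ≤ nE z := by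
    intro z hz
    obtain ⟨-, h6, h7, -, -⟩ := hv z hz
    have h1 : (X : ℤ) * (v z).1 ≤ r * (v z).1 + m * (v z).2 := by
      have e1 : 0 ≤ r * (v z).1 := mul_nonneg hr0 h6.le
      have e0 : 0 ≤ (v z).2 := le_trans (by positivity) h7
      have e2 : (v z).2 ≤ m * (v z).2 := by
        have : (1 : ℤ) ≤ m := by exact_mod_cast hm
        nlinarith
      linarith
    have h2 : 0 ≤ (X : ℤ) * (v z).1 := by positivity
    have h3 : ((X : ℤ) * (v z).1) ^ 2 ≤ (r * (v z).1 + m * (v z).2) ^ 2 :=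
      pow_le_pow_left₀ h2 h1 2
    have h4 : 0 ≤ (v z).1 * (r * (v z).1 + m * (v z).2) := mul_nonneg h6.le (h2.trans h1)
    have h5 : 3 * ((X : ℤ) * (v z).1) ^ 2 ≤ nE z ∧ (v z).1 ^ 2 ≤ nE z := by
      rw [hn z hz]
      unfold nmZ
      constructor
      · nlinarith [sq_nonneg (v z).1]
      · nlinarith [sq_nonneg (r * (v z).1 + m * (v z).2)]
    constructor
    · have : ((3 * ((X : ℤ) * (v z).1) ^ 2 : ℤ) : ℝ) ≤ nE z := by exact_mod_cast h5.1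
      push_cast at this
      nlinarith
    · exact_mod_cast h5.2
  set F : Finset (ℤ × ℤ) := N.image v with hFdef
  have hFsum := hF F (by
    intro w hw
    obtain ⟨z, hz, rfl⟩ := Finset.mem_image.1 hw
    obtain ⟨-, h6, h7, h8, h9⟩ := hv z hz
    obtain ⟨h1, -, -, -, h5⟩ := hN z hz
    refine ⟨h6, ?_, h7, h8, h9, ?_⟩
    · have hlt : (nE z : ℝ) < Y₂ := by
        by_contra hcon
        push Not at hcon
        exact h5 (W_zero_of_le hY0 (hY0.trans_le hY') hcon)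
      have h10 := (hnlow z hz).2
      have h11 : ((v z).1 : ℝ) ≤ ((v z).1 : ℝ) ^ 2 := by
        have : (1 : ℝ) ≤ (v z).1 := by exact_mod_cast h6
        nlinarith
      have h12 : ((v z).1 : ℝ) ≤ A := by linarith
      exact_mod_cast h12
    · intro h
      apply h1
      unfold gE
      rw [hn z hz]
      exact h)
  have hterm : ∀ z ∈ N, W Y₁ Y₂ z * Ker (aF M) (2 * M) (ch z * ξ) ≤
      (M : ℝ) ^ 4 / (3 * (X : ℝ) ^ 2) * (1 / ((v z).1 : ℝ) ^ 2) := by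
    intro z hz
    obtain ⟨-, h6, -, -, -⟩ := hv z hz
    have h6R : (0 : ℝ) < (v z).1 := by exact_mod_cast h6
    have h1 : W Y₁ Y₂ z ≤ 1 / nE z := W_le_inv hY0 (hY0.trans_le hY') z
    have h2 : 1 / (nE z : ℝ) ≤ 1 / (3 * (X : ℝ) ^ 2 * ((v z).1 : ℝ) ^ 2) :=
      one_div_le_one_div_of_le (by positivity) (hnlow z hz).1
    have h3 : Ker (aF M) (2 * M) (ch z * ξ) ≤ (M : ℝ) ^ 4 := by
      have h4 := Ker_le (aF M) (2 * M) (ζ := ch z * ξ) (by
        rw [norm_mul, hξ, mul_one]; exact norm_ch_le z)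
      have h5 : ∑ k ∈ range (2 * M), |aF M k| = (M : ℝ) ^ 2 := by
        rw [← aF_sum M]
        exact Finset.sum_congr rfl fun k _ => abs_of_nonneg (aF_nonneg M k)
      rw [h5] at h4
      calc _ ≤ _ := h4
        _ = _ := by ring
    calc W Y₁ Y₂ z * Ker (aF M) (2 * M) (ch z * ξ) ≤
        1 / (3 * (X : ℝ) ^ 2 * ((v z).1 : ℝ) ^ 2) * (M : ℝ) ^ 4 :=
          mul_le_mul (h1.trans h2) h3 (Ker_nonneg _ _ _) (by positivity)
      _ = _ := by field_simp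
  have hfib : ∑ z ∈ N, (M : ℝ) ^ 4 / (3 * (X : ℝ) ^ 2) * (1 / ((v z).1 : ℝ) ^ 2) ≤
      ∑ w ∈ F, 2 * ((M : ℝ) ^ 4 / (3 * (X : ℝ) ^ 2) * (1 / (w.1 : ℝ) ^ 2)) := by
    rw [← Finset.sum_fiberwise_of_maps_to (g := v) (t := F)
      (fun z hz => Finset.mem_image_of_mem v hz)]
    refine Finset.sum_le_sum fun w hw => ?_
    have hc : (N.filter (fun z => v z = w)).card ≤ 2 := by
      refine le_trans (Finset.card_le_card (t := {(w.1 + (r * w.1 + m * w.2), r * w.1 + m * w.2),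
        (-(w.1 + (r * w.1 + m * w.2)), -(r * w.1 + m * w.2))}) ?_) Finset.card_le_two
      intro z hz
      rw [Finset.mem_filter] at hz
      obtain ⟨hz1, hz2⟩ := hz
      have := (hv z hz1).1
      rw [hz2] at this
      rw [Finset.mem_insert, Finset.mem_singleton]
      exact this
    have hp : 0 ≤ (M : ℝ) ^ 4 / (3 * (X : ℝ) ^ 2) * (1 / (w.1 : ℝ) ^ 2) := by positivity
    calc ∑ z ∈ N.filter (fun z => v z = w), (M : ℝ) ^ 4 / (3 * (X : ℝ) ^ 2) *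
          (1 / ((v z).1 : ℝ) ^ 2) =
        ∑ z ∈ N.filter (fun z => v z = w), (M : ℝ) ^ 4 / (3 * (X : ℝ) ^ 2) *
          (1 / (w.1 : ℝ) ^ 2) := by
          refine Finset.sum_congr rfl fun z hz => ?_
          rw [(Finset.mem_filter.1 hz).2]
      _ = (N.filter (fun z => v z = w)).card * ((M : ℝ) ^ 4 / (3 * (X : ℝ) ^ 2) *
          (1 / (w.1 : ℝ) ^ 2)) := by rw [Finset.sum_const, nsmul_eq_mul]
      _ ≤ 2 * ((M : ℝ) ^ 4 / (3 * (X : ℝ) ^ 2) * (1 / (w.1 : ℝ) ^ 2)) := by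
          apply mul_le_mul_of_nonneg_right _ hp
          exact_mod_cast hc
  refine (Finset.sum_le_sum hterm).trans (hfib.trans ?_)
  rw [← Finset.mul_sum, ← Finset.mul_sum]
  have hX0 : (0 : ℝ) < X := by linarith
  calc 2 * ((M : ℝ) ^ 4 / (3 * (X : ℝ) ^ 2) * ∑ w ∈ F, 1 / (w.1 : ℝ) ^ 2) ≤
      2 * ((M : ℝ) ^ 4 / (3 * (X : ℝ) ^ 2) * (η * X)) := by gcongr
    _ = (2 * (M : ℝ) ^ 4 * η / X) * (1 / 3) := by field_simp
    _ ≤ (2 * (M : ℝ) ^ 4 * η / X) * 1 := by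
      apply mul_le_mul_of_nonneg_left (by norm_num) (by positivity)
    _ = _ := mul_one _

open Classical in
/-- Kernel weight of the bad elements of the base class. -/
theorem bad_sum {g : ℕ → ℤ} (hg : PM g) {m : ℕ} {r s ε : ℤ} (hm : 0 < m) (hr0 : 0 ≤ r)
    (hrm : r < m) (hs : IsCoprime s m) (H : Hyp g m r ε) (hε : ε = 1 ∨ ε = -1) (t : ℕ) (η : ℝ)
    (hη : 0 < η) :
    ∃ n₀ : ℕ, ∀ n ≥ n₀, ∀ (M : ℕ) (Y₁ Y₂ R₀ δ : ℝ), 1 ≤ M → 1 ≤ R₀ → R₀ ≤ Y₁ → Y₁ ≤ Y₂ →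
      Y₂ ≤ bb (n + t) → 0 ≤ δ → LSU R₀ (2 * M) (3 * m) δ →
      ∑' z : ℤ × ℤ, (if gE g z = ε then 0 else kap m (red m (zbase r s)) z * W Y₁ Y₂ z *
        Ker (aF M) (2 * M) (ch z * (starRingEnd ℂ) (ch (zref m r (bb n))))) ≤
      (100 * m * bb n : ℝ) ^ 2 * (2 * M * T0 Y₁ Y₂ + 4 * (M : ℝ) ^ 2 * δ) +
        2 * (M : ℝ) ^ 4 * η / bb n := by
  obtain ⟨n₁, hn₁⟩ := partA (m := (m : ℤ)) hg (by exact_mod_cast hm) H hε t η hη
  refine ⟨max n₁ 2, fun n hn M Y₁ Y₂ R₀ δ hM hR0 hY hY' hY2 hδ hL => ?_⟩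
  have hn1 : n₁ ≤ n := (le_max_left _ _).trans hn
  have hn2 : 2 ≤ n := (le_max_right _ _).trans hn
  set X : ℕ := bb n with hXdef
  have hX : 16 ≤ X := by
    rw [hXdef]
    unfold Pool.Agent.H95.Gol.bb
    calc 16 = 2 ^ (2 ^ 2) := by norm_num
      _ ≤ 2 ^ (2 ^ n) := Nat.pow_le_pow_right (by norm_num) (Nat.pow_le_pow_right (by norm_num) hn2)
  have hY0 : 0 < Y₁ := by linarith
  have hY20 : 0 < Y₂ := by linarith
  have hfin := W_support hY0 hY20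
  set Z : Finset (ℤ × ℤ) := hfin.toFinset with hZdef
  have hZ : ∀ z, z ∉ Z → W Y₁ Y₂ z = 0 := by
    intro z hz
    by_contra hcon
    exact hz (hfin.mem_toFinset.2 hcon)
  set w := zref m r X with hw
  have hw0 : w ≠ 0 := b12_zref_ne m r X
  set ξ : ℂ := (starRingEnd ℂ) (ch w) with hξdef
  have hξ : ‖ξ‖ = 1 := by rw [hξdef, RCLike.norm_conj, norm_ch hw0]
  set c := red m (zbase r s) with hc
  set N : Finset (ℤ × ℤ) := Z.filter (fun z => gE g z ≠ ε ∧ kap m c z ≠ 0 ∧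
    ‖ch z - ch w‖ < 1 / (100 * m * X)) with hNdef
  have hmR : (1 : ℝ) ≤ m := by exact_mod_cast hm
  have hXR : (16 : ℝ) ≤ X := by exact_mod_cast hX
  have hnear := b12_near (g := g) (ε := ε) (M := M) hm hr0 hrm hs hX (A := bb (n + t)) hη hY0 hY' hY2
    (fun F hF => hn₁ n hn1 F hF) N hξ (by
      intro z hz
      rw [hNdef, Finset.mem_filter] at hz
      obtain ⟨h1, h2, h3, h4⟩ := hz
      obtain ⟨h5, h6⟩ := b12_kap_ne h3
      exact ⟨h2, h5, h6, h4, hfin.mem_toFinset.1 h1⟩)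
  have hfar := b12_far (M := M) c hR0 hY hY' hδ hL hξ Z hZ
  rw [tsum_eq_sum (s := Z) (by
    intro z hz
    rw [hZ z hz]
    simp)]
  have hbound : ∀ z ∈ Z, (if gE g z = ε then 0 else kap m c z * W Y₁ Y₂ z *
        Ker (aF M) (2 * M) (ch z * ξ)) ≤
      (100 * m * X : ℝ) ^ 2 * (kap m c z * W Y₁ Y₂ z * Ker (aG M) (2 * M) (ch z * ξ)) +
        (if gE g z ≠ ε ∧ kap m c z ≠ 0 ∧ ‖ch z - ch w‖ < 1 / (100 * m * X) then
          W Y₁ Y₂ z * Ker (aF M) (2 * M) (ch z * ξ) else 0) := by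
    intro z _
    have hW := W_nonneg Y₁ Y₂ z
    have hk := b12_kap_nonneg m c z
    have hk1 := b12_kap_le m c z
    have hG := Ker_nonneg (aG M) (2 * M) (ch z * ξ)
    have hKF := Ker_nonneg (aF M) (2 * M) (ch z * ξ)
    have hfar0 : 0 ≤ (100 * m * X : ℝ) ^ 2 *
        (kap m c z * W Y₁ Y₂ z * Ker (aG M) (2 * M) (ch z * ξ)) := by positivity
    have hnear0 : 0 ≤ W Y₁ Y₂ z * Ker (aF M) (2 * M) (ch z * ξ) := by positivity
    by_cases hε1 : gE g z = ε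
    · rw [if_pos hε1]
      have : (0 : ℝ) ≤ (if gE g z ≠ ε ∧ kap m c z ≠ 0 ∧ ‖ch z - ch w‖ < 1 / (100 * m * X) then
          W Y₁ Y₂ z * Ker (aF M) (2 * M) (ch z * ξ) else 0) := by
        split_ifs
        · exact hnear0
        · exact le_rfl
      linarith
    rw [if_neg hε1]
    by_cases hk0 : kap m c z = 0
    · rw [hk0]
      simp
    by_cases hnr : ‖ch z - ch w‖ < 1 / (100 * m * X)
    · rw [if_pos ⟨hε1, hk0, hnr⟩]
      have : kap m c z * W Y₁ Y₂ z * Ker (aF M) (2 * M) (ch z * ξ) ≤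
          W Y₁ Y₂ z * Ker (aF M) (2 * M) (ch z * ξ) := by
        have := mul_le_mul_of_nonneg_right hk1 hnear0
        calc kap m c z * W Y₁ Y₂ z * Ker (aF M) (2 * M) (ch z * ξ) =
            kap m c z * (W Y₁ Y₂ z * Ker (aF M) (2 * M) (ch z * ξ)) := by ring
          _ ≤ _ := this
          _ = _ := by ring
      linarith
    · rw [if_neg (fun h => hnr h.2.2), add_zero]
      push Not at hnr
      have hFG := Ker_FG M (ch z * ξ)
      have hd : ‖1 - ch z * ξ‖ = ‖ch z - ch w‖ := by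
        have e1 : ch w * ξ = 1 := by
          rw [hξdef, Complex.mul_conj, Complex.normSq_eq_norm_sq, norm_ch hw0]; simp
        have e2 : 1 - ch z * ξ = (ch w - ch z) * ξ := by rw [← e1]; ring
        rw [e2, norm_mul, hξ, mul_one, norm_sub_rev]
      rw [hd] at hFG
      have hpos : (0 : ℝ) < 100 * m * X := by positivity
      have h1 : 1 ≤ (100 * m * X : ℝ) * ‖ch z - ch w‖ := by
        have := mul_le_mul_of_nonneg_left hnr hpos.le
        rwa [mul_one_div_cancel hpos.ne'] at this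
      have h2 : 1 ≤ ((100 * m * X : ℝ) * ‖ch z - ch w‖) ^ 2 := one_le_pow₀ h1
      have h3 : Ker (aF M) (2 * M) (ch z * ξ) ≤
          (100 * m * X : ℝ) ^ 2 * Ker (aG M) (2 * M) (ch z * ξ) := by
        rw [← hFG]
        calc Ker (aF M) (2 * M) (ch z * ξ) = Ker (aF M) (2 * M) (ch z * ξ) * 1 := (mul_one _).symm
          _ ≤ Ker (aF M) (2 * M) (ch z * ξ) * ((100 * m * X : ℝ) * ‖ch z - ch w‖) ^ 2 :=
            mul_le_mul_of_nonneg_left h2 hKF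
          _ = _ := by ring
      calc kap m c z * W Y₁ Y₂ z * Ker (aF M) (2 * M) (ch z * ξ) ≤
          kap m c z * W Y₁ Y₂ z * ((100 * m * X : ℝ) ^ 2 * Ker (aG M) (2 * M) (ch z * ξ)) :=
            mul_le_mul_of_nonneg_left h3 (by positivity)
        _ = _ := by ring
  refine (Finset.sum_le_sum hbound).trans ?_
  rw [Finset.sum_add_distrib, ← Finset.mul_sum, ← Finset.sum_filter]
  have hpos : (0 : ℝ) ≤ (100 * m * X : ℝ) ^ 2 := by positivity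
  exact add_le_add (mul_le_mul_of_nonneg_left hfar hpos) hnear

end Pool.Agent.H61.AP
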