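import Pool.Agent.H61.AP.Defs

/-! B1: multiplication, norm, direction `ch`. -/

set_option autoImplicit false

namespace Pool.Agent.H61.AP

open Finset
open Pool.Agent.H95.Gol (bb PB)
open Pool.Agent.H41.Per (PM nmZ)

theorem em_comm' {A : Type} [CommRing A] (z w : A × A) : em z w = em w z := by
  unfold em
  ext
  · show z.1 * w.1 - z.2 * w.2 = w.1 * z.1 - w.2 * z.2
    ring
  · show z.1 * w.2 + z.2 * w.1 + z.2 * w.2 = w.1 * z.2 + w.2 * z.1 + w.2 * z.2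
    ring

theorem em_assoc' {A : Type} [CommRing A] (z w u : A × A) : em (em z w) u = em z (em w u) := by
  unfold em
  ext
  · dsimp only
    ring
  · dsimp only
    ring

theorem nE_em (z w : ℤ × ℤ) : nE (em z w) = nE z * nE w := by
  unfold nE em
  ring

theorem nE_cj (z : ℤ × ℤ) : nE (cj z) = nE z := by
  unfold nE cj
  ring

theorem em_cj (z : ℤ × ℤ) : em z (cj z) = (nE z, 0) := by
  unfold em cj nE
  ext
  · dsimp only; ring
  · dsimp only; ring

theorem b1_four (z : ℤ × ℤ) : 4 * nE z = (2 * z.1 + z.2) ^ 2 + 3 * z.2 ^ 2 := by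
  unfold nE; ring

theorem nE_pos {z : ℤ × ℤ} (h : z ≠ 0) : 0 < nE z := by
  by_contra hcon
  push Not at hcon
  have h1 := b1_four z
  have h2 : z.2 = 0 := by
    have : z.2 ^ 2 = 0 := by nlinarith [sq_nonneg (2 * z.1 + z.2), sq_nonneg z.2]
    exact pow_eq_zero_iff (two_ne_zero) |>.1 this
  have h3 : z.1 = 0 := by
    have : (2 * z.1 + z.2) ^ 2 = 0 := by nlinarith [sq_nonneg (2 * z.1 + z.2), sq_nonneg z.2]
    have := pow_eq_zero_iff (two_ne_zero) |>.1 this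
    omega
  exact h (Prod.ext h3 h2)

theorem b1_nonneg (z : ℤ × ℤ) : 0 ≤ nE z := by
  by_cases h : z = 0
  · rw [h]; simp [nE]
  · exact (nE_pos h).le

theorem nE_ge (z : ℤ × ℤ) : 3 * (max z.1.natAbs z.2.natAbs : ℤ) ^ 2 ≤ 4 * nE z := by
  rcases max_cases (z.1.natAbs : ℤ) (z.2.natAbs : ℤ) with ⟨h, -⟩ | ⟨h, -⟩
  · rw [h, Int.natCast_natAbs, sq_abs]
    unfold nE
    nlinarith [sq_nonneg (z.1 + 2 * z.2)]
  · rw [h, Int.natCast_natAbs, sq_abs]
    unfold nE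
    nlinarith [sq_nonneg (2 * z.1 + z.2)]

theorem nE_le (z : ℤ × ℤ) : nE z ≤ 3 * (max z.1.natAbs z.2.natAbs : ℤ) ^ 2 := by
  set M : ℤ := (max z.1.natAbs z.2.natAbs : ℤ) with hM
  have h1 : |z.1| ≤ M := by
    rw [hM, ← Int.natCast_natAbs]; exact le_max_left _ _
  have h2 : |z.2| ≤ M := by
    rw [hM, ← Int.natCast_natAbs]; exact le_max_right _ _
  have h3 : |z.1| * |z.1| ≤ M * M := mul_le_mul h1 h1 (abs_nonneg _) ((abs_nonneg _).trans h1)
  have h4 : |z.2| * |z.2| ≤ M * M := mul_le_mul h2 h2 (abs_nonneg _) ((abs_nonneg _).trans h1)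
  have h5 : |z.1| * |z.2| ≤ M * M := mul_le_mul h1 h2 (abs_nonneg _) ((abs_nonneg _).trans h1)
  have h6 : z.1 * z.2 ≤ |z.1| * |z.2| := by rw [← abs_mul]; exact le_abs_self _
  rw [abs_mul_abs_self] at h3 h4
  unfold nE
  nlinarith

theorem em_inj {n : ℤ × ℤ} (h : n ≠ 0) : Function.Injective (em n) := by
  intro z w hzw
  have h1 : em (cj n) (em n z) = em (cj n) (em n w) := by rw [hzw]
  rw [← em_assoc', ← em_assoc', em_comm' (cj n) n, em_cj] at h1
  have h2 := (nE_pos h).ne'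
  unfold em at h1
  rw [Prod.ext_iff] at h1
  obtain ⟨h3, h4⟩ := h1
  dsimp only at h3 h4
  ext
  · apply mul_left_cancel₀ h2; linarith
  · apply mul_left_cancel₀ h2; linarith

/-- Relation with the coordinates of Part A. -/
theorem nE_eq_nmZ (a b : ℤ) : nE (a + b, b) = nmZ a b := by
  unfold nE nmZ
  ring

theorem b1_sqrt3 : Real.sqrt 3 * Real.sqrt 3 = 3 := Real.mul_self_sqrt (by norm_num)

theorem b1_re (z : ℤ × ℤ) : (toC z).re = z.1 + z.2 / 2 := by
  simp [toC, rhoC]; ring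

theorem b1_im (z : ℤ × ℤ) : (toC z).im = z.2 * (Real.sqrt 3 / 2) := by
  simp [toC, rhoC]

theorem toC_em (z w : ℤ × ℤ) : toC (em z w) = toC z * toC w := by
  have h := b1_sqrt3
  apply Complex.ext
  · rw [Complex.mul_re, b1_re, b1_re, b1_re, b1_im, b1_im]
    unfold em
    push_cast
    have : (z.2 : ℝ) * (Real.sqrt 3 / 2) * (w.2 * (Real.sqrt 3 / 2)) =
      z.2 * w.2 * (Real.sqrt 3 * Real.sqrt 3) / 4 := by ring
    rw [this, h]; ring
  · rw [Complex.mul_im, b1_im, b1_re, b1_re, b1_im, b1_im]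
    unfold em
    push_cast
    ring

theorem norm_toC_sq (z : ℤ × ℤ) : ‖toC z‖ ^ 2 = nE z := by
  have h := b1_sqrt3
  rw [Complex.sq_norm, Complex.normSq_apply, b1_re, b1_im]
  unfold nE
  push_cast
  have : (z.2 : ℝ) * (Real.sqrt 3 / 2) * (z.2 * (Real.sqrt 3 / 2)) =
      z.2 * z.2 * (Real.sqrt 3 * Real.sqrt 3) / 4 := by ring
  rw [this, h]; ring

theorem toC_ne {z : ℤ × ℤ} (h : z ≠ 0) : toC z ≠ 0 := by
  intro h0
  have h1 := norm_toC_sq z
  rw [h0, norm_zero] at h1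
  have h2 := nE_pos h
  have h3 : (0 : ℝ) < nE z := by exact_mod_cast h2
  rw [← h1] at h3
  norm_num at h3

theorem ch_em (z w : ℤ × ℤ) : ch (em z w) = ch z * ch w := by
  unfold ch
  rw [toC_em, nE_em]
  push_cast
  rw [div_mul_div_comm, mul_pow]

theorem norm_ch {z : ℤ × ℤ} (h : z ≠ 0) : ‖ch z‖ = 1 := by
  unfold ch
  have h1 : (0 : ℝ) < nE z := by exact_mod_cast nE_pos h
  rw [norm_div, norm_pow, norm_toC_sq]
  have h2 : ‖(nE z : ℂ)‖ = (nE z : ℝ) := by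
    rw [Complex.norm_intCast, abs_of_pos h1]
  rw [h2, div_self h1.ne']

theorem norm_ch_le (z : ℤ × ℤ) : ‖ch z‖ ≤ 1 := by
  by_cases h : z = 0
  · rw [h]; simp [ch, nE, toC]
  · exact (norm_ch h).le

theorem b1_toC_cj (z : ℤ × ℤ) : toC (cj z) = (starRingEnd ℂ) (toC z) := by
  apply Complex.ext
  · rw [Complex.conj_re, b1_re, b1_re]
    unfold cj; push_cast; ring
  · rw [Complex.conj_im, b1_im, b1_im]
    unfold cj; push_cast; ring

theorem ch_cj (z : ℤ × ℤ) : ch (cj z) = (starRingEnd ℂ) (ch z) := by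
  unfold ch
  rw [b1_toC_cj, nE_cj, map_div₀, map_pow, map_intCast]

theorem b1_cross (z w : ℤ × ℤ) : (toC z * (starRingEnd ℂ) (toC w)).im =
    -(Real.sqrt 3 / 2) * ((z.1 * w.2 - z.2 * w.1 : ℤ) : ℝ) := by
  rw [Complex.mul_im, Complex.conj_im, Complex.conj_re, b1_re, b1_re, b1_im, b1_im]
  push_cast
  ring

/-- Distance of two directions. -/
theorem dist_ch {z w : ℤ × ℤ} (hz : z ≠ 0) (hw : w ≠ 0) :
    ‖ch z - ch w‖ ^ 2 = 3 * ((z.1 * w.2 - z.2 * w.1 : ℤ) : ℝ) ^ 2 / ((nE z : ℝ) * nE w) := by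
  have pz : (0 : ℝ) < nE z := by exact_mod_cast nE_pos hz
  have pw : (0 : ℝ) < nE w := by exact_mod_cast nE_pos hw
  set A := toC z with hA
  set B := toC w with hB
  have nA : (nE z : ℂ) = A * (starRingEnd ℂ) A := by
    rw [Complex.mul_conj, ← Complex.sq_norm, norm_toC_sq]; simp
  have nB : (nE w : ℂ) = B * (starRingEnd ℂ) B := by
    rw [Complex.mul_conj, ← Complex.sq_norm, norm_toC_sq]; simp
  have hA0 : A ≠ 0 := toC_ne hz
  have hB0 : B ≠ 0 := toC_ne hw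
  have hA1 : (starRingEnd ℂ) A ≠ 0 := by simpa using hA0
  have hB1 : (starRingEnd ℂ) B ≠ 0 := by simpa using hB0
  have key : ch z - ch w = (A * (starRingEnd ℂ) B - (starRingEnd ℂ) A * B) /
      ((starRingEnd ℂ) A * (starRingEnd ℂ) B) := by
    unfold ch
    rw [← hA, ← hB, nA, nB]
    field_simp
  have him : A * (starRingEnd ℂ) B - (starRingEnd ℂ) A * B =
      ((2 * (A * (starRingEnd ℂ) B).im : ℝ) : ℂ) * Complex.I := by
    have : (starRingEnd ℂ) A * B = (starRingEnd ℂ) (A * (starRingEnd ℂ) B) := by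
      rw [map_mul, Complex.conj_conj]
    rw [this, Complex.sub_conj]
  have k1 : ‖(A * (starRingEnd ℂ) B - (starRingEnd ℂ) A * B)‖ ^ 2 =
      3 * ((z.1 * w.2 - z.2 * w.1 : ℤ) : ℝ) ^ 2 := by
    rw [him, norm_mul, Complex.norm_I, mul_one, Complex.norm_real, Real.norm_eq_abs, sq_abs, hA, hB,
      b1_cross]
    have := b1_sqrt3
    calc (2 * (-(Real.sqrt 3 / 2) * ((z.1 * w.2 - z.2 * w.1 : ℤ) : ℝ))) ^ 2 =
        (Real.sqrt 3 * Real.sqrt 3) * ((z.1 * w.2 - z.2 * w.1 : ℤ) : ℝ) ^ 2 := by ring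
      _ = _ := by rw [this]
  have k2 : ‖(starRingEnd ℂ) A * (starRingEnd ℂ) B‖ ^ 2 = (nE z : ℝ) * nE w := by
    rw [norm_mul, RCLike.norm_conj, RCLike.norm_conj, mul_pow, hA, hB, norm_toC_sq, norm_toC_sq]
  rw [key, norm_div, div_pow, k1, k2]

/-- The direction in terms of the argument. -/
theorem ch_arg {z : ℤ × ℤ} (h : z ≠ 0) :
    ch z = Complex.exp (((2 * Complex.arg (toC z) : ℝ) : ℂ) * Complex.I) := by
  have h1 := Complex.norm_mul_exp_arg_mul_I (toC z)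
  have h2 : (nE z : ℂ) = ((‖toC z‖ : ℝ) : ℂ) ^ 2 := by
    rw [← Complex.ofReal_pow, norm_toC_sq]; simp
  have h3 : ((‖toC z‖ : ℝ) : ℂ) ≠ 0 := by
    rw [Complex.ofReal_ne_zero, norm_ne_zero_iff]; exact toC_ne h
  have h4 : toC z ^ 2 = ((‖toC z‖ : ℝ) : ℂ) ^ 2 * Complex.exp (Complex.arg (toC z) * Complex.I) ^ 2 := by
    rw [← mul_pow, h1]
  unfold ch
  rw [h2, h4, mul_div_cancel_left₀ _ (pow_ne_zero 2 h3), ← Complex.exp_nat_mul]
  congr 1
  push_cast
  ring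

theorem arg_sector {z : ℤ × ℤ} (h1 : 0 ≤ z.2) (h2 : z.2 ≤ z.1) :
    0 ≤ Complex.arg (toC z) ∧ Complex.arg (toC z) ≤ Real.pi / 6 := by
  have hz2 : (0 : ℝ) ≤ z.2 := by exact_mod_cast h1
  have hz12 : (z.2 : ℝ) ≤ z.1 := by exact_mod_cast h2
  have him : 0 ≤ (toC z).im := by rw [b1_im]; positivity
  have hre : 0 ≤ (toC z).re := by rw [b1_re]; linarith
  refine ⟨Complex.arg_nonneg_iff.2 him, ?_⟩
  by_cases h0 : toC z = 0
  · rw [h0, Complex.arg_zero]; positivity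
  have hpi := Real.pi_pos
  have harg : Complex.arg (toC z) = Real.arcsin ((toC z).im / ‖toC z‖) :=
    Complex.arg_of_re_nonneg hre
  rw [harg]
  have : Real.pi / 6 = Real.arcsin (1 / 2) := by
    rw [← Real.sin_pi_div_six, Real.arcsin_sin (by linarith) (by linarith)]
  rw [this]
  apply Real.monotone_arcsin
  have hn : 0 < ‖toC z‖ := norm_pos_iff.2 h0
  rw [div_le_iff₀ hn]
  have h3 : 0 ≤ (1 / 2 : ℝ) * ‖toC z‖ := by positivity
  apply le_of_sq_le_sq _ h3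
  rw [mul_pow, norm_toC_sq, b1_im]
  have h4 := b1_sqrt3
  unfold nE
  push_cast
  nlinarith [mul_nonneg hz2 hz2, mul_nonneg hz2 (sub_nonneg.2 hz12), mul_nonneg (hz2.trans hz12) (sub_nonneg.2 hz12)]

theorem gE_em {g : ℕ → ℤ} (hg : PM g) {z w : ℤ × ℤ} (hz : z ≠ 0) (hw : w ≠ 0) :
    gE g (em z w) = gE g z * gE g w := by
  unfold gE
  rw [nE_em, Int.natAbs_mul]
  exact hg.mul _ _ (Int.natAbs_ne_zero.2 (nE_pos hz).ne') (Int.natAbs_ne_zero.2 (nE_pos hw).ne')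

theorem b1_cop {n : ℤ × ℤ} (hn : IsCoprime n.1 n.2) : IsCoprime n.2 (nE n) := by
  have h1 : IsCoprime n.2 (n.1 ^ 2) := hn.symm.pow_right
  have h2 : nE n = n.1 ^ 2 + n.2 * (n.1 + n.2) := by unfold nE; ring
  rw [h2]
  exact h1.add_mul_left_right _

/-- Divisibility by a primitive element as a congruence. -/
theorem dvd_iff {n : ℤ × ℤ} (hn : IsCoprime n.1 n.2) :
    ∃ θ : ℤ, ∀ z : ℤ × ℤ, (∃ z', z = em n z') ↔ nE n ∣ z.1 + θ * z.2 := by
  have hc := b1_cop hn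
  obtain ⟨u, v, huv⟩ := hc
  have hn0 : n ≠ 0 := by
    intro h
    rw [h] at hn
    obtain ⟨a, b, hab⟩ := hn
    simp at hab
  have hN := (nE_pos hn0).ne'
  have hfact : nE n = n.1 ^ 2 + n.1 * n.2 + n.2 ^ 2 := rfl
  refine ⟨-n.1 * u, fun z => ⟨?_, ?_⟩⟩
  · rintro ⟨z', rfl⟩
    -- z = (n1 z1 - n2 z2, n1 z2 + n2 z1 + n2 z2)
    have h1 : nE n ∣ n.2 * (em n z').1 - n.1 * (em n z').2 := by
      refine ⟨-z'.2, ?_⟩
      unfold em nE; ring
    have h2 : (em n z').1 + -n.1 * u * (em n z').2 =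
        u * (n.2 * (em n z').1 - n.1 * (em n z').2) + (v * (em n z').1) * nE n := by
      have : (em n z').1 = (em n z').1 * (u * n.2 + v * nE n) := by rw [huv, mul_one]
      calc (em n z').1 + -n.1 * u * (em n z').2 =
          (em n z').1 * (u * n.2 + v * nE n) + -n.1 * u * (em n z').2 := by rw [← this]
        _ = _ := by ring
    rw [h2]
    exact dvd_add (h1.mul_left _) (Dvd.intro_left _ rfl)
  · rintro ⟨c, hc⟩
    have h1 : nE n ∣ n.2 * z.1 - n.1 * z.2 := by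
      refine ⟨n.2 * c - n.1 * v * z.2, ?_⟩
      have h3 : n.2 * z.1 = n.2 * (nE n * c) + n.2 * n.1 * u * z.2 := by rw [← hc]; ring
      rw [h3]
      have h4 : n.1 * z.2 = n.1 * z.2 * (u * n.2 + v * nE n) := by rw [huv, mul_one]
      rw [h4]; ring
    obtain ⟨d, hd⟩ := h1
    -- other coordinate of em (cj n) z
    have h2 : nE n ∣ n.2 * ((n.1 + n.2) * z.1 + n.2 * z.2) := by
      refine ⟨(n.1 + n.2) * d + z.2, ?_⟩
      have h3 : n.2 * z.1 = nE n * d + n.1 * z.2 := by linarith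
      calc n.2 * ((n.1 + n.2) * z.1 + n.2 * z.2) = (n.1 + n.2) * (n.2 * z.1) + n.2 * n.2 * z.2 := by
            ring
        _ = (n.1 + n.2) * (nE n * d + n.1 * z.2) + n.2 * n.2 * z.2 := by rw [h3]
        _ = nE n * ((n.1 + n.2) * d + z.2) := by rw [hfact]; ring
    have h3 : nE n ∣ (n.1 + n.2) * z.1 + n.2 * z.2 :=
      (b1_cop hn).symm.dvd_of_dvd_mul_left h2
    obtain ⟨e, he⟩ := h3
    refine ⟨(e, -d), ?_⟩
    unfold em
    ext
    · dsimp only
      apply mul_left_cancel₀ hN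
      calc nE n * z.1 = n.1 * ((n.1 + n.2) * z.1 + n.2 * z.2) + n.2 * (n.2 * z.1 - n.1 * z.2) := by
            rw [hfact]; ring
        _ = n.1 * (nE n * e) + n.2 * (nE n * d) := by rw [he, hd]
        _ = _ := by ring
    · dsimp only
      apply mul_left_cancel₀ hN
      calc nE n * z.2 = n.2 * ((n.1 + n.2) * z.1 + n.2 * z.2) -
            (n.1 + n.2) * (n.2 * z.1 - n.1 * z.2) := by
            rw [hfact]; ring
        _ = n.2 * (nE n * e) - (n.1 + n.2) * (nE n * d) := by rw [he, hd]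
        _ = _ := by ring

theorem primitive_of_prime {n : ℤ × ℤ} (h : (nE n).natAbs.Prime) : IsCoprime n.1 n.2 := by
  rw [Int.isCoprime_iff_gcd_eq_one]
  by_contra hne
  set d := Int.gcd n.1 n.2 with hd
  obtain ⟨a, ha⟩ : (d : ℤ) ∣ n.1 := Int.gcd_dvd_left ..
  obtain ⟨b, hb⟩ : (d : ℤ) ∣ n.2 := Int.gcd_dvd_right ..
  have h1 : nE n = (d : ℤ) ^ 2 * (a ^ 2 + a * b + b ^ 2) := by
    unfold nE; rw [ha, hb]; ring
  have h2 : d * d ∣ (nE n).natAbs := by
    rw [h1, Int.natAbs_mul, Int.natAbs_pow, Int.natAbs_natCast, pow_two]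
    exact Nat.dvd_mul_right _ _
  have h3 : d ∣ (nE n).natAbs := (Nat.dvd_mul_right d d).trans h2
  rcases (Nat.dvd_prime h).1 h3 with h4 | h4
  · exact hne h4
  · rw [← h4] at h2
    have hd0 : 0 < d := by rw [h4]; exact h.pos
    have := Nat.le_of_dvd hd0 h2
    have h5 : 1 < d := by rw [h4]; exact h.one_lt
    nlinarith

/-- Two elements of coprime norms. -/
theorem dvd_iff₂ {n n' : ℤ × ℤ} (hn : IsCoprime n.1 n.2) (hn' : IsCoprime n'.1 n'.2)
    (hc : IsCoprime (nE n) (nE n')) :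
    ∃ θ : ℤ, ∀ z : ℤ × ℤ, ((∃ z', z = em n z') ∧ (∃ z', z = em n' z')) ↔
      nE n * nE n' ∣ z.1 + θ * z.2 := by
  obtain ⟨θ, h1⟩ := dvd_iff hn
  obtain ⟨θ', h2⟩ := dvd_iff hn'
  obtain ⟨u, v, huv⟩ := hc
  -- x = θ mod N, θ' mod N'
  set x := θ * (v * nE n') + θ' * (u * nE n) with hx
  have e1 : x - θ = nE n * (u * (θ' - θ)) := by
    have : v * nE n' = 1 - u * nE n := by linarith
    rw [hx, this]; ring
  have e2 : x - θ' = nE n' * (v * (θ - θ')) := by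
    have : u * nE n = 1 - v * nE n' := by linarith
    rw [hx, this]; ring
  refine ⟨x, fun z => ?_⟩
  rw [h1, h2]
  have k1 : nE n ∣ z.1 + θ * z.2 ↔ nE n ∣ z.1 + x * z.2 := by
    have : z.1 + x * z.2 = z.1 + θ * z.2 + nE n * (u * (θ' - θ) * z.2) := by
      have : x = θ + nE n * (u * (θ' - θ)) := by linarith
      rw [this]; ring
    rw [this]
    exact (dvd_add_left (Dvd.intro _ rfl)).symm
  have k2 : nE n' ∣ z.1 + θ' * z.2 ↔ nE n' ∣ z.1 + x * z.2 := by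
    have : z.1 + x * z.2 = z.1 + θ' * z.2 + nE n' * (v * (θ - θ') * z.2) := by
      have : x = θ' + nE n' * (v * (θ - θ')) := by linarith
      rw [this]; ring
    rw [this]
    exact (dvd_add_left (Dvd.intro _ rfl)).symm
  rw [k1, k2]
  constructor
  · rintro ⟨a, b⟩
    exact IsCoprime.mul_dvd ⟨u, v, huv⟩ a b
  · intro h
    exact ⟨(Dvd.intro _ rfl).trans h, (Dvd.intro_left _ rfl).trans h⟩

/-- Representation of a prime `p ≡ 1 mod 3` in the sector `0 ≤ y ≤ x`. -/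
theorem exists_rep {p : ℕ} (hp : p.Prime) (h : p % 3 = 1) :
    ∃ z : ℤ × ℤ, 0 ≤ z.2 ∧ z.2 ≤ z.1 ∧ nE z = p := by
  obtain ⟨a, b, hab⟩ := Pool.Agent.H41.Per.prime_norm hp h
  -- both of the same sign
  have key : ∃ a b : ℤ, 0 ≤ a ∧ 0 ≤ b ∧ a ^ 2 + a * b + b ^ 2 = p := by
    rcases le_total 0 a with ha | ha <;> rcases le_total 0 b with hb | hb
    · exact ⟨a, b, ha, hb, hab⟩
    · rcases le_total 0 (a + b) with hs | hs
      · exact ⟨a + b, -b, hs, by omega, by rw [← hab]; ring⟩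
      · exact ⟨-(a + b), a, by omega, ha, by rw [← hab]; ring⟩
    · rcases le_total 0 (a + b) with hs | hs
      · exact ⟨a + b, -a, hs, by omega, by rw [← hab]; ring⟩
      · exact ⟨-(a + b), b, by omega, hb, by rw [← hab]; ring⟩
    · exact ⟨-a, -b, by omega, by omega, by rw [← hab]; ring⟩
  obtain ⟨a, b, ha, hb, hab⟩ := key
  rcases le_total b a with hs | hs
  · exact ⟨(a, b), hb, hs, hab⟩
  · exact ⟨(b, a), ha, hs, by show b ^ 2 + b * a + a ^ 2 = p; rw [← hab]; ring⟩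

theorem red_em (m : ℕ) (z w : ℤ × ℤ) : red m (em z w) = em (red m z) (red m w) := by
  unfold red em
  ext
  · push_cast; rfl
  · push_cast; rfl

theorem tau_em {m : ℕ} {u : ZMod m × ZMod m} (hu : IsUnit (u.1 ^ 2 + u.1 * u.2 + u.2 ^ 2))
    (c : ZMod m × ZMod m) : tau u (em u c) = c ∧ em u (tau u c) = c := by
  have h1 : (u.1 ^ 2 + u.1 * u.2 + u.2 ^ 2)⁻¹ * (u.1 ^ 2 + u.1 * u.2 + u.2 ^ 2) = 1 :=
    ZMod.inv_mul_of_unit _ hu
  set N := u.1 ^ 2 + u.1 * u.2 + u.2 ^ 2 with hN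
  set J := N⁻¹ with hJ
  have key : em (J * (cj u).1, J * (cj u).2) u = (1, 0) := by
    unfold em cj
    ext
    · show J * (u.1 + u.2) * u.1 - J * -u.2 * u.2 = 1
      rw [← h1, hN]; ring
    · show J * (u.1 + u.2) * u.2 + J * -u.2 * u.1 + J * -u.2 * u.2 = 0
      ring
  have hone : ∀ c : ZMod m × ZMod m, em (1, 0) c = c := by
    intro c
    unfold em
    ext
    · show 1 * c.1 - 0 * c.2 = c.1
      ring
    · show 1 * c.2 + 0 * c.1 + 0 * c.2 = c.2
      ring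
  constructor
  · show em (J * (cj u).1, J * (cj u).2) (em u c) = c
    rw [← em_assoc', key, hone]
  · show em u (em (J * (cj u).1, J * (cj u).2) c) = c
    rw [← em_assoc', em_comm' u, key, hone]

end Pool.Agent.H61.AP
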