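import Pool.Agent.H61.AP.B2_FE
import Pool.Agent.H61.AP.B3_Cmp

/-! B4: twisted lattice sums are small, from one prime element `n` with `ch n ^ (2j)` far from 1. -/

set_option autoImplicit false

namespace Pool.Agent.H61.AP

open Finset
open Pool.Agent.H95.Gol (bb PB)

/-- The twisted weight. -/
private noncomputable def hW (R S : ℝ) (j : ℤ) (z : ℤ × ℤ) : ℂ := (W R S z : ℂ) * ch z ^ j

private lemma hW_support {R S : ℝ} (hR : 0 < R) (hS : 0 < S) (j : ℤ) :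
    (Function.support (hW R S j)).Finite := by
  refine (W_support hR hS).subset fun z hz => ?_
  rw [Function.mem_support] at hz ⊢
  intro h
  apply hz
  unfold hW
  rw [h]
  simp

private lemma av_norm_le {q : ℕ} (hq : 0 < q) {κ : ℤ × ℤ → ℂ} (hκ : ∀ z, ‖κ z‖ ≤ 1) :
    ‖av q κ‖ ≤ 1 := by
  unfold av
  have hq0 : (0:ℝ) < q := by exact_mod_cast hq
  have h1 : ‖∑ x ∈ range q, ∑ y ∈ range q, κ ((x : ℤ), (y : ℤ))‖ ≤ (q:ℝ) ^ 2 := by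
    calc ‖∑ x ∈ range q, ∑ y ∈ range q, κ ((x : ℤ), (y : ℤ))‖ ≤
        ∑ x ∈ range q, ∑ y ∈ range q, ‖κ ((x : ℤ), (y : ℤ))‖ :=
          (norm_sum_le _ _).trans (sum_le_sum fun x _ => norm_sum_le _ _)
      _ ≤ ∑ x ∈ range q, ∑ y ∈ range q, (1:ℝ) :=
          sum_le_sum fun x _ => sum_le_sum fun y _ => hκ _
      _ = (q:ℝ) ^ 2 := by simp [sq]
  rw [norm_mul, norm_div, norm_one, norm_pow, Complex.norm_natCast]
  calc 1 / (q:ℝ) ^ 2 * ‖∑ x ∈ range q, ∑ y ∈ range q, κ ((x : ℤ), (y : ℤ))‖ ≤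
      1 / (q:ℝ) ^ 2 * (q:ℝ) ^ 2 := mul_le_mul_of_nonneg_left h1 (by positivity)
    _ = 1 := by field_simp

private lemma W_em {R S : ℝ} {n n' : ℤ × ℤ} (h : nE n = nE n') (z : ℤ × ℤ) :
    W R S (em n z) = W R S (em n' z) := by
  unfold W
  rw [nE_em, nE_em, h]

/-- One prime element: the sum over the multiples. -/
private lemma one_elt {R S : ℝ} (hR : 0 < R) (hS : 0 < S) {j : ℤ} {p : ℕ} (hp : p.Prime)
    {n : ℤ × ℤ} (hn : nE n = p) {D : ℝ}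
    (hD : ∑' z : ℤ × ℤ, ‖hW R S j (z + (1, 0)) - hW R S j z‖ ≤ D) :
    ‖∑' z, hW R S j z - p * (ch n ^ j * ∑' z : ℤ × ℤ, (W R S (em n z) : ℂ) * ch z ^ j)‖ ≤
      (p:ℝ) ^ 2 * D := by
  classical
  have hnz : n ≠ 0 := by
    rintro rfl
    have : nE (0 : ℤ × ℤ) = 0 := by simp [nE]
    rw [this] at hn
    have := hp.pos
    omega
  have hprim : IsCoprime n.1 n.2 := primitive_of_prime (by rw [hn]; simpa using hp)
  obtain ⟨θ, hθ⟩ := dvd_iff hprim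
  have h1 := cmp 1 p one_pos hp.pos (Nat.coprime_one_left p) θ (fun _ => 1) (hW R S j)
    (fun _ => by simp) (fun _ => rfl) (hW_support hR hS j)
  have h2 : ∑' z : ℤ × ℤ, (if (p : ℤ) ∣ z.1 + θ * z.2 then (1:ℂ) * hW R S j z else 0) =
      ch n ^ j * ∑' z : ℤ × ℤ, (W R S (em n z) : ℂ) * ch z ^ j := by
    rw [← tsum_mul_left]
    rw [← (em_inj hnz).tsum_eq]
    · refine tsum_congr fun z => ?_
      have h3 : (p : ℤ) ∣ (em n z).1 + θ * (em n z).2 := by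
        rw [← hn]
        exact (hθ _).1 ⟨z, rfl⟩
      rw [if_pos h3, one_mul]
      unfold hW
      rw [ch_em, mul_zpow]
      ring
    · intro z hz
      rw [Function.mem_support] at hz
      by_contra hcon
      apply hz
      rw [if_neg]
      intro h3
      apply hcon
      rw [← hn] at h3
      obtain ⟨z', hz'⟩ := (hθ z).2 h3
      exact ⟨z', hz'.symm⟩
  rw [h2] at h1
  simp only [one_mul, Nat.cast_one] at h1
  exact h1.trans (mul_le_mul_of_nonneg_left hD (by positivity))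

theorem ls : ∃ C : ℝ, 0 < C ∧ ∀ (q p : ℕ) (n : ℤ × ℤ) (j : ℤ) (t₀ : ℝ), 0 < q → p.Prime →
    nE n = p → 0 < t₀ → t₀ ≤ 1 → t₀ ≤ ‖ch n ^ (2 * j) - 1‖ →
    ∀ (R S : ℝ) (κ : ℤ × ℤ → ℂ), 1 ≤ R → R ≤ S → Per2 q κ →
      ‖∑' z : ℤ × ℤ, κ z * (W R S z : ℂ) * ch z ^ j‖ ≤
        C * ((q : ℝ) ^ 3 * (p : ℝ) ^ 2 / t₀) * (1 + |(j : ℝ)|) / Real.sqrt R := by
  obtain ⟨C, hC, hfe⟩ := fe
  refine ⟨5 * C, by positivity, fun q p n j t₀ hq hp hn ht ht1 htn R S κ hR hRS hκ => ?_⟩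
  have hR0 : 0 < R := by linarith
  have hS0 : 0 < S := by linarith
  set D : ℝ := C * (1 + |(j : ℝ)|) / Real.sqrt R with hD
  have hD0 : 0 ≤ D := by positivity
  have hq1 : (1:ℝ) ≤ q := by exact_mod_cast hq
  have hp1 : (1:ℝ) ≤ p := by exact_mod_cast hp.one_lt.le
  have hD1 : ∑' z : ℤ × ℤ, ‖hW R S j (z + (1, 0)) - hW R S j z‖ ≤ D :=
    hfe R S j (1, 0) hR hRS (Or.inl rfl)
  have hD2 : ∑' z : ℤ × ℤ, ‖hW R S j (z + (0, 1)) - hW R S j z‖ ≤ D :=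
    hfe R S j (0, 1) hR hRS (Or.inr rfl)
  have hnz : n ≠ 0 := by
    rintro rfl
    have : nE (0 : ℤ × ℤ) = 0 := by simp [nE]
    rw [this] at hn
    have := hp.pos
    omega
  have hchn : ‖ch n‖ = 1 := norm_ch hnz
  have hch0 : ch n ≠ 0 := by
    intro h
    rw [h, norm_zero] at hchn
    norm_num at hchn
  set B : ℂ := ∑' z : ℤ × ℤ, (W R S (em n z) : ℂ) * ch z ^ j with hB
  set Sm : ℂ := ∑' z, hW R S j z with hSm
  have h1 : ‖Sm - p * (ch n ^ j * B)‖ ≤ (p:ℝ) ^ 2 * D := one_elt hR0 hS0 hp hn hD1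
  have h2 : ‖Sm - p * (ch n ^ (-j) * B)‖ ≤ (p:ℝ) ^ 2 * D := by
    have h3 := one_elt hR0 hS0 (j := j) hp ((nE_cj n).trans hn) hD1
    have h4 : ∑' z : ℤ × ℤ, (W R S (em (cj n) z) : ℂ) * ch z ^ j = B := by
      refine tsum_congr fun z => ?_
      rw [W_em (nE_cj n)]
    have h5 : ch (cj n) ^ j = ch n ^ (-j) := by
      rw [ch_cj, zpow_neg, ← inv_zpow]
      congr 1
      rw [Complex.inv_def, Complex.normSq_eq_norm_sq, hchn]
      simp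
    rw [h4, h5] at h3
    exact h3
  have h3 : ‖B‖ * t₀ ≤ 2 * p * D := by
    have h4 : ‖(p:ℂ) * (ch n ^ j * B) - p * (ch n ^ (-j) * B)‖ ≤ 2 * ((p:ℝ) ^ 2 * D) := by
      have h5 : (p:ℂ) * (ch n ^ j * B) - p * (ch n ^ (-j) * B) =
          (Sm - p * (ch n ^ (-j) * B)) - (Sm - p * (ch n ^ j * B)) := by ring
      rw [h5]
      refine (norm_sub_le _ _).trans ?_
      linarith
    have h6 : (p:ℂ) * (ch n ^ j * B) - p * (ch n ^ (-j) * B) =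
        p * B * (ch n ^ (-j) * (ch n ^ (2 * j) - 1)) := by
      have : ch n ^ (-j) * ch n ^ (2 * j) = ch n ^ j := by
        rw [← zpow_add₀ hch0]; congr 1; ring
      rw [mul_sub, this]
      ring
    rw [h6, norm_mul, norm_mul, norm_mul, Complex.norm_natCast, norm_zpow, hchn, one_zpow,
      one_mul] at h4
    have h7 : (p:ℝ) * ‖B‖ * t₀ ≤ (p:ℝ) * ‖B‖ * ‖ch n ^ (2 * j) - 1‖ :=
      mul_le_mul_of_nonneg_left htn (by positivity)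
    have h8 : (p:ℝ) * (‖B‖ * t₀) ≤ p * (2 * p * D) := by nlinarith
    exact le_of_mul_le_mul_left h8 (by linarith)
  have h4 : ‖Sm‖ ≤ 3 * ((p:ℝ) ^ 2 * D / t₀) := by
    have h5 : ‖B‖ ≤ 2 * p * D / t₀ := by rw [le_div_iff₀ ht]; exact h3
    have h6 : ‖Sm‖ ≤ (p:ℝ) ^ 2 * D + p * ‖B‖ := by
      have h7 : Sm = (Sm - p * (ch n ^ j * B)) + p * (ch n ^ j * B) := by ring
      rw [h7]
      refine (norm_add_le _ _).trans ?_
      rw [norm_mul (p:ℂ), norm_mul (ch n ^ j), norm_zpow, hchn, one_zpow, one_mul,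
        Complex.norm_natCast]
      linarith
    have h8 : (p:ℝ) * ‖B‖ ≤ 2 * ((p:ℝ) ^ 2 * D / t₀) := by
      calc (p:ℝ) * ‖B‖ ≤ p * (2 * p * D / t₀) := mul_le_mul_of_nonneg_left h5 (by linarith)
        _ = _ := by ring
    have h9 : (p:ℝ) ^ 2 * D ≤ (p:ℝ) ^ 2 * D / t₀ := by
      rw [le_div_iff₀ ht]
      exact mul_le_of_le_one_right (by positivity) ht1
    linarith
  have h5 := cls q hq κ (hW R S j) hκ (hW_support hR0 hS0 j)
  have h6 : ∑' z : ℤ × ℤ, κ z * (W R S z : ℂ) * ch z ^ j = ∑' z, κ z * hW R S j z :=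
    tsum_congr fun z => mul_assoc _ _ _
  rw [h6]
  have h7 : ‖∑' z, κ z * hW R S j z‖ ≤ (q:ℝ) ^ 3 * (D + D) + ‖Sm‖ := by
    have h8 : ∑' z, κ z * hW R S j z = (∑' z, κ z * hW R S j z - av q κ * Sm) + av q κ * Sm := by
      ring
    rw [h8]
    refine (norm_add_le _ _).trans (add_le_add ?_ ?_)
    · exact h5.trans (mul_le_mul_of_nonneg_left (add_le_add hD1 hD2) (by positivity))
    · rw [norm_mul]
      exact mul_le_of_le_one_left (norm_nonneg _) (av_norm_le hq hκ.1)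
  refine h7.trans ?_
  have hq3 : (1:ℝ) ≤ (q:ℝ) ^ 3 := one_le_pow₀ hq1
  have hp2 : (1:ℝ) ≤ (p:ℝ) ^ 2 := one_le_pow₀ hp1
  have e1 : 3 * ((p:ℝ) ^ 2 * D / t₀) ≤ 3 * ((q:ℝ) ^ 3 * ((p:ℝ) ^ 2 * D / t₀)) := by
    have : 0 ≤ (p:ℝ) ^ 2 * D / t₀ := by positivity
    nlinarith
  have e2 : (q:ℝ) ^ 3 * (D + D) ≤ 2 * ((q:ℝ) ^ 3 * ((p:ℝ) ^ 2 * D / t₀)) := by
    have h8 : D ≤ (p:ℝ) ^ 2 * D / t₀ := by
      rw [le_div_iff₀ ht]
      calc D * t₀ ≤ D * 1 := mul_le_mul_of_nonneg_left ht1 hD0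
        _ = 1 * D := by ring
        _ ≤ (p:ℝ) ^ 2 * D := mul_le_mul_of_nonneg_right hp2 hD0
    have h9 : (q:ℝ) ^ 3 * D ≤ (q:ℝ) ^ 3 * ((p:ℝ) ^ 2 * D / t₀) :=
      mul_le_mul_of_nonneg_left h8 (by positivity)
    linarith
  have e3 : 5 * C * ((q : ℝ) ^ 3 * (p : ℝ) ^ 2 / t₀) * (1 + |(j : ℝ)|) / Real.sqrt R =
      5 * ((q:ℝ) ^ 3 * ((p:ℝ) ^ 2 * D / t₀)) := by
    rw [hD]; ring
  rw [e3]
  linarith

/-- Untwisted sums of periodic functions. -/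
theorem ls0 : ∃ C : ℝ, 0 < C ∧ ∀ (q : ℕ), 0 < q → ∀ (R S : ℝ) (κ : ℤ × ℤ → ℂ), 1 ≤ R → R ≤ S →
    Per2 q κ →
      ‖∑' z : ℤ × ℤ, κ z * (W R S z : ℂ) - av q κ * (T0 R S : ℂ)‖ ≤
        C * (q : ℝ) ^ 3 / Real.sqrt R := by
  obtain ⟨C, hC, hfe⟩ := fe
  refine ⟨2 * C, by positivity, fun q hq R S κ hR hRS hκ => ?_⟩
  have hR0 : 0 < R := by linarith
  have hS0 : 0 < S := by linarith
  have hD1 : ∑' z : ℤ × ℤ, ‖hW R S 0 (z + (1, 0)) - hW R S 0 z‖ ≤ C / Real.sqrt R := by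
    have := hfe R S 0 (1, 0) hR hRS (Or.inl rfl)
    simp only [Int.cast_zero, abs_zero, add_zero, mul_one] at this
    exact this
  have hD2 : ∑' z : ℤ × ℤ, ‖hW R S 0 (z + (0, 1)) - hW R S 0 z‖ ≤ C / Real.sqrt R := by
    have := hfe R S 0 (0, 1) hR hRS (Or.inr rfl)
    simp only [Int.cast_zero, abs_zero, add_zero, mul_one] at this
    exact this
  have h5 := cls q hq κ (hW R S 0) hκ (hW_support hR0 hS0 0)
  have h6 : ∑' z : ℤ × ℤ, κ z * (W R S z : ℂ) = ∑' z, κ z * hW R S 0 z :=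
    tsum_congr fun z => by unfold hW; rw [zpow_zero, mul_one]
  have h7 : (T0 R S : ℂ) = ∑' z, hW R S 0 z := by
    unfold T0
    rw [Complex.ofReal_tsum]
    exact tsum_congr fun z => by unfold hW; rw [zpow_zero, mul_one]
  rw [h6, h7]
  refine h5.trans ?_
  calc (q:ℝ) ^ 3 * (∑' z : ℤ × ℤ, ‖hW R S 0 (z + (1, 0)) - hW R S 0 z‖ +
        ∑' z : ℤ × ℤ, ‖hW R S 0 (z + (0, 1)) - hW R S 0 z‖) ≤
      (q:ℝ) ^ 3 * (C / Real.sqrt R + C / Real.sqrt R) :=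
        mul_le_mul_of_nonneg_left (add_le_add hD1 hD2) (by positivity)
    _ = _ := by ring

open Classical in
/-- Sums over multiples of a primitive element of norm `d` (or a congruence `d ∣ x + θ y`). -/
theorem ls_dvd : ∃ C : ℝ, 0 < C ∧ ∀ (q d : ℕ), 0 < q → 0 < d → Nat.Coprime q d →
    ∀ (θ j : ℤ) (R S : ℝ) (κ : ℤ × ℤ → ℂ), 1 ≤ R → R ≤ S → Per2 q κ →
      ‖∑' z : ℤ × ℤ, κ z * (W R S z : ℂ) * ch z ^ j -
        d * ∑' z : ℤ × ℤ, (if (d : ℤ) ∣ z.1 + θ * z.2 then κ z * (W R S z : ℂ) * ch z ^ j else 0)‖ ≤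
        C * ((q : ℝ) * (d : ℝ) ^ 2) * (1 + |(j : ℝ)|) / Real.sqrt R := by
  obtain ⟨C, hC, hfe⟩ := fe
  refine ⟨C, hC, fun q d hq hd hqd θ j R S κ hR hRS hκ => ?_⟩
  have hR0 : 0 < R := by linarith
  have hS0 : 0 < S := by linarith
  have hD1 : ∑' z : ℤ × ℤ, ‖hW R S j (z + (1, 0)) - hW R S j z‖ ≤
      C * (1 + |(j : ℝ)|) / Real.sqrt R := hfe R S j (1, 0) hR hRS (Or.inl rfl)
  have h1 := cmp q d hq hd hqd θ κ (hW R S j) hκ.1 hκ.2.1 (hW_support hR0 hS0 j)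
  have h2 : ∑' z : ℤ × ℤ, κ z * (W R S z : ℂ) * ch z ^ j = ∑' z, κ z * hW R S j z :=
    tsum_congr fun z => mul_assoc _ _ _
  have h3 : ∑' z : ℤ × ℤ, (if (d : ℤ) ∣ z.1 + θ * z.2 then κ z * (W R S z : ℂ) * ch z ^ j else 0) =
      ∑' z : ℤ × ℤ, (if (d : ℤ) ∣ z.1 + θ * z.2 then κ z * hW R S j z else 0) := by
    refine tsum_congr fun z => ?_
    split_ifs
    · exact mul_assoc _ _ _
    · rfl
  rw [h2, h3]
  refine h1.trans ?_
  calc (q:ℝ) * (d:ℝ) ^ 2 * ∑' z : ℤ × ℤ, ‖hW R S j (z + (1, 0)) - hW R S j z‖ ≤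
      (q:ℝ) * (d:ℝ) ^ 2 * (C * (1 + |(j : ℝ)|) / Real.sqrt R) :=
        mul_le_mul_of_nonneg_left hD1 (by positivity)
    _ = _ := by ring

end Pool.Agent.H61.AP
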