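import Mathlib

/-! B6: an abstract Turan-Kubilius inequality. -/

set_option autoImplicit false

namespace Pool.Agent.H61.AP

open Finset

open Classical in
theorem tk {ι α : Type} (T : Finset ι) (c : ι → ℝ) (w : α → ℝ) (hw : ∀ z, 0 ≤ w z)
    (hfin : (Function.support w).Finite) (Dv : ι → α → Prop) (δ : ℝ) (hδ : 0 ≤ δ)
    (hc : ∀ i ∈ T, 0 ≤ c i ∧ c i ≤ 1)
    (h1 : ∀ i ∈ T, |∑' z, (if Dv i z then w z else 0) - c i * ∑' z, w z| ≤ δ)
    (h2 : ∀ i ∈ T, ∀ j ∈ T, i ≠ j →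
      |∑' z, (if Dv i z ∧ Dv j z then w z else 0) - c i * c j * ∑' z, w z| ≤ δ) :
    ∑' z, w z * ((∑ i ∈ T, if Dv i z then (1 : ℝ) else 0) - ∑ i ∈ T, c i) ^ 2 ≤
      (∑ i ∈ T, c i) * ∑' z, w z + 4 * ((T.card : ℝ) + 1) ^ 2 * δ := by
  have hz : ∀ z, z ∉ hfin.toFinset → w z = 0 := fun z hz => by
    rw [Set.Finite.mem_toFinset, Function.mem_support, not_not] at hz
    exact hz
  set F := hfin.toFinset with hF
  have e0 : ∑' z, w z = ∑ z ∈ F, w z := tsum_eq_sum fun z h => hz z h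
  have e1 : ∀ i, ∑' z, (if Dv i z then w z else 0) = ∑ z ∈ F, (if Dv i z then w z else 0) :=
    fun i => tsum_eq_sum fun z h => by rw [hz z h]; simp
  have e2 : ∀ i j, ∑' z, (if Dv i z ∧ Dv j z then w z else 0) =
      ∑ z ∈ F, (if Dv i z ∧ Dv j z then w z else 0) :=
    fun i j => tsum_eq_sum fun z h => by rw [hz z h]; simp
  have e3 : ∑' z, w z * ((∑ i ∈ T, if Dv i z then (1 : ℝ) else 0) - ∑ i ∈ T, c i) ^ 2 =
      ∑ z ∈ F, w z * ((∑ i ∈ T, if Dv i z then (1 : ℝ) else 0) - ∑ i ∈ T, c i) ^ 2 :=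
    tsum_eq_sum fun z h => by rw [hz z h]; simp
  rw [e3, e0]
  simp only [e0, e1] at h1
  simp only [e0, e2] at h2
  set S := ∑ z ∈ F, w z with hS
  have hS0 : 0 ≤ S := Finset.sum_nonneg fun z _ => hw z
  set C := ∑ i ∈ T, c i with hC
  have hC0 : 0 ≤ C := Finset.sum_nonneg fun i hi => (hc i hi).1
  have hCT : C ≤ T.card := by
    have := Finset.sum_le_card_nsmul T c 1 fun i hi => (hc i hi).2
    simpa using this
  set n : ℝ := (T.card : ℝ) with hn
  have hn0 : 0 ≤ n := Nat.cast_nonneg _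
  -- the two sums
  set P : ι → ι → ℝ := fun i j => ∑ z ∈ F, (if Dv i z ∧ Dv j z then w z else 0) with hP
  set Q : ι → ℝ := fun i => ∑ z ∈ F, (if Dv i z then w z else 0) with hQ
  have hexp : ∑ z ∈ F, w z * ((∑ i ∈ T, if Dv i z then (1 : ℝ) else 0) - C) ^ 2 =
      ∑ i ∈ T, ∑ j ∈ T, P i j - 2 * C * ∑ i ∈ T, Q i + C ^ 2 * S := by
    have hA : ∑ i ∈ T, ∑ j ∈ T, P i j =
        ∑ z ∈ F, w z * ((∑ i ∈ T, if Dv i z then (1 : ℝ) else 0) *
          (∑ j ∈ T, if Dv j z then (1 : ℝ) else 0)) := by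
      simp only [hP]
      have : ∀ i ∈ T, ∑ j ∈ T, ∑ z ∈ F, (if Dv i z ∧ Dv j z then w z else 0) =
          ∑ z ∈ F, ∑ j ∈ T, (if Dv i z ∧ Dv j z then w z else 0) :=
        fun i _ => Finset.sum_comm
      rw [Finset.sum_congr rfl this, Finset.sum_comm]
      refine Finset.sum_congr rfl fun z _ => ?_
      rw [Finset.sum_mul_sum, Finset.mul_sum]
      refine Finset.sum_congr rfl fun i _ => ?_
      rw [Finset.mul_sum]
      refine Finset.sum_congr rfl fun j _ => ?_
      by_cases ha : Dv i z <;> by_cases hb : Dv j z <;> simp [ha, hb]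
    have hB : ∑ i ∈ T, Q i = ∑ z ∈ F, w z * (∑ i ∈ T, if Dv i z then (1 : ℝ) else 0) := by
      simp only [hQ]
      rw [Finset.sum_comm]
      refine Finset.sum_congr rfl fun z _ => ?_
      rw [Finset.mul_sum]
      refine Finset.sum_congr rfl fun i _ => ?_
      by_cases ha : Dv i z <;> simp [ha]
    rw [hA, hB, hS]
    clear_value C
    rw [Finset.mul_sum, Finset.mul_sum, ← Finset.sum_sub_distrib, ← Finset.sum_add_distrib]
    refine Finset.sum_congr rfl fun z _ => ?_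
    ring
  rw [hexp]
  -- bounds
  have hPQ : ∀ i, P i i = Q i := fun i => by simp only [hP, hQ, and_self]
  have hQu : ∀ i ∈ T, Q i ≤ c i * S + δ := fun i hi => by
    have := (abs_le.1 (h1 i hi)).2
    simp only [hQ]
    linarith
  have hQl : ∀ i ∈ T, c i * S - δ ≤ Q i := fun i hi => by
    have := (abs_le.1 (h1 i hi)).1
    simp only [hQ]
    linarith
  have hPu : ∀ i ∈ T, ∀ j ∈ T, P i j ≤ c i * c j * S + δ + (if i = j then c i * S else 0) := by
    intro i hi j hj
    by_cases hij : i = j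
    · subst hij
      rw [hPQ, if_pos rfl]
      have h3 := hQu i hi
      have h4 : 0 ≤ c i * c i * S := mul_nonneg (mul_nonneg (hc i hi).1 (hc i hi).1) hS0
      linarith
    · rw [if_neg hij, add_zero]
      have := (abs_le.1 (h2 i hi j hj hij)).2
      simp only [hP]
      linarith
  have hPs : ∑ i ∈ T, ∑ j ∈ T, P i j ≤ C ^ 2 * S + n ^ 2 * δ + C * S := by
    calc ∑ i ∈ T, ∑ j ∈ T, P i j
        ≤ ∑ i ∈ T, ∑ j ∈ T, (c i * c j * S + δ + (if i = j then c i * S else 0)) :=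
          Finset.sum_le_sum fun i hi => Finset.sum_le_sum fun j hj => hPu i hi j hj
      _ = C ^ 2 * S + n ^ 2 * δ + C * S := by
          have h5 : ∀ i ∈ T, ∑ j ∈ T, (c i * c j * S + δ + (if i = j then c i * S else 0)) =
              c i * (C * S) + n * δ + c i * S := by
            intro i hi
            rw [Finset.sum_add_distrib, Finset.sum_add_distrib, Finset.sum_ite_eq, if_pos hi,
              Finset.sum_const, nsmul_eq_mul, ← Finset.sum_mul, ← Finset.mul_sum]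
            ring
          rw [Finset.sum_congr rfl h5, Finset.sum_add_distrib, Finset.sum_add_distrib,
            Finset.sum_const, nsmul_eq_mul, ← Finset.sum_mul, ← Finset.sum_mul]
          ring
  have hQs : C * S - n * δ ≤ ∑ i ∈ T, Q i := by
    calc C * S - n * δ = ∑ i ∈ T, (c i * S - δ) := by
          rw [Finset.sum_sub_distrib, Finset.sum_const, nsmul_eq_mul, ← Finset.sum_mul]
      _ ≤ ∑ i ∈ T, Q i := Finset.sum_le_sum fun i hi => hQl i hi
  have h6 : 2 * C * (C * S - n * δ) ≤ 2 * C * ∑ i ∈ T, Q i :=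
    mul_le_mul_of_nonneg_left hQs (by linarith)
  have h7 : C * (n * δ) ≤ n * (n * δ) := mul_le_mul_of_nonneg_right hCT (mul_nonneg hn0 hδ)
  nlinarith [mul_nonneg hn0 hδ]

end Pool.Agent.H61.AP
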