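import Mathlib

/-! B7: Parseval step: an approximate eigenfunction relation makes the kernel sums constant. -/

set_option autoImplicit false

namespace Pool.Agent.H61.AP

open Finset

/-- Geometric sums of roots of unity. -/
theorem par_geom (N : ℕ) (hN : 0 < N) (ζ : ℂ) (hζ : IsPrimitiveRoot ζ N) (d : ℤ)
    (hd : ¬ (N : ℤ) ∣ d) : ∑ t ∈ range N, (ζ ^ d) ^ t = 0 := by
  have h1 : ζ ^ d ≠ 1 := by
    intro h
    exact hd ((hζ.zpow_eq_one_iff_dvd d).1 h)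
  have h2 : (ζ ^ d) ^ N = 1 := by
    rw [← zpow_natCast, ← zpow_mul, mul_comm, zpow_mul, zpow_natCast, hζ.pow_eq_one, one_zpow]
  have h3 := mul_geom_sum (ζ ^ d) N
  rw [h2, sub_self] at h3
  rcases mul_eq_zero.1 h3 with h4 | h4
  · exact absurd (sub_eq_zero.1 h4) h1
  · exact h4

/-- Discrete Parseval identity. -/
theorem par_disc (K : ℕ) (f : ℤ → ℂ) (N : ℕ) (hN : 2 * K < N) (ζ : ℂ) (hζ : IsPrimitiveRoot ζ N) :
    ∑ t ∈ range N, ‖∑ j ∈ Ioo (-(K : ℤ)) K, f j * (ζ ^ t) ^ j‖ ^ 2 =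
      N * ∑ j ∈ Ioo (-(K : ℤ)) K, ‖f j‖ ^ 2 := by
  have hN0 : 0 < N := by omega
  have hn : ‖ζ‖ = 1 := hζ.norm'_eq_one hN0.ne'
  have hz0 : ζ ≠ 0 := by
    intro h; rw [h, norm_zero] at hn; exact zero_ne_one hn
  have hcj : (starRingEnd ℂ) ζ = ζ⁻¹ := by
    rw [Complex.inv_def, Complex.normSq_eq_norm_sq, hn]; simp
  have key : ((∑ t ∈ range N, ‖∑ j ∈ Ioo (-(K : ℤ)) K, f j * (ζ ^ t) ^ j‖ ^ 2 : ℝ) : ℂ) =
      ((N * ∑ j ∈ Ioo (-(K : ℤ)) K, ‖f j‖ ^ 2 : ℝ) : ℂ) := by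
    push_cast
    have h1 : ∀ t ∈ range N, ((‖∑ j ∈ Ioo (-(K : ℤ)) K, f j * (ζ ^ t) ^ j‖ : ℂ)) ^ 2 =
        ∑ j ∈ Ioo (-(K : ℤ)) K, ∑ k ∈ Ioo (-(K : ℤ)) K,
          (f j * (starRingEnd ℂ) (f k)) * (ζ ^ (j - k)) ^ t := by
      intro t _
      rw [← Complex.mul_conj', map_sum, sum_mul_sum]
      refine sum_congr rfl fun j _ => sum_congr rfl fun k _ => ?_
      rw [map_mul, map_zpow₀, map_pow, hcj]
      have e : (ζ ^ (j - k)) ^ t = (ζ ^ t) ^ j * (ζ⁻¹ ^ t) ^ k := by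
        rw [← zpow_natCast, ← zpow_natCast, ← zpow_natCast, ← zpow_mul, ← zpow_mul, ← zpow_mul,
          inv_zpow, ← zpow_neg, ← zpow_add₀ hz0]
        congr 1
        ring
      rw [e]
      ring
    rw [sum_congr rfl h1, sum_comm, mul_sum]
    refine sum_congr rfl fun j hj => ?_
    rw [sum_comm]
    rw [sum_eq_single j]
    · simp only [sub_self, zpow_zero, one_pow, mul_one, sum_const, card_range, nsmul_eq_mul]
      rw [Complex.mul_conj']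
    · intro k hk hkj
      rw [← mul_sum, par_geom N hN0 ζ hζ (j - k), mul_zero]
      intro hdv
      have h5 : j - k = 0 := by
        apply Int.eq_zero_of_abs_lt_dvd hdv
        simp only [mem_Ioo] at hj hk
        rw [abs_lt]
        constructor <;> omega
      exact hkj (by omega)
    · intro h; exact absurd hj h
  exact_mod_cast key

/-- Parseval for a trigonometric polynomial bounded on the circle. -/
theorem parseval_le (K : ℕ) (f : ℤ → ℂ) (E : ℝ) (hE : 0 ≤ E)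
    (h : ∀ ξ : ℂ, ‖ξ‖ = 1 → ‖∑ j ∈ Ioo (-(K : ℤ)) K, f j * ξ ^ j‖ ≤ E) :
    ∑ j ∈ Ioo (-(K : ℤ)) K, ‖f j‖ ^ 2 ≤ E ^ 2 := by
  have hN0 : (2 * K + 1) ≠ 0 := by omega
  have hζ := Complex.isPrimitiveRoot_exp (2 * K + 1) hN0
  have hn := hζ.norm'_eq_one hN0
  have h1 := par_disc K f (2 * K + 1) (by omega) _ hζ
  have h2 : ∑ t ∈ range (2 * K + 1), ‖∑ j ∈ Ioo (-(K : ℤ)) K,
      f j * ((Complex.exp (2 * Real.pi * Complex.I / ((2 * K + 1 : ℕ) : ℂ))) ^ t) ^ j‖ ^ 2 ≤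
      ∑ t ∈ range (2 * K + 1), E ^ 2 := by
    refine sum_le_sum fun t _ => ?_
    refine pow_le_pow_left₀ (norm_nonneg _) (h _ ?_) 2
    rw [norm_pow, hn, one_pow]
  rw [h1] at h2
  rw [sum_const, card_range, nsmul_eq_mul] at h2
  have hpos : (0 : ℝ) < ((2 * K + 1 : ℕ) : ℝ) := by positivity
  exact le_of_mul_le_mul_left h2 hpos

theorem par_l2 {C : Type} [Fintype C] (τ : C ≃ C) (x y : C → ℝ) (hx : ∀ c, 0 ≤ x c)
    (c₁ : ℝ) (hc₁ : 0 < c₁) (hc₁' : c₁ ≤ 1)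
    (h : ∀ c, x c ≤ y c + (1 - c₁) * x (τ c)) :
    c₁ ^ 2 * ∑ c, x c ^ 2 ≤ ∑ c, y c ^ 2 := by
  set A := ∑ c, x c ^ 2 with hA
  have hA0 : 0 ≤ A := sum_nonneg fun c _ => sq_nonneg _
  have hB0 : 0 ≤ ∑ c, y c ^ 2 := sum_nonneg fun c _ => sq_nonneg _
  have h1 : A ≤ ∑ c, x c * y c + (1 - c₁) * ∑ c, x c * x (τ c) := by
    rw [hA, mul_sum, ← sum_add_distrib]
    refine sum_le_sum fun c _ => ?_
    have := mul_le_mul_of_nonneg_left (h c) (hx c)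
    nlinarith [this]
  have h2 : ∑ c, x c * x (τ c) ≤ A := by
    have e : ∑ c, x (τ c) ^ 2 = A := Equiv.sum_comp τ fun c => x c ^ 2
    have : ∑ c, x c * x (τ c) ≤ ∑ c, (x c ^ 2 + x (τ c) ^ 2) / 2 :=
      sum_le_sum fun c _ => by nlinarith [sq_nonneg (x c - x (τ c))]
    rw [← sum_div, sum_add_distrib, e] at this
    linarith
  have h3 : c₁ * A ≤ ∑ c, x c * y c := by
    have := mul_le_mul_of_nonneg_left h2 (by linarith : 0 ≤ 1 - c₁)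
    linarith
  have h4 : (c₁ * A) ^ 2 ≤ A * ∑ c, y c ^ 2 :=
    (pow_le_pow_left₀ (by positivity) h3 2).trans (sum_mul_sq_le_sq_mul_sq _ _ _)
  rcases hA0.eq_or_lt with h0 | h0
  · rw [← h0]; simpa using hB0
  · have : A * (c₁ ^ 2 * A) ≤ A * ∑ c, y c ^ 2 := by nlinarith [h4]
    exact le_of_mul_le_mul_left this h0

theorem par_const {C : Type} [Fintype C] (τ : C ≃ C) (K : ℕ) (f : C → ℤ → ℂ) (μ : ℤ → ℂ)
    (σ : ℂ) (hσ : ‖σ‖ = 1) (c₁ κ₂ E : ℝ) (hc₁ : 0 < c₁) (hc₁' : c₁ ≤ 1) (hκ : 0 ≤ κ₂) (hE : 0 ≤ E)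
    (hμ : ∀ j : ℤ, j ≠ 0 → |j| < K → ‖μ j‖ ≤ 1 - c₁)
    (hμ2 : ∑ j ∈ Ioo (-(K : ℤ)) K, ‖μ j‖ ^ 2 ≤ κ₂)
    (h : ∀ (c : C) (ξ : ℂ), ‖ξ‖ = 1 → ‖∑ j ∈ Ioo (-(K : ℤ)) K, f c j * ξ ^ j -
      σ * ∑ j ∈ Ioo (-(K : ℤ)) K, μ j * f (τ c) j * ξ ^ j‖ ≤ E)
    (c : C) (ξ ξ' : ℂ) (hξ : ‖ξ‖ = 1) (hξ' : ‖ξ'‖ = 1) :
    ‖∑ j ∈ Ioo (-(K : ℤ)) K, f c j * ξ ^ j - ∑ j ∈ Ioo (-(K : ℤ)) K, f c j * ξ' ^ j‖ ≤
      2 * E * (1 + Real.sqrt (Fintype.card C * κ₂) / c₁) := by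
  classical
  set I := Ioo (-(K : ℤ)) K with hI
  set D : C → ℤ → ℂ := fun c j => f c j - σ * (μ j * f (τ c) j) with hD
  have hsum : ∀ (c : C) (ξ : ℂ), ∑ j ∈ I, D c j * ξ ^ j = ∑ j ∈ I, f c j * ξ ^ j -
      σ * ∑ j ∈ I, μ j * f (τ c) j * ξ ^ j := by
    intro c ξ
    rw [mul_sum, ← sum_sub_distrib]
    refine sum_congr rfl fun j _ => ?_
    simp only [hD]; ring
  have hP : ∀ c, ∑ j ∈ I, ‖D c j‖ ^ 2 ≤ E ^ 2 := by
    intro c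
    refine parseval_le K (D c) E hE fun ξ hξ => ?_
    rw [hsum]
    exact h c ξ hξ
  have hP2 : ∑ j ∈ I, ∑ c, ‖D c j‖ ^ 2 ≤ Fintype.card C * E ^ 2 := by
    rw [sum_comm]
    refine (sum_le_sum fun c _ => hP c).trans ?_
    rw [sum_const, card_univ, nsmul_eq_mul]
  have hstep : ∀ j ∈ I.erase 0, c₁ ^ 2 * ∑ c, ‖f c j‖ ^ 2 ≤ ∑ c, ‖D c j‖ ^ 2 := by
    intro j hj
    have hj0 : j ≠ 0 := (mem_erase.1 hj).1
    have hjI := (mem_erase.1 hj).2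
    have hjK : |j| < K := by
      rw [hI, mem_Ioo] at hjI
      exact abs_lt.2 hjI
    refine par_l2 τ (fun c => ‖f c j‖) (fun c => ‖D c j‖) (fun c => norm_nonneg _) c₁ hc₁ hc₁' ?_
    intro c
    have e : f c j = D c j + σ * (μ j * f (τ c) j) := by simp only [hD]; ring
    calc ‖f c j‖ = ‖D c j + σ * (μ j * f (τ c) j)‖ := by rw [← e]
      _ ≤ ‖D c j‖ + ‖σ * (μ j * f (τ c) j)‖ := norm_add_le _ _
      _ = ‖D c j‖ + ‖μ j‖ * ‖f (τ c) j‖ := by rw [norm_mul, norm_mul, hσ, one_mul]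
      _ ≤ ‖D c j‖ + (1 - c₁) * ‖f (τ c) j‖ := by
        gcongr
        exact hμ j hj0 hjK
  have hall : c₁ ^ 2 * ∑ j ∈ I.erase 0, ‖f (τ c) j‖ ^ 2 ≤ Fintype.card C * E ^ 2 := by
    rw [mul_sum]
    refine le_trans (sum_le_sum fun j hj => ?_) (le_trans
      (sum_le_sum_of_subset_of_nonneg (erase_subset 0 I)
        fun j _ _ => (sum_nonneg fun c _ => sq_nonneg ‖D c j‖)) hP2)
    refine le_trans ?_ (hstep j hj)
    refine mul_le_mul_of_nonneg_left ?_ (sq_nonneg _)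
    exact single_le_sum (f := fun c => ‖f c j‖ ^ 2) (fun c _ => sq_nonneg _) (mem_univ (τ c))
  -- Cauchy-Schwarz
  have hS : ∑ j ∈ I.erase 0, ‖μ j‖ * ‖f (τ c) j‖ ≤
      E * (Real.sqrt (Fintype.card C * κ₂) / c₁) := by
    have h1 : (∑ j ∈ I.erase 0, ‖μ j‖ * ‖f (τ c) j‖) ^ 2 ≤
        (∑ j ∈ I.erase 0, ‖μ j‖ ^ 2) * ∑ j ∈ I.erase 0, ‖f (τ c) j‖ ^ 2 :=
      sum_mul_sq_le_sq_mul_sq _ _ _
    have h2 : ∑ j ∈ I.erase 0, ‖μ j‖ ^ 2 ≤ κ₂ :=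
      (sum_le_sum_of_subset_of_nonneg (erase_subset 0 I) fun j _ _ => sq_nonneg _).trans hμ2
    have h3 : ∑ j ∈ I.erase 0, ‖f (τ c) j‖ ^ 2 ≤ Fintype.card C * E ^ 2 / c₁ ^ 2 := by
      rw [le_div_iff₀ (by positivity)]; linarith
    have h4 : (∑ j ∈ I.erase 0, ‖μ j‖ * ‖f (τ c) j‖) ^ 2 ≤
        κ₂ * (Fintype.card C * E ^ 2 / c₁ ^ 2) :=
      h1.trans (mul_le_mul h2 h3 (sum_nonneg fun j _ => sq_nonneg _) hκ)
    refine (abs_le_of_sq_le_sq' ?_ (by positivity)).2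
    refine h4.trans (le_of_eq ?_)
    rw [mul_pow, div_pow, Real.sq_sqrt (by positivity)]
    ring
  -- conclusion
  have hdiff : ∑ j ∈ I, f c j * ξ ^ j - ∑ j ∈ I, f c j * ξ' ^ j =
      ∑ j ∈ I, D c j * ξ ^ j - ∑ j ∈ I, D c j * ξ' ^ j +
      σ * ∑ j ∈ I, μ j * f (τ c) j * (ξ ^ j - ξ' ^ j) := by
    rw [hsum, hsum]
    have : ∑ j ∈ I, μ j * f (τ c) j * (ξ ^ j - ξ' ^ j) =
        ∑ j ∈ I, μ j * f (τ c) j * ξ ^ j - ∑ j ∈ I, μ j * f (τ c) j * ξ' ^ j := by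
      rw [← sum_sub_distrib]
      exact sum_congr rfl fun j _ => by ring
    rw [this]; ring
  have hlast : ‖∑ j ∈ I, μ j * f (τ c) j * (ξ ^ j - ξ' ^ j)‖ ≤
      2 * (E * (Real.sqrt (Fintype.card C * κ₂) / c₁)) := by
    have e : ∑ j ∈ I, μ j * f (τ c) j * (ξ ^ j - ξ' ^ j) =
        ∑ j ∈ I.erase 0, μ j * f (τ c) j * (ξ ^ j - ξ' ^ j) := by
      symm
      apply sum_erase
      simp
    rw [e]
    refine (norm_sum_le _ _).trans ?_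
    refine le_trans (sum_le_sum (g := fun j => 2 * (‖μ j‖ * ‖f (τ c) j‖)) fun j _ => ?_) ?_
    · rw [norm_mul, norm_mul]
      have : ‖ξ ^ j - ξ' ^ j‖ ≤ 2 := by
        refine (norm_sub_le _ _).trans ?_
        rw [norm_zpow, norm_zpow, hξ, hξ', one_zpow]
        norm_num
      have h0 : 0 ≤ ‖μ j‖ * ‖f (τ c) j‖ := by positivity
      nlinarith
    · rw [← mul_sum]
      linarith [hS]
  rw [hdiff]
  have n1 : ‖∑ j ∈ I, D c j * ξ ^ j‖ ≤ E := by rw [hsum]; exact h c ξ hξ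
  have n2 : ‖∑ j ∈ I, D c j * ξ' ^ j‖ ≤ E := by rw [hsum]; exact h c ξ' hξ'
  have n3 := norm_add_le (∑ j ∈ I, D c j * ξ ^ j - ∑ j ∈ I, D c j * ξ' ^ j)
    (σ * ∑ j ∈ I, μ j * f (τ c) j * (ξ ^ j - ξ' ^ j))
  have n4 := norm_sub_le (∑ j ∈ I, D c j * ξ ^ j) (∑ j ∈ I, D c j * ξ' ^ j)
  rw [norm_mul, hσ, one_mul] at n3
  linarith

end Pool.Agent.H61.AP
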