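import Mathlib
import Pool.Agent.H95.Gol.Basic
import Pool.Agent.H41.Per.Square

/-!
MP_22d6bb_nt, values of a completely multiplicative `g : ℕ → {1,-1}` at `3k²+3k+1`, `k = r mod m`.
Definitions for Part A (sieve and Farey paths) and Part B (lattice sums and kernels).
-/

set_option autoImplicit false

namespace Pool.Agent.H61.AP

open Finset
open Pool.Agent.H95.Gol (bb PB)
open Pool.Agent.H41.Per (PM nmZ)

/-- `g(3k²+3k+1) = ε` for all integers `k = r mod m`. -/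
def Hyp (g : ℕ → ℤ) (m r ε : ℤ) : Prop :=
  ∀ k : ℤ, m ∣ k - r → g (3 * k ^ 2 + 3 * k + 1).natAbs = ε

/-! ### Part A: the vector `(a,b)` stands for `a + (r a + m b) π`, `π = 1 + ρ` -/

/-- The norm. -/
def G (m r : ℤ) (v : ℤ × ℤ) : ℤ := nmZ v.1 (r * v.1 + m * v.2)

/-- `g` at the norm. -/
def gA (g : ℕ → ℤ) (m r : ℤ) (v : ℤ × ℤ) : ℤ := g (G m r v).natAbs

/-- First coordinate prime to `3 m b`. -/
def UT (m : ℤ) (v : ℤ × ℤ) : Prop := IsCoprime v.1 (3 * m * v.2)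

/-- Shift. -/
def sh (j : ℤ) (v : ℤ × ℤ) : ℤ × ℤ := (v.1, v.2 + j * v.1)

/-- Determinant. -/
def dt (v w : ℤ × ℤ) : ℤ := v.1 * w.2 - v.2 * w.1

/-- Linear combination. -/
def cmb (α β : ℤ) (L R : ℤ × ℤ) : ℤ × ℤ := (α * L.1 + β * R.1, α * L.2 + β * R.2)

/-- `w + s y`. -/
def tp (w y : ℤ × ℤ) (s : ℤ) : ℤ × ℤ := (w.1 + s * y.1, w.2 + s * y.2)

/-- All small combinations of type `UT` of a node have the same value. -/
def Fine (g : ℕ → ℤ) (m r B : ℤ) (L R : ℤ × ℤ) : Prop :=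
  ∀ a b a' b' : ℤ, |a| ≤ B → |b| ≤ B → |a'| ≤ B → |b'| ≤ B →
    UT m (cmb a b L R) → UT m (cmb a' b' L R) →
    gA g m r (cmb a b L R) = gA g m r (cmb a' b' L R)

/-! ### Part B: `(x,y)` stands for `x + y ρ`, `ρ² = ρ - 1` -/

/-- Norm `x²+xy+y²`. -/
def nE (z : ℤ × ℤ) : ℤ := z.1 ^ 2 + z.1 * z.2 + z.2 ^ 2

/-- Multiplication. -/
def em {A : Type} [CommRing A] (z w : A × A) : A × A :=
  (z.1 * w.1 - z.2 * w.2, z.1 * w.2 + z.2 * w.1 + z.2 * w.2)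

/-- Conjugation. -/
def cj {A : Type} [CommRing A] (z : A × A) : A × A := (z.1 + z.2, -z.2)

/-- Reduction modulo `m`. -/
def red (m : ℕ) (z : ℤ × ℤ) : ZMod m × ZMod m := ((z.1 : ZMod m), (z.2 : ZMod m))

/-- `ρ = exp(iπ/3)`. -/
noncomputable def rhoC : ℂ := ⟨1 / 2, Real.sqrt 3 / 2⟩

/-- Embedding. -/
noncomputable def toC (z : ℤ × ℤ) : ℂ := (z.1 : ℂ) + (z.2 : ℂ) * rhoC

/-- The square of the direction. -/
noncomputable def ch (z : ℤ × ℤ) : ℂ := toC z ^ 2 / (nE z : ℂ)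

/-- Weight: `1/N` truncated below at `R`, above at `S` (continuous, `0` at `0`). -/
noncomputable def W (R S : ℝ) (z : ℤ × ℤ) : ℝ := max 0 (min (1 / (nE z : ℝ)) (1 / R) - 1 / S)

/-- Total mass. -/
noncomputable def T0 (R S : ℝ) : ℝ := ∑' z : ℤ × ℤ, W R S z

/-- `g` at the norm. -/
def gE (g : ℕ → ℤ) (z : ℤ × ℤ) : ℤ := g (nE z).natAbs

/-- Bounded by one and periodic modulo `q` in both coordinates. -/
def Per2 (q : ℕ) (κ : ℤ × ℤ → ℂ) : Prop :=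
  (∀ z, ‖κ z‖ ≤ 1) ∧ (∀ z, κ (z.1 + q, z.2) = κ z) ∧ (∀ z, κ (z.1, z.2 + q) = κ z)

/-- Average of a periodic function. -/
noncomputable def av (q : ℕ) (κ : ℤ × ℤ → ℂ) : ℂ :=
  (1 / (q : ℂ) ^ 2) * ∑ x ∈ range q, ∑ y ∈ range q, κ ((x : ℤ), (y : ℤ))

/-- Uniform smallness of the twisted lattice sums. -/
def LSU (R₀ : ℝ) (K q : ℕ) (δ : ℝ) : Prop :=
  ∀ R S : ℝ, R₀ ≤ R → R ≤ S → ∀ j : ℤ, j ≠ 0 → |j| < K → ∀ κ : ℤ × ℤ → ℂ, Per2 q κ →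
    ‖∑' z : ℤ × ℤ, κ z * (W R S z : ℂ) * ch z ^ j‖ ≤ δ

/-- The kernel `|∑ a_k ζ^k|²`. -/
noncomputable def Ker (a : ℕ → ℝ) (K : ℕ) (ζ : ℂ) : ℝ := ‖∑ k ∈ range K, (a k : ℂ) * ζ ^ k‖ ^ 2

/-- Indicator of the class `c` modulo `m` and of norm prime to `3`. -/
noncomputable def kap (m : ℕ) (c : ZMod m × ZMod m) (z : ℤ × ℤ) : ℝ := by
  classical exact if red m z = c ∧ ¬ (3 : ℤ) ∣ nE z then 1 else 0

/-- The twisted kernel sum over a class. -/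
noncomputable def Fc (g : ℕ → ℤ) (m : ℕ) (a : ℕ → ℝ) (K : ℕ) (R S : ℝ) (c : ZMod m × ZMod m)
    (ξ : ℂ) : ℝ :=
  ∑' z : ℤ × ℤ, kap m c z * (gE g z : ℝ) * W R S z * Ker a K (ch z * ξ)

/-- Inverse multiplication by `u` on classes. -/
def tau {m : ℕ} (u c : ZMod m × ZMod m) : ZMod m × ZMod m :=
  em ((u.1 ^ 2 + u.1 * u.2 + u.2 ^ 2)⁻¹ * (cj u).1, (u.1 ^ 2 + u.1 * u.2 + u.2 ^ 2)⁻¹ * (cj u).2) c

end Pool.Agent.H61.AP
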